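import Pool.Agent.Lib.MP_391708_nt.X3.U.Spec2
import Pool.Agent.Lib.MP_391708_nt.MR.Mom

/-!
# THEOREM X3 (MP_391708), part U, module PRC: the hypotheses of the variance inequality
-/

set_option autoImplicit false

namespace Pool.Agent.Lib.MP391708.X3U

open Finset Filter Topology Pool.Agent.Lib.MP391708.MR
open Pool.Agent.Lib.MP391708.X (ChiG hk Dist Fam rgh Ix psi ix1 UOK lc On)
open Pool.Agent.Lib.MP391708.X3 (Par par Box RR S2 I2 eta kap Eta Kap Var cl Big)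
open Pool.Agent.Lib.MP391708.XV (md chs ph hat atyp)
open Pool.Agent.Lib.MP391708.XU (fn ixq GG Eqv SpecBRG SpecCON SpecNCD)
open Pool.Agent.Lib.MP391708.XPU (SpecRGS SpecATY)
open scoped ComplexConjugate

namespace PRCM

theorem half_floor {x : ℝ} (hx : 1 ≤ x) : x / 2 ≤ (⌊x⌋₊ : ℝ) ∧ 1 ≤ ⌊x⌋₊ := by
  have h1 : 1 ≤ ⌊x⌋₊ := Nat.floor_pos.2 hx
  have h2 : (1 : ℝ) ≤ (⌊x⌋₊ : ℝ) := by exact_mod_cast h1
  have h3 := Nat.lt_floor_add_one x
  exact ⟨by linarith, h1⟩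

theorem mem_cell {h P Q : ℝ} {v : ℕ} {z : Gi} :
    z ∈ cell h P Q v ↔ z ∈ GP P Q ∧ ⌊h * Real.log (nm z)⌋₊ = v := by
  unfold cell
  rw [mem_filter]

theorem mem_SJ {p : Par} {m j : ℕ} {z : Gi} : z ∈ SJ p m j ↔ z ∈ disc (MM' p) ∧ rgh p.w z ∧
    ⌊p.h * Real.log (nm z)⌋₊ / m = j := by
  classical
  unfold SJ
  exact Finset.mem_filter

theorem mem_GP' {P Q : ℝ} {z : Gi} (h : z ∈ GP P Q) : z ≠ 0 ∧ (nm z : ℝ) ≤ Q ∧ P < (nm z : ℝ) := by
  unfold GP at h
  rw [mem_filter, mem_disc] at h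
  exact ⟨h.1.1, h.1.2, h.2.2.2.2.2⟩

theorem GP_sub {P Q P' Q' : ℝ} (h1 : P' ≤ P) (h2 : Q ≤ Q') : GP P Q ⊆ GP P' Q' := by
  intro z hz
  unfold GP at hz ⊢
  rw [mem_filter, mem_disc] at hz ⊢
  exact ⟨⟨hz.1.1, hz.1.2.trans h2⟩, hz.2.1, hz.2.2.1, hz.2.2.2.1, hz.2.2.2.2.1,
    lt_of_le_of_lt h1 hz.2.2.2.2.2⟩

theorem one_le_nm {z : Gi} (hz : z ≠ 0) : (1 : ℝ) ≤ (nm z : ℝ) := by
  have h0 : nm z ≠ 0 := by
    intro h
    apply hz
    unfold nm at h
    rw [Int.natAbs_eq_zero] at h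
    have h1 : z.re = 0 := by nlinarith [sq_nonneg z.re, sq_nonneg z.im]
    have h2 : z.im = 0 := by nlinarith [sq_nonneg z.re, sq_nonneg z.im]
    exact Zsqrtd.ext h1 h2
  exact_mod_cast Nat.one_le_iff_ne_zero.2 h0

/-- the norm and the floor of `h log`. -/
theorem floor_log {h x : ℝ} {a b : ℕ} (hh : 0 < h) (hx : 1 ≤ x) (ha : a ≤ ⌊h * Real.log x⌋₊)
    (hb : ⌊h * Real.log x⌋₊ + 1 ≤ b) : Real.exp (a / h) ≤ x ∧ x ≤ Real.exp (b / h) := by
  have hx0 : 0 < x := by linarith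
  have h0 : 0 ≤ h * Real.log x := mul_nonneg hh.le (Real.log_nonneg hx)
  have h1 : (a : ℝ) ≤ h * Real.log x := (Nat.cast_le.2 ha).trans (Nat.floor_le h0)
  have h2 : h * Real.log x ≤ b := by
    have := Nat.lt_floor_add_one (h * Real.log x)
    have h3 : ((⌊h * Real.log x⌋₊ + 1 : ℕ) : ℝ) ≤ b := Nat.cast_le.2 hb
    push_cast at h3
    linarith
  constructor
  · rw [← Real.le_log_iff_exp_le hx0, div_le_iff₀ hh]
    linarith
  · rw [← Real.log_le_iff_le_exp hx0, le_div_iff₀ hh]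
    linarith

/-- the range of the indices of coarse cells -/
theorem II_bound {h M : ℝ} {m a : ℕ} (hh : 0 < h) (hM : 1 ≤ M) (hm : 1 ≤ m)
    (ha : a ∈ (VV h M (2 * M)).image (fun v => v / m)) :
    h * Real.log M - m - 1 ≤ (m : ℝ) * a ∧ (m : ℝ) * a ≤ h * Real.log (2 * M) := by
  rw [mem_image] at ha
  obtain ⟨v, hv, rfl⟩ := ha
  unfold VV at hv
  rw [mem_Icc] at hv
  have h0 : 0 ≤ h * Real.log (2 * M) := mul_nonneg hh.le (Real.log_nonneg (by linarith))
  have h1 : (v : ℝ) ≤ h * Real.log (2 * M) := (Nat.cast_le.2 hv.2).trans (Nat.floor_le h0)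
  have h2 : h * Real.log M - 1 ≤ v := by
    have := Nat.lt_floor_add_one (h * Real.log M)
    have h3 : (⌊h * Real.log M⌋₊ : ℝ) ≤ v := Nat.cast_le.2 hv.1
    linarith
  have h4 : m * (v / m) ≤ v := Nat.mul_div_le v m
  have h5 : v < m * (v / m) + m := by
    have := Nat.lt_mul_div_succ v (show 0 < m by omega)
    rw [Nat.mul_add, Nat.mul_one] at this
    exact this
  have h4' : (m : ℝ) * ((v / m : ℕ) : ℝ) ≤ v := by exact_mod_cast h4
  have h5' : (v : ℝ) < (m : ℝ) * ((v / m : ℕ) : ℝ) + m := by exact_mod_cast h5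
  constructor <;> linarith

/-- the geometric part: the cells `L i j`. -/
theorem cells {p : Par} {hc : ℝ} {m : ℕ} (S : Siz p) (hhc : 6 ≤ hc) (hm : 1 ≤ m)
    (hmh : (m : ℝ) ≤ p.h / hc) {i j : ℕ} (hi : i ∈ VV hc p.P (2 * p.P)) (hj : j ∈ JJ p m) :
    (2 * p.N * p.T) / 1000 ≤ Real.exp (i / hc) * Real.exp (m * j / p.h) ∧
      Real.exp (3 / hc) * (Real.exp (i / hc) * Real.exp (m * j / p.h)) ≤ 2 * p.N * p.T := by
  have hN : 0 < p.N := by linarith [S.N]
  have hP : 0 < p.P := by linarith [S.P]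
  have hT : 0 < p.T := by linarith [S.T]
  have hh : 0 < p.h := by linarith [S.h]
  have hc0 : 0 < hc := by linarith
  have hM2 : 1 ≤ p.M2 := by
    unfold Par.M2
    rw [le_div_iff₀ (by positivity), one_mul]
    have h1 : p.T * 1 ≤ p.T * p.N := mul_le_mul_of_nonneg_left (by linarith [S.N]) hT.le
    calc 8 * p.P ≤ p.T := by linarith [S.T]
      _ ≤ p.N * p.T := by linarith
  have hj' := hj
  unfold JJ I2 at hj'
  have hb := II_bound hh hM2 hm hj'
  have hmm : (m : ℝ) / p.h ≤ 1 / hc := by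
    rw [div_le_div_iff₀ hh hc0]
    rw [le_div_iff₀ hc0] at hmh
    linarith
  have hh1 : 1 / p.h ≤ 1 / hc := by
    have h1 : (1 : ℝ) ≤ m := by exact_mod_cast hm
    refine le_trans ?_ hmm
    gcongr
  unfold VV at hi
  rw [mem_Icc] at hi
  have hi1 : hc * Real.log p.P - 1 ≤ i := by
    have := Nat.lt_floor_add_one (hc * Real.log p.P)
    have h3 : (⌊hc * Real.log p.P⌋₊ : ℝ) ≤ i := Nat.cast_le.2 hi.1
    linarith
  have hi2 : (i : ℝ) ≤ hc * Real.log (2 * p.P) :=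
    (Nat.cast_le.2 hi.2).trans (Nat.floor_le (mul_nonneg hc0.le (Real.log_nonneg (by linarith [S.P]))))
  have e1 : Real.log p.P - 1 / hc ≤ i / hc := by
    rw [le_div_iff₀ hc0]
    have : (Real.log p.P - 1 / hc) * hc = hc * Real.log p.P - 1 := by field_simp
    linarith
  have e2 : (i : ℝ) / hc ≤ Real.log (2 * p.P) := by
    rw [div_le_iff₀ hc0]
    linarith
  have e3 : Real.log p.M2 - 2 / hc ≤ (m : ℝ) * j / p.h := by
    have h1 : Real.log p.M2 - (m : ℝ) / p.h - 1 / p.h ≤ (m : ℝ) * j / p.h := by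
      rw [le_div_iff₀ hh]
      have : (Real.log p.M2 - (m : ℝ) / p.h - 1 / p.h) * p.h = p.h * Real.log p.M2 - m - 1 := by
        field_simp
      rw [this]
      exact hb.1
    have h2 : 2 / hc = 1 / hc + 1 / hc := by ring
    linarith
  have e4 : (m : ℝ) * j / p.h ≤ Real.log (2 * p.M2) := by
    rw [div_le_iff₀ hh]
    linarith [hb.2]
  have hprod : p.P * p.M2 = p.N * p.T / 8 := by
    unfold Par.M2
    field_simp
  have h3 : 3 / hc ≤ 1 / 2 := by
    rw [div_le_iff₀ hc0]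
    linarith
  have hM20 : 0 < p.M2 := by linarith
  constructor
  · rw [← Real.exp_add]
    have h1 : Real.log p.P + Real.log p.M2 - 1 / 2 ≤ (i : ℝ) / hc + (m : ℝ) * j / p.h := by
      have : (3 : ℝ) / hc = 1 / hc + 2 / hc := by ring
      linarith
    have h2 : Real.exp (Real.log p.P + Real.log p.M2 - 1 / 2) = p.P * p.M2 * Real.exp (-(1 / 2)) := by
      rw [sub_eq_add_neg, Real.exp_add, Real.exp_add, Real.exp_log hP, Real.exp_log hM20]
    have h4 : (1 : ℝ) / 2 ≤ Real.exp (-(1 / 2)) := by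
      have := Real.add_one_le_exp (-(1 / 2) : ℝ)
      norm_num at this ⊢
      linarith
    refine le_trans ?_ (Real.exp_le_exp.2 h1)
    rw [h2, hprod]
    have h6 : 0 < p.N * p.T := mul_pos hN hT
    nlinarith
  · rw [← Real.exp_add, ← Real.exp_add]
    have h1 : 3 / hc + ((i : ℝ) / hc + (m : ℝ) * j / p.h) ≤
        1 / 2 + (Real.log (2 * p.P) + Real.log (2 * p.M2)) := by
      linarith
    refine le_trans (Real.exp_le_exp.2 h1) ?_
    rw [Real.exp_add, Real.exp_add, Real.exp_log (by linarith), Real.exp_log (by linarith)]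
    have h2 : 2 * p.P * (2 * p.M2) = p.N * p.T / 2 := by
      have : 2 * p.P * (2 * p.M2) = 4 * (p.P * p.M2) := by ring
      rw [this, hprod]
      ring
    rw [h2]
    have h4 : Real.exp (1 / 2) ≤ 4 := by
      have h7 : Real.exp (1 / 2) ≤ Real.exp 1 := Real.exp_le_exp.2 (by norm_num)
      have := Real.exp_one_lt_d9
      linarith
    have h6 : 0 < p.N * p.T := mul_pos hN hT
    nlinarith

theorem cellL {p : Par} {hc : ℝ} {m : ℕ} (S : Siz p) (hhc : 6 ≤ hc) (hm : 1 ≤ m)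
    (hmh : (m : ℝ) ≤ p.h / hc) {i j : ℕ} {π z : Gi} (hπ : π ∈ cell hc p.P (2 * p.P) i)
    (hz : z ∈ SJ p m j) :
    Real.exp (i / hc) * Real.exp (m * j / p.h) ≤ (nm (π * z) : ℝ) ∧
      (nm (π * z) : ℝ) ≤ Real.exp (3 / hc) * (Real.exp (i / hc) * Real.exp (m * j / p.h)) := by
  have hh : 0 < p.h := by linarith [S.h]
  have hc0 : 0 < hc := by linarith
  rw [mem_cell] at hπ
  rw [mem_SJ, mem_disc] at hz
  have h1 := floor_log (a := i) (b := i + 1) hc0 (one_le_nm (mem_GP' hπ.1).1) hπ.2.ge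
    (by rw [hπ.2])
  have hv1 : m * j ≤ ⌊p.h * Real.log (nm z)⌋₊ := by
    rw [← hz.2.2]
    exact Nat.mul_div_le _ m
  have hv2 : ⌊p.h * Real.log (nm z)⌋₊ + 1 ≤ m * j + m := by
    have := Nat.lt_mul_div_succ ⌊p.h * Real.log (nm z)⌋₊ (show 0 < m by omega)
    rw [hz.2.2, Nat.mul_add, Nat.mul_one] at this
    omega
  have h2 := floor_log (a := m * j) (b := m * j + m) hh (one_le_nm hz.1.1) hv1 hv2
  have hn : (nm (π * z) : ℝ) = (nm π : ℝ) * nm z := by
    rw [nm_mul]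
    push_cast
    rfl
  have hc1 : (((m * j : ℕ)) : ℝ) = (m : ℝ) * (j : ℝ) := by push_cast; rfl
  have hc2 : (((m * j + m : ℕ)) : ℝ) = (m : ℝ) * (j : ℝ) + m := by push_cast; rfl
  rw [hc1, hc2] at h2
  rw [hn]
  constructor
  · exact mul_le_mul h1.1 h2.1 (Real.exp_pos _).le (by positivity)
  · refine (mul_le_mul h1.2 h2.2 (by positivity) (Real.exp_pos _).le).trans ?_
    rw [← Real.exp_add, ← Real.exp_add, ← Real.exp_add]
    apply Real.exp_le_exp.2
    have h3 : (m : ℝ) / p.h ≤ 1 / hc := by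
      rw [div_le_div_iff₀ hh hc0]
      rw [le_div_iff₀ hc0] at hmh
      linarith
    have h4 : (((i + 1 : ℕ)) : ℝ) / hc = i / hc + 1 / hc := by
      push_cast
      ring
    have h5 : ((m : ℝ) * (j : ℝ) + m) / p.h = (m : ℝ) * (j : ℝ) / p.h + (m : ℝ) / p.h := by
      ring
    have h6 : (3 : ℝ) / hc = 1 / hc + 1 / hc + 1 / hc := by ring
    have h7 : 0 ≤ 1 / hc := by positivity
    rw [h4, h5, h6]
    linarith

theorem ev_log_le (s r : ℝ) (hr : 0 < r) : ∀ᶠ N : ℝ in atTop, Real.log N ^ s ≤ N ^ r := by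
  have h := (isLittleO_log_rpow_rpow_atTop s hr).bound (show (0 : ℝ) < 1 by norm_num)
  filter_upwards [h, eventually_ge_atTop (1 : ℝ)] with N hN h1
  have h2 : 0 ≤ N ^ r := Real.rpow_nonneg (by linarith) r
  rw [one_mul, Real.norm_eq_abs, Real.norm_eq_abs, abs_of_nonneg h2] at hN
  exact (le_abs_self _).trans hN

/-- all the sizes -/
theorem sizes {ch0 a₀ aF cw ch δ cP cT cB : ℝ} (h1 : 1 ≤ ch0) (h2 : 0 < a₀) (h3 : a₀ + 1 ≤ aF)
    (h5 : 1 ≤ cw) (h7 : ch0 + 1 ≤ ch) (hδ1 : δ ≤ 1 / 100) (h8 : cw + 1 ≤ cP) (h9 : a₀ + 2 ≤ cT)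
    (h10 : 1 ≤ cB) {N T P B : ℝ} (hl : 64 ≤ Real.log N) (hN : 2 * 80000 ^ 2 ≤ N)
    (hw : Real.log N ^ cw ≤ N ^ (1 / 4 : ℝ)) (hb : Box δ cP cT cB N T P B) :
    Siz (par N T P ch cw) ∧ 6 ≤ Real.log N ^ ch0 ∧ 1 ≤ Real.log N ^ ch / Real.log N ^ ch0 ∧
      1 ≤ T / Real.log N ^ a₀ ∧ T / Real.log N ^ a₀ ≤ T ∧
      64 * T ≤ T / Real.log N ^ a₀ * Real.log N ^ aF ∧
      1 ≤ Real.log N ^ aF ∧ 80000 * B ≤ N ∧ 5 * T ≤ B ∧ 64 ≤ B ∧ 64 ≤ T := by
  have hl1 : (1 : ℝ) ≤ Real.log N := by linarith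
  have hl0 : (0 : ℝ) < Real.log N := by linarith
  have hN0 : 0 < N := by linarith
  have hN1 : 1 ≤ N := by linarith
  have mono : ∀ {a b : ℝ}, a ≤ b → Real.log N ^ a ≤ Real.log N ^ b := fun h =>
    Real.rpow_le_rpow_of_exponent_le hl1 h
  have ge64 : ∀ {a : ℝ}, 1 ≤ a → 64 ≤ Real.log N ^ a := fun h => by
    have := mono h
    rw [Real.rpow_one] at this
    linarith
  have step : ∀ {a b : ℝ}, a + 1 ≤ b → 64 * Real.log N ^ a ≤ Real.log N ^ b := fun {a b} h => by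
    have h1 := mono h
    rw [Real.rpow_add hl0, Real.rpow_one] at h1
    have h2 : 0 < Real.log N ^ a := Real.rpow_pos_of_pos hl0 a
    nlinarith
  obtain ⟨b1, b2, b3, b4, b7, b8⟩ := hb
  have hP := (ge64 (show 1 ≤ cP by linarith)).trans b1
  have hP0 : 0 < P := by linarith
  have hLT := ge64 (show 1 ≤ cT by linarith)
  have hPT : 64 * P ≤ T := by
    refine le_trans ?_ b3
    rw [mul_comm]
    exact mul_le_mul_of_nonneg_left hLT hP0.le
  have hT64 : 64 ≤ T := by linarith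
  have hT0 : 0 < T := by linarith
  have hwP := (step h8).trans b1
  have hw2 := ge64 h5
  have hLB := ge64 h10
  have hTB : 64 * T ≤ B := by
    refine le_trans ?_ b7
    have e1 : T * 64 ≤ T * P := mul_le_mul_of_nonneg_left hP hT0.le
    have e2 : T * P * 1 ≤ T * P * Real.log N ^ cB :=
      mul_le_mul_of_nonneg_left (by linarith) (by positivity)
    linarith
  have hBpos : 0 < B := by linarith
  have h80 : 80000 * B ≤ N := by
    by_contra hcon
    rw [not_le] at hcon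
    nlinarith
  have hs : (100 : ℝ) ≤ N ^ (1 / 4 : ℝ) := by
    have h1 : (100 : ℝ) = ((100 : ℝ) ^ (4 : ℕ)) ^ (1 / 4 : ℝ) := by
      rw [← Real.rpow_natCast, ← Real.rpow_mul (by norm_num)]
      norm_num
    rw [h1]
    apply Real.rpow_le_rpow (by norm_num) _ (by norm_num)
    norm_num
    linarith
  have hT2 : 100 * T ^ 2 ≤ N := by
    have e1 : T ≤ N ^ (1 / 100 : ℝ) := b4.trans (Real.rpow_le_rpow_of_exponent_le hN1 hδ1)
    have e2 : T ^ 2 ≤ (N ^ (1 / 100 : ℝ)) ^ 2 := pow_le_pow_left₀ hT0.le e1 2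
    have e3 : (N ^ (1 / 100 : ℝ)) ^ 2 = N ^ (1 / 50 : ℝ) := by
      rw [← Real.rpow_natCast, ← Real.rpow_mul hN0.le]
      norm_num
    have e4 : N ^ (1 / 50 : ℝ) * N ^ (1 / 4 : ℝ) = N ^ (27 / 100 : ℝ) := by
      rw [← Real.rpow_add hN0]
      norm_num
    have e5 : N ^ (27 / 100 : ℝ) ≤ N ^ (1 : ℝ) :=
      Real.rpow_le_rpow_of_exponent_le hN1 (by norm_num)
    have e6 : T ^ 2 * 100 ≤ N ^ (1 / 50 : ℝ) * N ^ (1 / 4 : ℝ) := by
      rw [← e3]
      exact mul_le_mul e2 hs (by norm_num) (by positivity)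
    rw [e4] at e6
    rw [Real.rpow_one] at e5
    linarith
  have hla : 0 < Real.log N ^ a₀ := Real.rpow_pos_of_pos hl0 _
  have hla1 : 1 ≤ Real.log N ^ a₀ := Real.one_le_rpow hl1 h2.le
  have hTa : Real.log N ^ a₀ ≤ T := by
    have e1 := mono (show a₀ ≤ cT by linarith)
    have e2 : 1 * Real.log N ^ cT ≤ P * Real.log N ^ cT :=
      mul_le_mul_of_nonneg_right (by linarith) (by linarith)
    linarith
  have hwN : Real.log N ^ cw < N := by
    have e4 : N ^ (1 / 4 : ℝ) < N ^ (1 : ℝ) :=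
      Real.rpow_lt_rpow_of_exponent_lt (by linarith) (by norm_num)
    rw [Real.rpow_one] at e4
    linarith
  refine ⟨⟨?_, ?_, ?_, ?_, ?_, ?_, ?_, ?_⟩, ?_, ?_, ?_, ?_, ?_, ?_, h80, ?_, ?_, hT64⟩
  · show 100 ≤ N
    linarith
  · show 1 ≤ Real.log N ^ ch
    have := ge64 (show 1 ≤ ch by linarith)
    linarith
  · show 2 ≤ Real.log N ^ cw
    linarith
  · show 2 ≤ P
    linarith
  · show Real.log N ^ cw < P
    linarith
  · show 64 * P ≤ T
    exact hPT
  · show Real.log N ^ cw < N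
    exact hwN
  · show 100 * T ^ 2 ≤ N
    exact hT2
  · have := ge64 h1
    linarith
  · rw [le_div_iff₀ (Real.rpow_pos_of_pos hl0 _), one_mul]
    exact mono (by linarith)
  · rw [le_div_iff₀ hla, one_mul]
    exact hTa
  · exact div_le_self hT0.le hla1
  · have e1 := step h3
    rw [div_mul_eq_mul_div, le_div_iff₀ hla]
    have e2 := mul_le_mul_of_nonneg_left e1 hT0.le
    linarith
  · have := ge64 (show 1 ≤ aF by linarith)
    linarith
  · linarith
  · linarith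

theorem ar1 {N T : ℝ} (hN : 0 < N) (hT : 64 ≤ T) : 2 * 2 * (N / T) ≤ 2 * N * T := by
  have hT0 : 0 < T := by linarith
  rw [← mul_div_assoc, div_le_iff₀ hT0]
  have h1 : (2 : ℝ) ≤ T * T := by nlinarith
  nlinarith [mul_le_mul_of_nonneg_left h1 hN.le]

theorem ar2 {N T T1 : ℝ} (hN : 0 < N) (hT : 64 ≤ T) (h : 4 * T ≤ T1) :
    8 * (2 * N * T) ≤ T1 ^ 2 * (N / T) := by
  have hT0 : 0 < T := by linarith
  rw [← mul_div_assoc, le_div_iff₀ hT0]
  have : (4 * T) ^ 2 ≤ T1 ^ 2 := pow_le_pow_left₀ (by linarith) h 2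
  nlinarith [mul_le_mul_of_nonneg_left this hN.le]

theorem ar3 {N T T1 : ℝ} (hN : 0 < N) (hT : 64 ≤ T) (h0 : 0 ≤ T1) (h : T1 ≤ 5 * T) :
    T1 ^ 2 * (N / T) ≤ 16 * (2 * N * T) := by
  have hT0 : 0 < T := by linarith
  rw [← mul_div_assoc, div_le_iff₀ hT0]
  have : T1 ^ 2 ≤ (5 * T) ^ 2 := pow_le_pow_left₀ h0 h 2
  nlinarith [mul_le_mul_of_nonneg_left this hN.le, mul_pos hN (mul_pos hT0 hT0)]

theorem ar4 {N T T1 B : ℝ} (hT : 0 < T) (hB : 0 < B) (h : T1 ≤ 5 * T) (h2 : 80000 * B ≤ N) :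
    32 * 1000 * T1 * B ≤ 2 * N * T := by
  have ha : 32 * 1000 * T1 * B ≤ 32 * 1000 * (5 * T) * B := by gcongr
  have hb : 32 * 1000 * (5 * T) * B = 2 * (80000 * B) * T := by ring
  rw [hb] at ha
  refine ha.trans ?_
  gcongr

theorem ar5 {N T X Y B T0 K : ℝ} (hN : 0 < N) (hT : 0 < T) (hB : 0 < B) (hX : 0 ≤ X) (hY : 0 ≤ Y)
    (h0 : X / 2 ≤ T0) (h1 : Y * (N / B) / 2 ≤ K) (h2 : 64 * T ≤ X * Y) :
    Real.pi * (2 * N * T) ≤ 8 * T0 * B * K := by
  have hb : 8 * (X / 2) * B * (Y * (N / B) / 2) = 2 * (X * Y) * N := by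
    field_simp
    ring
  have hNB : 0 ≤ N / B := by positivity
  have hc : 8 * (X / 2) * B * (Y * (N / B) / 2) ≤ 8 * T0 * B * K := by
    have : 0 ≤ T0 := le_trans (by positivity) h0
    gcongr
  refine le_trans ?_ hc
  rw [hb]
  have h3 : Real.pi ≤ 4 := Real.pi_le_four
  have h5 : 0 < N * T := by positivity
  have h6 : N * (64 * T) ≤ N * (X * Y) := by gcongr
  nlinarith

theorem ar6 {N T P : ℝ} (hN : 1 ≤ N) (hP : 2 ≤ P) (hT : 64 * P ≤ T) :
    1 ≤ 2 * N * T / P ∧ 2 * N * T / P ≤ 2 * N * T ∧ 2 * P ≤ 2 * N * T := by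
  have hP0 : 0 < P := by linarith
  have hT0 : 0 < T := by linarith
  have h1 : T ≤ N * T := by nlinarith
  refine ⟨?_, ?_, ?_⟩
  · rw [le_div_iff₀ hP0]
    linarith
  · rw [div_le_iff₀ hP0]
    have : 0 < 2 * N * T := by positivity
    nlinarith
  · linarith

theorem ar7 {N B F : ℝ} (hB : 1 ≤ B) (hN : 0 < N) (_hF0 : 0 ≤ F) (hF : F ≤ N) : F * (N / B) ≤ N ^ 2 := by
  have hNB2 : N / B ≤ N := div_le_self hN.le hB
  have h0 : 0 ≤ N / B := by positivity
  calc F * (N / B) ≤ N * N := by gcongr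
    _ = N ^ 2 := by ring

theorem sum_cell {hc P Q : ℝ} (hQ : 0 ≤ Q) (I : Finset ℕ) :
    ∑ i ∈ I, ((cell hc P Q i).card : ℝ) ≤ 9 * Q := by
  classical
  have h1 : (I.biUnion (fun i => cell hc P Q i)).card = ∑ i ∈ I, (cell hc P Q i).card := by
    apply card_biUnion
    intro i _ i' _ hne
    show Disjoint (cell hc P Q i) (cell hc P Q i')
    rw [Finset.disjoint_left]
    intro π h1 h2
    rw [mem_cell] at h1 h2
    exact hne (h1.2.symm.trans h2.2)
  have h2 : (I.biUnion (fun i => cell hc P Q i)) ⊆ GP P Q := by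
    intro π hπ
    rw [mem_biUnion] at hπ
    obtain ⟨i, _, h⟩ := hπ
    exact (mem_cell.1 h).1
  have h3 := MR.Mom.card_GP_le (P := P) hQ
  have h4 : ∑ i ∈ I, ((cell hc P Q i).card : ℝ) = ((∑ i ∈ I, (cell hc P Q i).card : ℕ) : ℝ) := by
    push_cast
    rfl
  rw [h4, ← h1]
  exact (Nat.cast_le.2 (card_le_card h2)).trans h3

/-- the mean square -/
theorem meanG {l N T P S1 S2 : ℝ} (hl : 64 ≤ l) (hN : 0 < N) (hT : 0 < T) (hP : 0 < P)
    (h0 : 0 ≤ S2) (h1 : S1 ≤ 9 * (2 * P)) (h2 : S2 ≤ l * (N * T / P)) :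
    S1 * S2 ≤ l ^ (2 : ℝ) * (2 * N * T) := by
  have e1 : S1 * S2 ≤ 9 * (2 * P) * (l * (N * T / P)) :=
    mul_le_mul h1 h2 h0 (by positivity)
  have e2 : 9 * (2 * P) * (l * (N * T / P)) = 9 * l * (2 * N * T) := by
    field_simp
  have e3 : l ^ (2 : ℝ) = l * l := by
    rw [show (2 : ℝ) = ((2 : ℕ) : ℝ) by norm_num, Real.rpow_natCast]
    ring
  rw [e2] at e1
  refine e1.trans ?_
  rw [e3]
  apply mul_le_mul_of_nonneg_right _ (by positivity)
  nlinarith

end PRCM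

open PRCM in
theorem specPRC (hHJS : SpecHJS) (hSUP : SpecSUP) (hL2B : SpecL2B) : SpecPRC := by
  intro ch0 a₀ aF aU aQ cw h1 h2 h3 h4 h5 h6 h66 ch h7 δ cP cT cB hδ0 hδ1 h8 h9 h10
  have hsup := hSUP ch cw aQ aU (by linarith) h4 h5 h6 h66 δ cP cT cB hδ0 hδ1 (by linarith) h8
    (by linarith) h10
  have hl2b := hL2B ch cw aQ aU (by linarith) h4 h5 h6 h66 δ cP cT cB hδ0 hδ1 (by linarith) h8
    (by linarith) h10
  filter_upwards [hsup, hl2b, Real.tendsto_log_atTop.eventually_ge_atTop 64,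
    eventually_ge_atTop (2 * 80000 ^ 2 : ℝ), ev_log_le cw (1 / 4) (by norm_num),
    ev_log_le aF 1 one_pos] with N hs hg hl hN hw8 hF1 T P B hb U hU
  obtain ⟨S, c6, cm, c1, cle, c64, cF1, c80, c5, cB64, cT64⟩ :=
    sizes h1 h2 h3 h5 h7 hδ1 h8 (show a₀ + 2 ≤ cT by linarith) h10 hl hN hw8 hb
  have hN0 : 0 < N := by linarith
  have hT0 : 0 < T := by linarith
  have hP2 : 2 ≤ P := S.P
  have hPT : 64 * P ≤ T := S.T
  have hwP : Real.log N ^ cw < P := S.wP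
  have hw2 : 2 ≤ Real.log N ^ cw := S.w
  have hP0 : 0 < P := by linarith
  have hB0 : 0 < B := by linarith
  have hl0 : 0 < Real.log N := by linarith
  obtain ⟨m, hm⟩ : ∃ m : ℕ, m = ⌊Real.log N ^ ch / Real.log N ^ ch0⌋₊ := ⟨_, rfl⟩
  have hm1 : 1 ≤ m := by
    rw [hm]
    exact (half_floor cm).2
  have hmh : (m : ℝ) ≤ Real.log N ^ ch / Real.log N ^ ch0 := by
    rw [hm]
    exact Nat.floor_le (by linarith)
  obtain ⟨f1, f2⟩ := half_floor c1
  have hNB : 1 ≤ N / B := by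
    rw [le_div_iff₀ hB0]
    linarith
  have hY1 : 1 ≤ Real.log N ^ aF * (N / B) := one_le_mul_of_one_le_of_one_le cF1 hNB
  obtain ⟨g1, g2⟩ := half_floor hY1
  have t1 : (4 * T) ≤ (⌈4 * T⌉₊ : ℝ) := Nat.le_ceil _
  have t2 : (⌈4 * T⌉₊ : ℝ) ≤ 5 * T := by
    have := Nat.ceil_lt_add_one (show 0 ≤ 4 * T by linarith)
    linarith
  have hK : (par N T P ch cw).K = N / T := rfl
  have hMM : MM' (par N T P ch cw) = 2 * N * T / P := rfl
  obtain ⟨a1, a2, a3⟩ := ar6 (show 1 ≤ N by linarith) hP2 hPT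
  have hh := hHJS (par N T P ch cw) U m S hm1
  rw [Real.rpow_one] at hF1
  have hFN : Real.log N ^ aF * (N / B) ≤ N ^ 2 := ar7 (by linarith) hN0 (by linarith) hF1
  have hHH : ∀ z : Gi, XV3.HH (JJ (par N T P ch cw) m) (SJ (par N T P ch cw) m)
      (HJ (par N T P ch cw) U m) z ≤
      ∑ v ∈ I2 (par N T P ch cw), ‖eta (par N T P ch cw) v z - kap (par N T P ch cw) U v z‖ := by
    intro z
    refine le_trans ?_ (hh.2.2.1 z)
    unfold XV3.HH
    apply sum_le_sum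
    intro j _
    split_ifs
    · exact le_rfl
    · exact norm_nonneg _
  have hHH0 : ∀ z : Gi, 0 ≤ XV3.HH (JJ (par N T P ch cw) m) (SJ (par N T P ch cw) m)
      (HJ (par N T P ch cw) U m) z := by
    intro z
    unfold XV3.HH
    apply sum_nonneg
    intro j _
    split_ifs
    · exact norm_nonneg _
    · exact le_rfl
  rw [← hm]
  refine ⟨?_, by positivity, ?_⟩
  · refine
      { hκ := by norm_num
        hρ := by norm_num
        hK := ?_
        hB := by linarith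
        hTB := t2.trans c5
        hKY := ?_
        hT1 := ?_
        hT1' := ?_
        hBY := ?_
        hT0 := f2
        hT01 := ?_
        hKm := g2
        hKm' := ?_
        hη := by positivity
        hη' := ?_
        hw := hw2
        hF := by positivity
        hM := ?_
        hMY := ?_
        hP := ?_
        hPw := ?_
        hPd := ?_
        hS := ?_
        hSw := ?_
        hL := ?_
        hL' := ?_
        hh := ?_ }
    · rw [hK, le_div_iff₀ hT0]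
      have hTN : 100 * T ^ 2 ≤ N := S.TN
      nlinarith
    · rw [hK]
      exact ar1 hN0 cT64
    · rw [hK]
      exact ar2 hN0 cT64 t1
    · rw [hK]
      exact ar3 hN0 cT64 (by positivity) t2
    · exact ar4 hT0 hB0 t2 c80
    · have ha : ((⌊T / Real.log N ^ a₀⌋₊ : ℕ) : ℝ) ≤ (⌈4 * T⌉₊ : ℝ) := by
        have := Nat.floor_le (show 0 ≤ T / Real.log N ^ a₀ by linarith)
        linarith
      exact_mod_cast ha
    · exact ar5 hN0 hT0 hB0 (by linarith) (by linarith) f1 g1 c64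
    · rw [div_le_iff₀ (by linarith)]
      linarith
    · rw [hMM]
      exact a1
    · rw [hMM]
      exact a2
    · intro i hi π hπ
      rw [mem_cell] at hπ
      exact GP_sub hP0.le a3 hπ.1
    · intro i hi π hπ
      rw [mem_cell] at hπ
      exact hwP.le.trans (mem_GP' hπ.1).2.2.le
    · intro i _ i' _ hne
      rw [Finset.disjoint_left]
      intro π h1 h2
      rw [mem_cell] at h1 h2
      exact hne (h1.2.symm.trans h2.2)
    · intro j _ z hz
      exact (mem_SJ.1 hz).1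
    · intro j _ z hz π hπ hd
      exact ((mem_SJ.1 hz).2.1 π hπ hd).le
    · intro i hi j hj
      exact cells S c6 hm1 hmh hi hj
    · intro i hi j hj π hπ z hz
      exact cellL S c6 hm1 hmh hπ hz
    · intro z
      refine (hHH z).trans (le_trans ?_ (hs T P B hb _ U hFN hU z))
      exact sum_le_sum fun v _ => norm_sub_le _ _
  · refine meanG hl hN0 hT0 hP0 (sum_nonneg fun z _ => sq_nonneg _)
      (sum_cell (by positivity) _) ?_
    refine le_trans ?_ (hg T P B hb _ U hFN hU)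
    exact sum_le_sum fun z _ => pow_le_pow_left₀ (hHH0 z) (hHH z) 2

end Pool.Agent.Lib.MP391708.X3U
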