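import Pool.Agent.Lib.MP_391708_nt.X3.U.FINB
import Pool.Agent.Lib.MP_391708_nt.X3.U.PRC
import Pool.Agent.Lib.MP_391708_nt.XP.U.FIN

/-!
# THEOREM X3 (MP_391708), part U, module FIN: `X3.SpecVAR`
-/

set_option autoImplicit false

namespace Pool.Agent.Lib.MP391708.X3U

open Finset Filter Topology Pool.Agent.Lib.MP391708.MR
open Pool.Agent.Lib.MP391708.X (ChiG hk Dist Fam rgh Ix psi ix1 UOK lc On)
open Pool.Agent.Lib.MP391708.X3 (Par par Box RR S2 I2 eta kap Eta Kap Var cl Big)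
open Pool.Agent.Lib.MP391708.XV (md chs ph hat atyp)
open Pool.Agent.Lib.MP391708.XU (fn ixq GG Eqv SpecBRG SpecCON SpecNCD)
open Pool.Agent.Lib.MP391708.XPU (SpecRGS SpecATY)
open Pool.Agent.Lib.MP391708.XPU.FINM (card_VV card_img hat_P phi_bound sum_t ev_pow nats mem_IK_le)
open scoped ComplexConjugate

namespace FINM

/-- the second part: the sum over all `t` -/
theorem second (hPHI : XV.SpecPHI) (hB : SpecBRG) {p : Par} {U : Finset Ix} {m Km T0 T1 : ℕ}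
    {P₀ hc τ L bE bU x b2 S EE N A₃ A₁ nU : ℝ} {E : (t : ℕ) → Finset (MulChar (Cls.RR (md t)) ℂ × ℤ)}
    (hP₀ : 0 ≤ P₀) (hT0 : 1 ≤ T0) (hlog : 1 + 2 * Real.log T1 ≤ L)
    (hbE : 0 ≤ bE) (hbU : 0 ≤ bU) (hb2 : 0 ≤ b2) (hS0 : 0 ≤ S)
    (hinv : ∀ j z, HJ p U m j (⟨0, 1⟩ * z) = HJ p U m j z)
    (hEb : ∀ t, 1 ≤ t → ∀ j ∈ JJ p m, ∀ q : MulChar (Cls.RR (md t)) ℂ × ℤ,
      ‖∑ z ∈ SJ p m j, HJ p U m j z * psi (ixq t q) z‖ ≤ bE)
    (hE : ∀ t, 1 ≤ t → t ≤ T1 → ∀ q : MulChar (Cls.RR (md t)) ℂ × ℤ, q.1 ∈ chs t → q.2 ∈ IK Km →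
      psi (ixq t q) ⟨0, 1⟩ = 1 →
      q ∈ E t ∨ (∃ u ∈ U, q.2 = u.2.2 ∧ ∀ z, fn t q.1 z ≠ 0 → u.2.1 z = fn t q.1 z) ∨
        ((∀ u ∈ U, Dist (fn t q.1) u.2.1 q.2 u.2.2) ∧ Dist (fn t q.1) ix1.2.1 q.2 ix1.2.2 ∧
          ¬ Big N (Real.log N ^ A₃) A₁ (ixq t q)))
    (hTA : ∀ t, 1 ≤ t → t ≤ T1 → ∀ q : MulChar (Cls.RR (md t)) ℂ × ℤ, ∀ j,
      (∃ u ∈ U, q.2 = u.2.2 ∧ ∀ z, fn t q.1 z ≠ 0 → u.2.1 z = fn t q.1 z) →
      ‖∑ z ∈ SJ p m j, HJ p U m j z * psi (ixq t q) z‖ ≤ bU)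
    (hTS : ∀ t, 1 ≤ t → t ≤ T1 → ∀ q : MulChar (Cls.RR (md t)) ℂ × ℤ, q.2 ∈ IK Km → ∀ j,
      psi (ixq t q) ⟨0, 1⟩ = 1 → (∀ u ∈ U, Dist (fn t q.1) u.2.1 q.2 u.2.2) →
      ‖∑ z ∈ SJ p m j, HJ p U m j z * psi (ixq t q) z‖ ≤ 4 * ‖G2 p m (ixq t q) j‖ + x)
    (hV2 : ∀ t, 1 ≤ t → t ≤ T1 → ∀ (W : Finset (MulChar (Cls.RR (md t)) ℂ × ℤ)) (j : ℕ),
      (∀ q ∈ W, q.2 ∈ IK Km) → (W.card : ℝ) ≤ S →
      (∀ q ∈ W, psi (ixq t q) ⟨0, 1⟩ = 1 ∧ Dist (fn t q.1) ix1.2.1 q.2 ix1.2.2 ∧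
        ¬ Big N (Real.log N ^ A₃) A₁ (ixq t q)) → ∑ q ∈ W, ‖G2 p m (ixq t q) j‖ ^ 2 ≤ b2)
    (hat' : ∀ t, 2 ≤ t → t ≤ T1 → ∀ i, ((atyp t Km τ (cell hc P₀ (2 * P₀) i)).card : ℝ) ≤ S)
    (hU : (U.card : ℝ) ≤ nU)
    (hEE : ∑ t ∈ Icc 1 T1, ((E t).card : ℝ) / t ≤ EE) :
    ∑ t ∈ Ioc T0 T1, ((t : ℝ) / ph t) *
      ∑ i ∈ VV hc P₀ (2 * P₀), ∑ j ∈ JJ p m, ∑ q ∈ atyp t Km τ (cell hc P₀ (2 * P₀) i),
        ‖hat t q.1 q.2 (cell hc P₀ (2 * P₀) i) (fun _ => 1)‖ ^ 2 *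
          ‖hat t q.1 q.2 (SJ p m j) (HJ p U m j)‖ ^ 2 ≤
    (((VV hc P₀ (2 * P₀)).card : ℝ) * (JJ p m).card) * L ^ 2 *
      (((18 * P₀) ^ 2 * bE ^ 2) * EE +
       ((18 * P₀) ^ 2 * (nU * bU ^ 2 + 32 * b2 + 2 * S * x ^ 2)) * L) := by
  have hnU : 0 ≤ nU := (Nat.cast_nonneg _).trans hU
  have hlogT : 0 ≤ Real.log (T1 : ℝ) := by
    rcases Nat.eq_zero_or_pos T1 with h | h
    · rw [h]; simp
    · exact Real.log_nonneg (by exact_mod_cast h)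
  refine sum_t (T0 := T0) (T1 := T1) (r := fun t => (t : ℝ) / ph t)
    (e := fun t => ((E t).card : ℝ)) (by positivity)
    (by positivity) (by positivity) (fun t => Nat.cast_nonneg _) ?_ ?_ hEE (by linarith)
  · intro t ht
    rw [mem_Ioc] at ht
    refine ⟨by positivity, phi_bound hPHI (by omega) ?_⟩
    have h1 : Real.log t ≤ Real.log T1 :=
      Real.log_le_log (by exact_mod_cast (show 0 < t by omega)) (by exact_mod_cast ht.2)
    linarith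
  · intro t ht
    rw [mem_Ioc] at ht
    have ht1 : 1 ≤ t := by omega
    have ht2 : 2 ≤ t := by omega
    have key : ∀ i ∈ VV hc P₀ (2 * P₀), ∀ j ∈ JJ p m,
        ∑ q ∈ atyp t Km τ (cell hc P₀ (2 * P₀) i),
          ‖hat t q.1 q.2 (cell hc P₀ (2 * P₀) i) (fun _ => 1)‖ ^ 2 *
            ‖hat t q.1 q.2 (SJ p m j) (HJ p U m j)‖ ^ 2 ≤
        (18 * P₀) ^ 2 * bE ^ 2 * ((E t).card : ℝ) +
          (18 * P₀) ^ 2 * (nU * bU ^ 2 + 32 * b2 + 2 * S * x ^ 2) := by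
      intro i _ j hj
      have hmem : ∀ q ∈ atyp t Km τ (cell hc P₀ (2 * P₀) i), q.1 ∈ chs t ∧ q.2 ∈ IK Km := by
        intro q hq
        unfold atyp at hq
        rw [mem_filter, mem_product] at hq
        exact hq.1
      have hone := FINBM.one_t ht1 hB p U m j (atyp t Km τ (cell hc P₀ (2 * P₀) i)) (E t) bE bU x b2 S
        N A₃ A₁ (fun q hq h => hE t ht1 ht.2 q (hmem q hq).1 (hmem q hq).2 h) (hinv j)
        (fun q => hEb t ht1 j hj q) (fun q _ h => hTA t ht1 ht.2 q j h)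
        (fun q hq h1 h2 => hTS t ht1 ht.2 q (hmem q hq).2 j h1 h2)
        (fun W hW hW2 => hV2 t ht1 ht.2 W j (fun q hq => (hmem q (hW hq)).2)
          (le_trans (by exact_mod_cast card_le_card hW) (hat' t ht2 ht.2 i)) hW2)
        (hat' t ht2 ht.2 i)
      have h1 : ∑ q ∈ atyp t Km τ (cell hc P₀ (2 * P₀) i),
          ‖hat t q.1 q.2 (cell hc P₀ (2 * P₀) i) (fun _ => 1)‖ ^ 2 *
            ‖hat t q.1 q.2 (SJ p m j) (HJ p U m j)‖ ^ 2 ≤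
          ∑ q ∈ atyp t Km τ (cell hc P₀ (2 * P₀) i), (18 * P₀) ^ 2 *
            ‖∑ z ∈ SJ p m j, HJ p U m j z * psi (ixq t q) z‖ ^ 2 := by
        refine sum_le_sum fun q _ => ?_
        have e1 : hat t q.1 q.2 (SJ p m j) (HJ p U m j) =
            ∑ z ∈ SJ p m j, HJ p U m j z * psi (ixq t q) z := hB.2.1 t q.1 q.2 _ _
        rw [e1]
        refine mul_le_mul_of_nonneg_right ?_ (by positivity)
        exact pow_le_pow_left₀ (norm_nonneg _) (hat_P hB ht1 hP₀ (filter_subset _ _) q) 2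
      refine h1.trans ?_
      rw [← mul_sum]
      have h2 : ((U.card : ℝ) * bU ^ 2 + 32 * b2 + 2 * S * x ^ 2) ≤ nU * bU ^ 2 + 32 * b2 + 2 * S * x ^ 2 := by
        have := mul_le_mul_of_nonneg_right hU (show 0 ≤ bU ^ 2 by positivity)
        linarith
      have h3 : ∑ q ∈ atyp t Km τ (cell hc P₀ (2 * P₀) i),
          ‖∑ z ∈ SJ p m j, HJ p U m j z * psi (ixq t q) z‖ ^ 2 ≤
          ((E t).card : ℝ) * bE ^ 2 + (nU * bU ^ 2 + 32 * b2 + 2 * S * x ^ 2) := by linarith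
      calc _ ≤ (18 * P₀) ^ 2 * (((E t).card : ℝ) * bE ^ 2 + (nU * bU ^ 2 + 32 * b2 + 2 * S * x ^ 2)) :=
            mul_le_mul_of_nonneg_left h3 (by positivity)
        _ = _ := by ring
    calc _ ≤ ∑ i ∈ VV hc P₀ (2 * P₀), ∑ j ∈ JJ p m, ((18 * P₀) ^ 2 * bE ^ 2 * ((E t).card : ℝ) +
          (18 * P₀) ^ 2 * (nU * bU ^ 2 + 32 * b2 + 2 * S * x ^ 2)) :=
          sum_le_sum fun i hi => sum_le_sum fun j hj => key i hi j hj
      _ = _ := by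
          rw [sum_const, sum_const, nsmul_eq_mul, nsmul_eq_mul]
          ring

/-- the common saving exponent -/
theorem exi_c {c1 c2 c3 c4 : ℝ} (h1 : 0 < c1) (h2 : 0 < c2) (h3 : 0 < c3) (h4 : 0 < c4) :
    ∃ c : ℝ, 0 < c ∧ 4 * c ≤ c1 ∧ 4 * c ≤ c2 ∧ 4 * c ≤ c3 ∧ 4 * c ≤ c4 ∧ 4 * c ≤ 1 / 25 := by
  refine ⟨min (min c1 c2) (min (min c3 c4) (1 / 25)) / 4, by positivity, ?_, ?_, ?_, ?_, ?_⟩
  all_goals
    have g1 := min_le_left (min c1 c2) (min (min c3 c4) (1 / 25))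
    have g2 := min_le_right (min c1 c2) (min (min c3 c4) (1 / 25))
    have g3 := min_le_left c1 c2
    have g4 := min_le_right c1 c2
    have g5 := min_le_left (min c3 c4) (1 / 25 : ℝ)
    have g6 := min_le_right (min c3 c4) (1 / 25 : ℝ)
    have g7 := min_le_left c3 c4
    have g8 := min_le_right c3 c4
    linarith

theorem hx_bound {L N P c cP R : ℝ} (hL : 1 ≤ L) (hN : 1 ≤ N) (hP0 : 0 ≤ P) (hP : P ≤ L ^ (2 * cP))
    (h : L ^ (4 * cP + R) ≤ N ^ (7 * c)) :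
    P ^ 2 * N ^ c * (N ^ (1 - 4 * c)) ^ 2 ≤ L ^ (-R) * N ^ 2 := by
  have hL0 : 0 < L := by linarith
  have hN0 : 0 < N := by linarith
  have h1 : P ^ 2 ≤ L ^ (4 * cP) := by
    calc P ^ 2 ≤ (L ^ (2 * cP)) ^ 2 := pow_le_pow_left₀ hP0 hP 2
      _ = L ^ (4 * cP) := by rw [FINAM.sq_pow hL0]; ring_nf
  have h2 : N ^ c * (N ^ (1 - 4 * c)) ^ 2 = N ^ 2 * N ^ (-(7 * c)) := by
    rw [FINAM.sq_pow hN0, FINAM.madd hN0]
    have : N ^ 2 = N ^ (2 : ℝ) := by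
      rw [show (2 : ℝ) = ((2 : ℕ) : ℝ) by norm_num, Real.rpow_natCast]
    rw [this, FINAM.madd hN0]
    congr 1
    ring
  have h3 : L ^ (4 * cP) * N ^ (-(7 * c)) ≤ L ^ (-R) := by
    rw [Real.rpow_neg hN0.le, ← div_eq_mul_inv, div_le_iff₀ (Real.rpow_pos_of_pos hN0 _)]
    calc L ^ (4 * cP) = L ^ (-R) * L ^ (4 * cP + R) := by
          rw [FINAM.madd hL0]
          ring_nf
      _ ≤ L ^ (-R) * N ^ (7 * c) := mul_le_mul_of_nonneg_left h (Real.rpow_pos_of_pos hL0 _).le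
  calc P ^ 2 * N ^ c * (N ^ (1 - 4 * c)) ^ 2 = P ^ 2 * (N ^ c * (N ^ (1 - 4 * c)) ^ 2) := by ring
    _ = P ^ 2 * (N ^ 2 * N ^ (-(7 * c))) := by rw [h2]
    _ ≤ L ^ (4 * cP) * (N ^ 2 * N ^ (-(7 * c))) :=
        mul_le_mul_of_nonneg_right h1 (by have := Real.rpow_pos_of_pos hN0 (-(7 * c)); positivity)
    _ = (L ^ (4 * cP) * N ^ (-(7 * c))) * N ^ 2 := by ring
    _ ≤ L ^ (-R) * N ^ 2 := mul_le_mul_of_nonneg_right h3 (by positivity)

end FINM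

open FINM in
theorem specFIN : SpecFIN := by
  intro hVAR hPHI hBRG hATY hHJS hSUP hHTS hHTA hPRC hLNS hUSET hVB2 A hA
  obtain ⟨C, hC, hV⟩ := hVAR 2 1000 (by norm_num) (by norm_num)
  obtain ⟨cU, hcU, hUS⟩ := hUSET
  obtain ⟨cV, hcV, hVB⟩ := hVB2
  obtain ⟨a0, ha0⟩ : ∃ x : ℝ, x = A + 12 := ⟨_, rfl⟩
  obtain ⟨ch0, hch0⟩ : ∃ x : ℝ, x = A + 2 * a0 + 14 := ⟨_, rfl⟩
  obtain ⟨nI, hnI⟩ : ∃ x : ℝ, x = 2 * ch0 + 1 := ⟨_, rfl⟩
  obtain ⟨A4, hA4⟩ : ∃ x : ℝ, x = A + 2 * nI + 20 := ⟨_, rfl⟩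
  obtain ⟨A3, A1, hA3, hA1, hVB⟩ := hVB A4 (by linarith only [hA, ha0, hch0, hnI, hA4])
  obtain ⟨aU, haU⟩ : ∃ x : ℝ, x = 2 * A1 + A3 + 3 := ⟨_, rfl⟩
  obtain ⟨aF, haF⟩ : ∃ x : ℝ, x = A + 2 * nI + a0 + 2 * aU + 30 := ⟨_, rfl⟩
  obtain ⟨aQ, haQ⟩ : ∃ x : ℝ, x = A + 3 * aU + 2 * nI + 40 := ⟨_, rfl⟩
  obtain ⟨cw, hcw⟩ : ∃ x : ℝ, x = 2 * aQ + A + 3 * aU + 2 * nI + 40 := ⟨_, rfl⟩
  have q1 : 1 ≤ cw := by linarith only [hA, ha0, hch0, hnI, haU, haQ, hcw, hA1, hA3]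
  have q2 : 2 * aQ ≤ cw := by linarith only [hA, ha0, hch0, hnI, haU, haQ, hcw, hA1, hA3]
  have q3 : 1 ≤ aU := by linarith only [haU, hA1, hA3]
  have q4 : 1 ≤ aQ := by linarith only [hA, ha0, hch0, hnI, haU, haQ, hA1, hA3]
  have q5 : 1 ≤ aF := by linarith only [hA, ha0, hch0, hnI, haU, haF, hA1, hA3]
  have q6 : 1 ≤ ch0 := by linarith only [hA, ha0, hch0]
  have q7 : 1 ≤ a0 := by linarith only [hA, ha0]
  have q8 : a0 + 1 ≤ aF := by linarith only [hA, ha0, hch0, hnI, haU, haF, hA1, hA3]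
  have q9 : 0 ≤ nI := by linarith only [hnI, q6]
  obtain ⟨cS, hcS, _, hTS⟩ := hHTS cw q1
  obtain ⟨cA, hcA, _, hTA⟩ := hHTA cw q1
  obtain ⟨c, hc, hc1, hc2, hc3, hc4, hc5⟩ := exi_c hcU hcV hcS hcA
  refine ⟨cw, aU, aQ, aF, ch0 + 1, q1, q2, q3, q4, q5, by linarith only [q6], c / 2,
    by linarith only [hc], ?_⟩
  intro ch hch δ hδ hδc
  have hch1 : 1 ≤ ch := by linarith only [hch, q6]
  obtain ⟨cPA, hPA⟩ := hATY c hc (by linarith only [hc5])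
  refine ⟨max cPA (max (cw + 1) (4 / c * (A + 2 * nI + 2 * aU + 16))), fun cP hcP => ?_⟩
  have hcP1 : cPA ≤ cP := (le_max_left _ _).trans hcP
  have hcP2 : cw + 1 ≤ cP := (le_max_left _ _).trans ((le_max_right _ _).trans hcP)
  have hcP3 : A + 2 * nI + 2 * aU + 16 ≤ c / 4 * cP := by
    have h1 : 4 / c * (A + 2 * nI + 2 * aU + 16) ≤ cP :=
      (le_max_right _ _).trans ((le_max_right _ _).trans hcP)
    calc A + 2 * nI + 2 * aU + 16 = c / 4 * (4 / c * (A + 2 * nI + 2 * aU + 16)) := by field_simp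
      _ ≤ c / 4 * cP := mul_le_mul_of_nonneg_left h1 (by linarith only [hc])
  have hcP0 : 1 ≤ cP := by linarith only [hcP2, q1]
  refine ⟨A + a0 + aF + 2 * aU + 20, fun cT hcT => ⟨A + 2 * nI + 2 * aU + 2 * a0 + 30, fun cB hcB => ?_⟩⟩
  have hcT0 : 1 ≤ cT := by linarith only [hcT, hA, q7, q5, q3]
  have hcB0 : 1 ≤ cB := by linarith only [hcB, hA, q9, q3, q7]
  have hδ1 : δ ≤ 1 / 100 := by linarith only [hδc, hc5]
  have hδS : δ ≤ cS := by linarith only [hδc, hc3, hc]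
  have hδA : δ ≤ cA := by linarith only [hδc, hc4, hc]
  filter_upwards [hPA cP hcP1,
    hSUP ch cw aQ aU hch1 q2 q1 q4 q3 δ cP cT cB hδ hδ1 hcP0 hcP2 hcT0 hcB0,
    hTS ch aQ aU hch1 q2 q4 δ cP cT cB hδ hδS hcP0 hcP2 hcT0 hcB0,
    hTA ch aQ aU hch1 q2 q4 q3 δ cP cT cB hδ hδA hcP0 hcP2 hcT0 hcB0,
    hPRC ch0 a0 aF aU aQ cw q6 (by linarith only [q7]) q8 q2 q1 q4 q3 ch hch δ cP cT cB hδ hδ1 hcP2
      (by linarith only [hcT, hA, q3]) hcB0,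
    hUS A3 A1 aQ hA3 hA1 q4,
    hVB δ cP cT cB cw ch hδ hδ1 hcP0 hcT0 hcB0 hch1,
    Real.tendsto_log_atTop.eventually_ge_atTop (max (10 ^ 7) C),
    eventually_ge_atTop (2 * 80000 ^ 2 : ℝ),
    ev_pow cw (1 / 4) 1 (by norm_num) one_pos,
    ev_pow (4 * cP + (A + 2 * nI + aU + 20)) (7 * c) 1 (by linarith only [hc]) one_pos,
    ev_pow 1 (c / 2) 1 (by linarith only [hc]) one_pos,
    ev_pow a0 1 1 one_pos one_pos] with
    N gA gSUP gTS gTA gPRC gUS gVB gLC gN gw gp2 gp3 gp4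
  intro T P B hbox
  have gL : (10 : ℝ) ^ 7 ≤ Real.log N := (le_max_left _ _).trans gLC
  have gC : C ≤ Real.log N := (le_max_right _ _).trans gLC
  rw [one_mul] at gw gp2 gp3 gp4
  rw [Real.rpow_one] at gp3 gp4
  obtain ⟨hsiz, s6, sm, s1, sle, s64, sF1, s80, s5, sB64, sT64⟩ :=
    PRCM.sizes q6 (by linarith only [q7]) q8 q1 hch hδ1 hcP2
      (show a0 + 2 ≤ cT by linarith only [hcT, hA, q3, q5]) hcB0 (by linarith only [gL]) gN gw hbox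
  have gSUP' := gSUP T P B hbox
  have gTS' := gTS T P B hbox
  have gTA' := gTA T P B hbox
  have gPRC' := gPRC T P B hbox
  have gVB' := gVB T P B hbox
  clear gSUP gTS gTA gPRC gVB
  have hB1 := hbox.B1
  have hB2 := hbox.B2
  have hPa := hbox.P1
  have hPb := hbox.P2
  have hPT := hbox.T1
  have hTd := hbox.T2
  obtain ⟨L, hL⟩ : ∃ L : ℝ, L = Real.log N := ⟨_, rfl⟩
  rw [← hL] at gL gC gp2 gp3 gp4 gSUP' gTS' gTA' gPRC' gA s6 sm s1 sle s64 sF1 hB1 hPa hPb hPT ⊢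
  have hL0 : 0 < L := by linarith only [gL]
  have hL1 : 1 ≤ L := by linarith only [gL]
  have hN0 : 0 < N := by linarith only [gN]
  have hN1 : 1 ≤ N := by linarith only [gN]
  have hT0 : 0 < T := by linarith only [sT64]
  have hB0 : 0 < B := by linarith only [sB64]
  have hP2 : 2 ≤ P := hsiz.P
  have hP0 : 0 < P := by linarith only [hP2]
  have hpos : ∀ a : ℝ, 0 < L ^ a := fun a => Real.rpow_pos_of_pos hL0 a
  have hone : ∀ a : ℝ, 0 ≤ a → 1 ≤ L ^ a := fun a h => Real.one_le_rpow hL1 h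
  have hBN : B ≤ N := by linarith only [s80, hB0]
  have hLB : L ^ aF ≤ B := by
    have h1 : L ^ aF ≤ L ^ cT := FINAM.mono hL1 (by linarith only [hcT, hA, q7, q3])
    have h2 : L ^ cT ≤ T := by
      have := hpos cT
      nlinarith only [hPT, hP2, this]
    linarith only [h1, h2, s5, hT0]
  have hLT : L ^ a0 ≤ T := by
    rw [le_div_iff₀ (hpos a0)] at s1
    linarith only [s1]
  obtain ⟨hm1, hmh, hKm1, hKmF, hKmN, hKmh, hT01, hT0a, hT0b⟩ :=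
    nats (ch := ch) (ch0 := ch0) (a0 := a0) (aF := aF) hL1 hch q5 hB0 hBN hLB hLT hN0
  have hT11 : 1 ≤ ⌈4 * T⌉₊ := Nat.one_le_ceil_iff.2 (by linarith only [hT0])
  have hT5 : (⌈4 * T⌉₊ : ℝ) ≤ 5 * T := by
    have := Nat.ceil_lt_add_one (show 0 ≤ 4 * T by linarith only [hT0])
    linarith only [this, sT64]
  have hNc2 : 5 ≤ N ^ (c / 2) := by linarith only [gp3, gL]
  have hTc : (⌈4 * T⌉₊ : ℝ) ≤ N ^ c := by
    have h1 : N ^ δ ≤ N ^ (c / 2) := Real.rpow_le_rpow_of_exponent_le hN1 hδc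
    have h2 : N ^ c = N ^ (c / 2) * N ^ (c / 2) := by
      rw [← Real.rpow_add hN0]
      congr 1
      ring
    have h3 : 0 < N ^ (c / 2) := Real.rpow_pos_of_pos hN0 _
    rw [h2]
    nlinarith only [hT5, hTd, h1, hNc2, h3]
  have hlogT1 : Real.log (⌈4 * T⌉₊ : ℝ) ≤ L / 4 := by
    have h0 : (0 : ℝ) < (⌈4 * T⌉₊ : ℝ) := by exact_mod_cast hT11
    have h1 := Real.log_le_log h0 hTc
    rw [Real.log_rpow hN0, ← hL] at h1
    nlinarith only [h1, hc5, hL0]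
  have hlg : 1 + 2 * Real.log (⌈4 * T⌉₊ : ℝ) ≤ L := by linarith only [hlogT1, gL]
  have hlogT : Real.log T ≤ L / 4 := by
    have h1 : T ≤ (⌈4 * T⌉₊ : ℝ) := by
      have := Nat.le_ceil (4 * T)
      linarith only [this, hT0]
    exact (Real.log_le_log hT0 h1).trans hlogT1
  have hlY : 1 + Real.log (2 * N * T) ≤ 3 * L := by
    rw [Real.log_mul (by positivity) hT0.ne', Real.log_mul (by norm_num) hN0.ne', ← hL]
    have : Real.log 2 ≤ 1 := by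
      have := Real.log_two_lt_d9
      linarith only [this]
    linarith only [this, hlogT, gL]
  have hlY0 : 0 ≤ 1 + Real.log (2 * N * T) := by
    have : 0 ≤ Real.log (2 * N * T) := Real.log_nonneg (by nlinarith only [hN1, sT64])
    linarith only [this]
  -- the set `U`
  obtain ⟨U, hUOK, E, hE1, hE2⟩ := gUS ⌈4 * T⌉₊ ⌊L ^ aF * (N / B)⌋₊
    (hTc.trans (Real.rpow_le_rpow_of_exponent_le hN1 (by linarith only [hc1, hc]))) hT11 hKmN
  rw [← hL] at hUOK hE1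
  rw [← haU] at hUOK
  have hE1' : 2 * A1 + A3 + 4 - aQ = aU + 1 - aQ := by rw [haU]; ring
  rw [hE1'] at hE1
  have hF2 : (⌊L ^ aF * (N / B)⌋₊ : ℝ) ≤ N ^ 2 := hKmN.trans (by nlinarith only [hN1])
  have hUOK' : UOK (L ^ aQ) (L ^ aF * (N / B)) (L ^ aU) U :=
    ⟨hUOK.ch, fun i hi => (hUOK.frq i hi).trans hKmF, hUOK.adm, hUOK.dif, hUOK.one, hUOK.card⟩
  refine ⟨U, hUOK', ?_⟩
  have gPRC1 := gPRC' U hUOK'
  clear gPRC' gUS
  obtain ⟨m, hm⟩ : ∃ m : ℕ, m = ⌊L ^ ch / L ^ ch0⌋₊ := ⟨_, rfl⟩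
  obtain ⟨T1, hT1e⟩ : ∃ t : ℕ, t = ⌈4 * T⌉₊ := ⟨_, rfl⟩
  obtain ⟨T0, hT0e⟩ : ∃ t : ℕ, t = ⌊T / L ^ a0⌋₊ := ⟨_, rfl⟩
  obtain ⟨Km, hKme⟩ : ∃ t : ℕ, t = ⌊L ^ aF * (N / B)⌋₊ := ⟨_, rfl⟩
  rw [← hm] at hm1 hmh gPRC1
  rw [← hT1e] at hT11 hT5 hTc hlogT1 hlg hE1 hE2 gPRC1
  rw [← hT0e] at hT01 hT0a hT0b gPRC1
  rw [← hKme] at hKm1 hKmF hKmN hKmh hUOK hE2 hF2 gPRC1
  clear hm hT1e hT0e hKme
  have hHJ := hHJS (par N T P ch cw) U m hsiz hm1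
  have hM0 : 0 ≤ MM' (par N T P ch cw) := by
    show 0 ≤ 2 * N * T / P
    positivity
  have hwL : (par N T P ch cw).w = L ^ cw := by rw [hL]; rfl
  have hsup : ∀ j ∈ JJ (par N T P ch cw) m, ∀ z, ‖HJ (par N T P ch cw) U m j z‖ ≤ L ^ (aU + 2) := by
    intro j hj z
    have h1 := single_le_sum (f := fun j => ‖HJ (par N T P ch cw) U m j z‖) (fun _ _ => norm_nonneg _) hj
    have h2 := hHJ.2.2.1 z
    have h3 := gSUP' (Km : ℝ) U hF2 hUOK z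
    have h4 : ∑ v ∈ I2 (par N T P ch cw), ‖eta (par N T P ch cw) v z - kap (par N T P ch cw) U v z‖ ≤
        ∑ v ∈ I2 (par N T P ch cw), (‖eta (par N T P ch cw) v z‖ + ‖kap (par N T P ch cw) U v z‖) :=
      sum_le_sum fun v _ => norm_sub_le _ _
    exact h1.trans (h2.trans (h4.trans h3))
  have hx0 : 0 ≤ N ^ (1 - 4 * c) := Real.rpow_nonneg hN0.le _
  have hTN : ∀ t : ℕ, t ≤ T1 → ∀ y : ℝ, 4 * c ≤ y → (t : ℝ) ≤ N ^ y := by
    intro t ht y hy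
    have h1 : (t : ℝ) ≤ T1 := by exact_mod_cast ht
    exact h1.trans (hTc.trans (Real.rpow_le_rpow_of_exponent_le hN1 (by linarith only [hy, hc])))
  have hsec := second (E := E) (nU := L ^ aU) (L := L) (bE := 9 * L ^ (aU + 2) * MM' (par N T P ch cw))
    (bU := 40 * L * L ^ (aU + 2) * MM' (par N T P ch cw) / L ^ cw + N ^ (1 - 4 * c))
    (x := N ^ (1 - 4 * c)) (b2 := (par N T P ch cw).M2 ^ 2 * L ^ (-A4)) (S := N ^ c) (N := N) (A₃ := A3)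
    (A₁ := A1) (p := par N T P ch cw) (U := U) (m := m) (Km := Km) (T0 := T0) (T1 := T1) (P₀ := P)
    (hc := L ^ ch0) (τ := P ^ (1 - c / 8)) (EE := L ^ (aU + 1 - aQ))
    hPHI hBRG hP0.le hT01 hlg (by have := hpos (aU + 2); positivity)
    (by have := hpos (aU + 2); have := hpos cw; positivity) (by have := hpos (-A4); positivity)
    (Real.rpow_nonneg hN0.le _)
    (hHJ.2.2.2 (fun i hi => ⟨hUOK.adm i hi, (hUOK.ch i hi).2.2⟩))
    (fun t ht j hj q => FINBM.triv hM0 (hpos _).le (hBRG.1 t q.1 ht) (hsup j hj))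
    (fun t ht1 ht2 q h1 h2 h3 => hE2 t ht1 ht2 q h1 h2 h3)
    (by
      intro t ht1 ht2 q j hu
      have h1 := gTA' (Km : ℝ) U hF2 hUOK (ixq t q) m j hm1 ht1 (hTN t ht2 cA hc4) (hBRG.1 t q.1 ht1) hu
      refine h1.trans ?_
      rw [hwL]
      have ht0 : (0 : ℝ) < t := by exact_mod_cast ht1
      have h2 : Real.log (t : ℝ) ≤ Real.log T1 :=
        Real.log_le_log ht0 (by exact_mod_cast ht2)
      have h3 : 1 + Real.log ((ixq t q).1 : ℝ) ≤ L := by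
        show 1 + Real.log (t : ℝ) ≤ L
        linarith only [h2, hlogT1, gL]
      have h4 : N ^ (1 - cA) ≤ N ^ (1 - 4 * c) :=
        Real.rpow_le_rpow_of_exponent_le hN1 (by linarith only [hc4])
      have h5 : 40 * (1 + Real.log ((ixq t q).1 : ℝ)) * L ^ (aU + 2) * MM' (par N T P ch cw) / L ^ cw ≤
          40 * L * L ^ (aU + 2) * MM' (par N T P ch cw) / L ^ cw := by
        have := hpos (aU + 2)
        have := hpos cw
        gcongr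
      exact add_le_add h5 h4)
    (by
      intro t ht1 ht2 q hq j hpsi hD
      have h1 := gTS' (Km : ℝ) U hF2 hUOK (ixq t q) m j hm1 ht1 (hTN t ht2 cS hc3) (hBRG.1 t q.1 ht1)
        ((mem_IK_le hKmN q.2 hq).trans (by nlinarith only [hN1])) hpsi hD
      have h4 : N ^ (1 - cS) ≤ N ^ (1 - 4 * c) :=
        Real.rpow_le_rpow_of_exponent_le hN1 (by linarith only [hc3])
      linarith only [h1, h4])
    (by
      intro t ht1 ht2 W j hW1 hW2 hW3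
      rw [hL]
      exact gVB' t m j W ht1 (hTN t ht2 cV hc2) hm1
        (fun q hq => ⟨(mem_IK_le hKmN q.2 (hW1 q hq)).trans (by nlinarith only [hN1]), hW3 q hq⟩)
        (hW2.trans (Real.rpow_le_rpow_of_exponent_le hN1 (by linarith only [hc2, hc]))))
    (by
      intro t ht1 ht2 i
      have h20 : (t : ℝ) ≤ N ^ (1 / 20 : ℝ) := hTN t ht2 _ (by linarith only [hc5])
      exact gA t Km P _ ht1 h20 hKm1 hKmN hPa hPb (filter_subset _ _))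
    hUOK.card hE1
  -- the numbers of cells
  have hI : ((VV (L ^ ch0) P (2 * P)).card : ℝ) ≤ L ^ ch0 := by
    refine card_VV ?_ (by linarith only [hP2])
    calc (100 : ℝ) ≤ L := by linarith only [gL]
      _ = L ^ (1 : ℝ) := (Real.rpow_one L).symm
      _ ≤ L ^ ch0 := FINAM.mono hL1 q6
  have hM2 : 1 ≤ (par N T P ch cw).M2 := by
    show 1 ≤ N * T / (8 * P)
    rw [le_div_iff₀ (by positivity)]
    have h64 : 64 * P ≤ T := hsiz.T
    nlinarith only [h64, hN1, hP0, hT0, gN]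
  have hJ : ((JJ (par N T P ch cw) m).card : ℝ) ≤ 6 * L ^ ch0 := by
    refine card_img hsiz.h hM2 hm1 (hone ch0 (by linarith only [q6])) ?_
    have hh : (par N T P ch cw).h = L ^ ch := by rw [hL]; rfl
    rw [hh]
    exact hmh
  have hq : ((VV (L ^ ch0) P (2 * P)).card : ℝ) * (JJ (par N T P ch cw) m).card ≤ L ^ nI := by
    refine (mul_le_mul hI hJ (Nat.cast_nonneg _) (hpos ch0).le).trans ?_
    have : L ^ ch0 * (6 * L ^ ch0) = 6 * L ^ (2 * ch0) := by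
      rw [← FINAM.sq_pow hL0]
      ring
    rw [this]
    exact FINAM.kmul hL1 (by linarith only [gL]) _ (by linarith only [hnI])
  -- the variance inequality
  have hvar := hV _ _ _ _ _ _ _ _ (P ^ (1 - c / 8)) _ _ _ _ _ _ _ _ _
    ((ann (par N T P ch cw).K (2 * (par N T P ch cw).K)).filter prim) gPRC1
    (Real.rpow_nonneg hP0.le _) (by
      intro z hz
      rw [mem_filter] at hz
      obtain ⟨h1, h2⟩ := hz
      unfold ann at h1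
      rw [mem_filter, mem_disc] at h1
      exact ⟨h2, h1.2.le, h1.1.2⟩)
  have hlns := hLNS (par N T P ch cw) U m (L ^ ch0) B hsiz hm1
    (hone ch0 (by linarith only [q6])) hB0.le
  rw [hlns]
  refine hvar.trans ?_
  have p1 := FINAM.part1 (A := A) (a0 := a0) (ch0 := ch0) (nI := nI) (aU := aU) (aF := aF) (cw := cw)
    (cP := cP) (cT := cT) (cB := cB) (c := c) (L := L) (N := N) (T := T) (P := P) (B := B) (C := C)
    (lY := Real.log (2 * N * T)) (F := L ^ (aU + 2)) (G := L ^ (2 : ℝ)) (w := L ^ cw)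
    (M := 2 * N * T / P) (τ := P ^ (1 - c / 8))
    (nn := ((VV (L ^ ch0) P (2 * P)).card : ℝ) * (JJ (par N T P ch cw) m).card) (T0 := (T0 : ℝ))
    (T1 := (T1 : ℝ)) (Km := (Km : ℝ)) hA gL (by linarith only [ha0]) (by linarith only [hch0]) q9 q3
    (by linarith only [haF]) (by linarith only [hcw, q4, q3, q9]) hcP3 (by linarith only [hcT, q7, q5])
    (by linarith only [hcB]) hc hC.le gC hlY0 hlY rfl rfl rfl rfl rfl (by positivity) hq hN1 sT64 hPa hPT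
    hB1 hB2 gp4 hT0a hT0b hT5 (Nat.cast_nonneg _) hKmh (by linarith only [hcP0])
  have p2 := FINBM.part2 (A := A) (nI := nI) (aU := aU) (aQ := aQ) (cw := cw) (cP := cP) (A4 := A4) (c := c)
    (L := L) (N := N) (T := T) (P := P) (B := B) (C := C) (M := 2 * N * T / P) (w := L ^ cw)
    (M2 := N * T / (8 * P)) (x := N ^ (1 - 4 * c))
    (nn := ((VV (L ^ ch0) P (2 * P)).card : ℝ) * (JJ (par N T P ch cw) m).card) (T0 := (T0 : ℝ))
    gL q9 q3 (by linarith only [haQ]) (by linarith only [hcw, q4, q3, q9, hA]) (by linarith only [hA4])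
    hC.le gC rfl rfl rfl (by positivity) hq hN1 sT64 hP0 hB0 hx0
    (hx_bound hL1 hN1 hP0.le hPb gp2) (Real.one_le_rpow hN1 hc.le) rfl rfl
  have hsec2 := mul_le_mul_of_nonneg_left hsec (show 0 ≤ C *
    (((VV (L ^ ch0) P (2 * P)).card : ℝ) * (JJ (par N T P ch cw) m).card) * (B / (2 * N * T)) by positivity)
  have hK : (par N T P ch cw).K = N / T := rfl
  have hM2' : (par N T P ch cw).M2 = N * T / (8 * P) := rfl
  have hMM : MM' (par N T P ch cw) = 2 * N * T / P := rfl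
  have hTT : (par N T P ch cw).T = T := rfl
  rw [hwL]
  rw [hM2', hMM] at hsec2
  rw [hK, hMM, hTT]
  have hfin : L ^ (-A) / 2 * (B * (N / T) * T ^ 2) + L ^ (-A) / 2 * (B * (N / T) * T ^ 2) =
      L ^ (-A) * (B * (N / T) * T ^ 2) := by ring
  rw [← hfin]
  refine add_le_add p1 (hsec2.trans (le_trans (le_of_eq ?_) p2))
  ring

end Pool.Agent.Lib.MP391708.X3U
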