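import Pool.Agent.Lib.MP_391708_nt.X3.U.Spec
import Pool.Agent.Lib.MP_391708_nt.X.U.ETH

/-!
# Theorem X3, part U, module ETH (helper16): the sum of `eta` over a coarse cell against a character
-/

set_option autoImplicit false

namespace Pool.Agent.Lib.MP391708.X3U

open Finset Filter Topology Pool.Agent.Lib.MP391708.MR
open Pool.Agent.Lib.MP391708.X (ChiG rgh Ix psi)
open Pool.Agent.Lib.MP391708.X3 (Par I2 eta)
open Pool.Agent.Lib.MP391708.XU (GG)
open Pool.Agent.Lib.MP391708.XU.ETHM (psi_mul mem_GP sum_GG nm_dvd_GP)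

namespace ETHM

open scoped Classical in
/-- the transform of `eta` -/
theorem eta_sum (p : Par) (v : ℕ) (ψ : Gi → ℂ) (Y : ℝ) (hmul : ∀ x y, ψ (x * y) = ψ x * ψ y)
    (hI : ψ ⟨0, 1⟩ = 1) (hY : ∀ π ∈ cell p.h p.M2 (2 * p.M2) v, (nm π : ℝ) ≤ Y) :
    ∑ z ∈ disc Y, eta p v z * ψ z = 4 * ∑ π ∈ cell p.h p.M2 (2 * p.M2) v, ψ π := by
  have hne : ∀ π ∈ cell p.h p.M2 (2 * p.M2) v, π ≠ 0 := fun π h =>
    GP_ne_zero (Finset.mem_filter.1 h).1
  have h1 : ∀ z, eta p v z * ψ z = ∑ π ∈ cell p.h p.M2 (2 * p.M2) v,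
      if Associated π z then ψ z else 0 := by
    intro z
    unfold X3.eta
    rw [Finset.natCast_card_filter, Finset.sum_mul]
    refine Finset.sum_congr rfl fun q _ => ?_
    split_ifs
    · rw [one_mul]
    · rw [zero_mul]
  rw [Finset.sum_congr rfl fun z _ => h1 z, Finset.sum_comm, Finset.mul_sum]
  refine Finset.sum_congr rfl fun π hπ => ?_
  rw [← Finset.sum_filter, X.ETHM.sum_assoc hmul hI (hne π hπ) (hY π hπ)]

theorem M2_ge {p : Par} (hp : Siz p) : 8 * p.N ≤ p.M2 := by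
  have hP : 0 < p.P := by linarith [hp.P]
  have hN : 0 ≤ p.N := by linarith [hp.N]
  unfold X3.Par.M2
  rw [le_div_iff₀ (by linarith)]
  nlinarith [mul_le_mul_of_nonneg_left hp.T hN]

theorem M2_pos {p : Par} (hp : Siz p) : 0 < p.M2 := by
  linarith [M2_ge hp, hp.N]

theorem MM_ge {p : Par} (hp : Siz p) : 2 * p.M2 ≤ MM' p := by
  have hP : 0 < p.P := by linarith [hp.P]
  have h0 : 0 ≤ p.N * p.T / p.P := by
    have hN : 0 ≤ p.N := by linarith [hp.N]
    have hT : 0 ≤ p.T := by linarith [hp.T]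
    positivity
  have h1 : p.M2 = p.N * p.T / p.P / 8 := by
    unfold X3.Par.M2
    rw [div_div]
    ring_nf
  have h2 : MM' p = 2 * (p.N * p.T / p.P) := by
    unfold MM'
    ring
  rw [h1, h2]
  linarith

/-- the support of `eta` -/
theorem supp {p : Par} (hp : Siz p) {m j v : ℕ} {z : Gi} (hv : v / m = j)
    (h : eta p v z ≠ 0) : z ∈ SJ p m j := by
  classical
  unfold X3.eta at h
  have h1 : ((cell p.h p.M2 (2 * p.M2) v).filter (fun π => Associated π z)).Nonempty := by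
    rw [← Finset.card_pos]
    apply Nat.pos_of_ne_zero
    intro h0
    apply h
    exact_mod_cast h0
  obtain ⟨q, hq⟩ := h1
  rw [mem_filter] at hq
  obtain ⟨hq1, hz⟩ := hq
  unfold cell at hq1
  rw [mem_filter] at hq1
  obtain ⟨n1, pr1, lo1, hi1⟩ := mem_GP hq1.1
  have hz0 : z ≠ 0 := by
    rintro rfl
    rw [associated_zero_iff_eq_zero] at hz
    exact n1 hz
  have hnm : nm z = nm q := Nat.dvd_antisymm (nm_dvd hz.symm.dvd) (nm_dvd hz.dvd)
  unfold SJ
  rw [mem_filter, mem_disc]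
  refine ⟨⟨hz0, ?_⟩, ?_, ?_⟩
  · rw [hnm]
    exact hi1.trans (MM_ge hp)
  · intro π hπ hd
    have h5 : π ∣ q := hd.trans hz.symm.dvd
    exact lt_trans (by linarith [M2_ge hp, hp.wN, hp.N]) (nm_dvd_GP hπ hq1.1 h5)
  · rw [hnm, hq1.2]
    exact hv

end ETHM

open ETHM in
theorem specETH : SpecETH := by
  classical
  intro p m j i hp hm _ hχ hI
  have hh : 0 < p.h := by linarith [hp.h]
  have e1 : ∑ z ∈ SJ p m j, (∑ v ∈ (I2 p).filter (fun v => v / m = j), eta p v z) * psi i z =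
      ∑ z ∈ disc (MM' p), (∑ v ∈ (I2 p).filter (fun v => v / m = j), eta p v z) * psi i z := by
    refine Finset.sum_subset (Finset.filter_subset _ _) fun z _ hz => ?_
    rw [Finset.sum_eq_zero, zero_mul]
    intro v hv
    rw [mem_filter] at hv
    by_contra h0
    exact hz (supp hp hv.2 h0)
  have e2 : ∑ z ∈ disc (MM' p), (∑ v ∈ (I2 p).filter (fun v => v / m = j), eta p v z) * psi i z =
      ∑ v ∈ (I2 p).filter (fun v => v / m = j), ∑ z ∈ disc (MM' p), eta p v z * psi i z := by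
    simp only [Finset.sum_mul]
    rw [Finset.sum_comm]
  have e3 : ∀ v : ℕ, ∑ z ∈ disc (MM' p), eta p v z * psi i z =
      4 * ∑ π ∈ cell p.h p.M2 (2 * p.M2) v, psi i π := by
    intro v
    refine eta_sum p v (psi i) (MM' p) (psi_mul hχ) hI ?_
    intro π hπ
    unfold cell at hπ
    rw [mem_filter] at hπ
    obtain ⟨-, -, -, h1⟩ := mem_GP hπ.1
    exact h1.trans (MM_ge hp)
  rw [e1, e2]
  simp only [e3]
  unfold G2
  rw [sum_GG _ _ _ _ hh (M2_pos hp)]
  unfold X3.I2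
  rw [Finset.mul_sum]

end Pool.Agent.Lib.MP391708.X3U
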