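import Pool.Agent.Lib.MP_391708_nt.X3.U.Spec

/-!
# THEOREM X3 (MP_391708), part U, module HJS: the cells
-/

set_option autoImplicit false

namespace Pool.Agent.Lib.MP391708.X3U

open Finset Filter Topology Pool.Agent.Lib.MP391708.MR
open Pool.Agent.Lib.MP391708.X (ChiG hk Dist Fam rgh Ix psi ix1 UOK lc On)
open Pool.Agent.Lib.MP391708.X3 (Par par Box RR S2 I2 eta kap Eta Kap Var cl Big)
open scoped ComplexConjugate

namespace HJSM

theorem nm_ass {x y : Gi} (h : Associated x y) : nm x = nm y := by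
  obtain ⟨u, rfl⟩ := h
  rw [nm_mul, isUnit_iff_nm.1 u.isUnit, mul_one]

theorem mem_cell {h P Q : ℝ} {v : ℕ} {z : Gi} :
    z ∈ cell h P Q v ↔ z ∈ GP P Q ∧ ⌊h * Real.log (nm z)⌋₊ = v := by
  unfold cell
  rw [mem_filter]

theorem M2_ge {p : Par} (S : Siz p) : 8 * p.N ≤ p.M2 := by
  have hP : 0 < p.P := by linarith [S.P]
  have hN : 0 ≤ p.N := by linarith [S.N]
  have h1 := mul_le_mul_of_nonneg_left S.T hN
  unfold Par.M2
  rw [le_div_iff₀ (by positivity)]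
  linarith

theorem M2_ge' {p : Par} (S : Siz p) : 800 ≤ p.M2 := by
  have h1 := M2_ge S
  have h2 := S.N
  linarith

/-- `MM' = 16 M₂`. -/
theorem MM_eq {p : Par} (S : Siz p) : MM' p = 16 * p.M2 := by
  have hP : 0 < p.P := by linarith [S.P]
  unfold MM' Par.M2
  field_simp
  ring

theorem w_lt_M2 {p : Par} (S : Siz p) : p.w < p.M2 := by
  have h1 := M2_ge S
  have h2 := S.wN
  have h3 := S.N
  linarith

/-! ### Sums over the groups -/

theorem sum_JJ {E : Type} [AddCommMonoid E] (p : Par) (m : ℕ) (f : ℕ → E) :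
    ∑ j ∈ JJ p m, ∑ v ∈ (I2 p).filter (fun v => v / m = j), f v = ∑ v ∈ I2 p, f v := by
  unfold JJ
  exact sum_fiberwise_of_maps_to (fun v hv => mem_image_of_mem _ hv) _

/-! ### Supports -/

/-- what a nonzero value of `eta` gives -/
theorem eta_ne {p : Par} (S : Siz p) {v : ℕ} {z : Gi} (h : eta p v z ≠ 0) :
    z ∈ disc (MM' p) ∧ rgh p.w z ∧ ⌊p.h * Real.log (nm z)⌋₊ = v := by
  classical
  unfold X3.eta at h
  have h1 : ((cell p.h p.M2 (2 * p.M2) v).filter (fun π => Associated π z)).card ≠ 0 := by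
    intro h0
    apply h
    rw [Nat.cast_eq_zero]
    convert h0
  obtain ⟨r, hr⟩ := card_ne_zero.1 h1
  rw [mem_filter, mem_cell] at hr
  obtain ⟨⟨hr1, hr2⟩, ha⟩ := hr
  have hrG := mem_GP.1 hr1
  have hnm : nm z = nm r := (nm_ass ha).symm
  have hr0 : r ≠ 0 := GP_ne_zero hr1
  have hz0 : z ≠ 0 := by
    rintro rfl
    exact hr0 ((Associated.eq_zero_iff ha).2 rfl)
  refine ⟨mem_disc.2 ⟨hz0, ?_⟩, ?_, ?_⟩
  · rw [hnm, MM_eq S]
    have h2 := M2_ge' S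
    linarith [hrG.2.2.2.2.2]
  · intro π hπ hd
    have h3 : π ∣ r := (Associated.dvd_iff_dvd_right ha).2 hd
    have h4 : Associated π r := hπ.associated_of_dvd (GP_prime hr1) h3
    rw [nm_ass h4]
    exact (w_lt_M2 S).trans hrG.2.2.2.2.1
  · rw [hnm, hr2]

/-- the upper end of a cell in the range -/
theorem le_of_VV {h M : ℝ} {v : ℕ} (hh : 1 ≤ h) (hM : 1 ≤ M) (hv : v ∈ VV h M (2 * M)) :
    (v : ℝ) ≤ h * Real.log (2 * M) := by
  unfold VV at hv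
  have h1 := (mem_Icc.1 hv).2
  have h2 : 0 ≤ h * Real.log (2 * M) :=
    mul_nonneg (by linarith) (Real.log_nonneg (by linarith))
  exact (Nat.cast_le.2 h1).trans (Nat.floor_le h2)

theorem kap_ne {p : Par} (S : Siz p) {U : Finset Ix} {v : ℕ} (h2 : v ∈ I2 p)
    {z : Gi} (h : kap p U v z ≠ 0) :
    z ∈ disc (MM' p) ∧ rgh p.w z ∧ ⌊p.h * Real.log (nm z)⌋₊ = v := by
  classical
  unfold X3.kap at h
  have h1 : z ∈ lc p.h v ∧ rgh p.w z := by
    by_contra h0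
    exact h (if_neg h0)
  obtain ⟨hl, hr⟩ := h1
  unfold X.lc at hl
  rw [mem_filter, mem_disc] at hl
  obtain ⟨⟨hz0, hz1⟩, hz2⟩ := hl
  refine ⟨mem_disc.2 ⟨hz0, hz1.trans ?_⟩, hr, hz2⟩
  have hM2 := M2_ge' S
  have hh := S.h
  have e2 := le_of_VV hh (by linarith) h2
  have e3 : (((v : ℝ) + 1) / p.h) ≤ Real.log (2 * p.M2) + 1 := by
    rw [div_le_iff₀ (by linarith)]
    nlinarith
  rw [MM_eq S]
  calc Real.exp (((v : ℝ) + 1) / p.h)
      ≤ Real.exp (Real.log (2 * p.M2) + 1) := Real.exp_le_exp.2 e3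
    _ = 2 * p.M2 * Real.exp 1 := by
        rw [Real.exp_add, Real.exp_log (by positivity)]
    _ ≤ 2 * p.M2 * 3 := by
        apply mul_le_mul_of_nonneg_left _ (by positivity)
        linarith [Real.exp_one_lt_d9]
    _ ≤ 16 * p.M2 := by linarith

theorem supp {p : Par} (S : Siz p) {U : Finset Ix} {m : ℕ} (j : ℕ) (z : Gi)
    (h : HJ p U m j z ≠ 0) : z ∈ SJ p m j := by
  classical
  unfold HJ at h
  obtain ⟨v, hv, h2⟩ := exists_ne_zero_of_sum_ne_zero h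
  rw [mem_filter] at hv
  have key : z ∈ disc (MM' p) ∧ rgh p.w z ∧ ⌊p.h * Real.log (nm z)⌋₊ = v := by
    by_cases h3 : eta p v z = 0
    · refine kap_ne S (U := U) hv.1 ?_
      intro h0
      apply h2
      rw [h3, h0, sub_zero]
    · exact eta_ne S h3
  obtain ⟨k1, k2, k3⟩ := key
  unfold SJ
  rw [mem_filter]
  exact ⟨k1, k2, by rw [k3]; exact hv.2⟩

/-! ### Invariance under `i` -/

theorem isUnit_I : IsUnit (⟨0, 1⟩ : Gi) := isUnit_iff_nm.2 nm_I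

theorem nm_I_mul (z : Gi) : nm (⟨0, 1⟩ * z) = nm z := by rw [nm_mul, nm_I, one_mul]

theorem I_mul_ne {z : Gi} : (⟨0, 1⟩ : Gi) * z ≠ 0 ↔ z ≠ 0 := by
  rw [ne_eq, isUnit_I.mul_right_eq_zero]

theorem ass_I (z : Gi) : Associated z (⟨0, 1⟩ * z) := by
  obtain ⟨u, hu⟩ := isUnit_I
  exact ⟨u, by rw [hu, mul_comm]⟩

theorem eta_I (p : Par) (v : ℕ) (z : Gi) : eta p v (⟨0, 1⟩ * z) = eta p v z := by
  classical
  unfold X3.eta
  congr 2
  apply filter_congr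
  intro q _
  exact ⟨fun h => h.trans (ass_I z).symm, fun h => h.trans (ass_I z)⟩

theorem lc_I {h : ℝ} {v : ℕ} {z : Gi} : (⟨0, 1⟩ : Gi) * z ∈ lc h v ↔ z ∈ lc h v := by
  unfold X.lc
  rw [mem_filter, mem_filter, mem_disc, mem_disc, nm_I_mul, I_mul_ne]

theorem rgh_I {w : ℝ} {z : Gi} : rgh w (⟨0, 1⟩ * z) ↔ rgh w z :=
  ⟨fun h π hπ hd => h π hπ ((Associated.dvd_iff_dvd_right (ass_I z)).1 hd),
    fun h π hπ hd => h π hπ ((Associated.dvd_iff_dvd_right (ass_I z)).2 hd)⟩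

theorem psi_I {i : Ix} (h : psi i ⟨0, 1⟩ = 1) (hc : ChiG (i.1 : Gi) i.2.1) (z : Gi) :
    psi i (⟨0, 1⟩ * z) = psi i z := by
  have h1 : psi i (⟨0, 1⟩ * z) = psi i ⟨0, 1⟩ * psi i z := by
    unfold X.psi X.hk
    rw [hc.mul, xi_mul]
    ring
  rw [h1, h, one_mul]

theorem kap_I (p : Par) (U : Finset Ix) (v : ℕ)
    (hU : ∀ i ∈ U, psi i ⟨0, 1⟩ = 1 ∧ ChiG (i.1 : Gi) i.2.1) (z : Gi) :
    kap p U v (⟨0, 1⟩ * z) = kap p U v z := by
  classical
  unfold X3.kap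
  by_cases h : z ∈ lc p.h v ∧ rgh p.w z
  · rw [if_pos h, if_pos ⟨lc_I.2 h.1, rgh_I.2 h.2⟩]
    refine sum_congr rfl fun i hi => ?_
    rw [psi_I (hU i hi).1 (hU i hi).2]
  · rw [if_neg h, if_neg]
    rintro ⟨h1, h2⟩
    exact h ⟨lc_I.1 h1, rgh_I.1 h2⟩

end HJSM

open HJSM in
/-- **HJS**: the cells. -/
theorem specHJS : SpecHJS := by
  intro p U m S _
  refine ⟨fun j z h => supp S j z h, fun z => ?_, fun z => ?_, fun hU j z => ?_⟩
  · unfold HJ
    rw [sum_JJ p m (fun v => eta p v z - kap p U v z)]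
    unfold X3.Eta X3.Kap
    simp only [sum_sub_distrib]
  · rw [← sum_JJ p m (fun v => ‖eta p v z - kap p U v z‖)]
    refine sum_le_sum fun j _ => ?_
    unfold HJ
    exact norm_sum_le _ _
  · unfold HJ
    refine sum_congr rfl fun v _ => ?_
    rw [eta_I, kap_I p U v hU]

end Pool.Agent.Lib.MP391708.X3U
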