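import Pool.Agent.Lib.MP_391708_nt.X3.U.HTS
import Pool.Agent.Lib.MP_391708_nt.X.U.ETH
import Pool.Agent.Lib.MP_391708_nt.X.CELAll

/-!
# THEOREM X3 (MP_391708), part U, module HTA: the sum of `HJ` against a character of `U`
(after `XP/U/HTA.lean`, `XP/U/HTAC.lean`)
-/

set_option autoImplicit false

namespace Pool.Agent.Lib.MP391708.X3U

open Finset Filter Topology Pool.Agent.Lib.MP391708.MR
open Pool.Agent.Lib.MP391708.X (ChiG hk Dist rgh Ix psi ix1 UOK lc)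
open Pool.Agent.Lib.MP391708.X3 (Par par Box RR S2 I2 eta kap Eta Kap cc)
open Pool.Agent.Lib.MP391708.XU (GG SpecNCD)
open Pool.Agent.Lib.MP391708.XPU (SpecRGS)
open scoped ComplexConjugate

namespace HTAM

open HTSM

/-! ### The sum of `kap` over a cell -/

open scoped Classical in
theorem kap_sum {p : Par} (S : Sz p) (U : Finset Ix) {m j v : ℕ}
    (h2 : v ∈ (I2 p).filter (fun v => v / m = j)) (f : Gi → ℂ) :
    ∑ z ∈ SJ p m j, kap p U v z * f z = ∑ i ∈ U, cc p i v *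
      ∑ z ∈ (lc p.h v).filter (rgh p.w), f z * conj (psi i z) := by
  rw [mem_filter] at h2
  have h1 : (lc p.h v).filter (rgh p.w) ⊆ SJ p m j := by
    intro z hz
    rw [mem_filter] at hz
    exact sub_SJ S h2.1 h2.2 hz.1 hz.2
  rw [← sum_subset h1]
  · simp only [mul_sum]
    rw [sum_comm]
    refine sum_congr rfl fun z hz => ?_
    rw [mem_filter] at hz
    unfold X3.kap
    rw [if_pos hz, sum_mul]
    refine sum_congr rfl fun i _ => ?_
    ring
  · intro z _ hz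
    rw [mem_filter] at hz
    unfold X3.kap
    rw [if_neg hz, zero_mul]

/-! ### Characters -/

theorem coprime_GP {M : ℝ} {t : ℕ} (ht : 1 ≤ t) (hM : (t : ℝ) ^ 2 ≤ M) {π : Gi}
    (hπ : π ∈ GP M (2 * M)) : IsCoprime π (t : Gi) := by
  rw [Prime.coprime_iff_not_dvd (GP_prime hπ)]
  intro hd
  have h2 : nm π ∣ nm ((t : ℕ) : Gi) := nm_dvd hd
  rw [X.PSIM.nm_cast_nat] at h2
  have h3 : nm π ≤ t ^ 2 := Nat.le_of_dvd (by positivity) h2
  have h4 : (nm π : ℝ) ≤ (t : ℝ) ^ 2 := by exact_mod_cast h3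
  have h5 := (mem_GP.1 hπ).2.2.2.2.1
  linarith

theorem cop_I (m : Gi) : IsCoprime (⟨0, 1⟩ : Gi) m :=
  ⟨⟨0, -1⟩, 0, by
    rw [zero_mul, add_zero]
    apply Zsqrtd.ext <;> simp⟩

section Core

variable {p : Par} {U : Finset Ix} {Q F W : ℝ} {i u : Ix}

theorem psi_eq (hk : i.2.2 = u.2.2) (hz : ∀ z, i.2.1 z ≠ 0 → u.2.1 z = i.2.1 z)
    (hχ : ChiG (i.1 : Gi) i.2.1) {z : Gi} (hc : IsCoprime z (i.1 : Gi)) : psi i z = psi u z := by
  unfold X.psi X.hk
  rw [hz z ((hχ.supp z).2 hc), hk]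

theorem psi_zero (hχ : ChiG (i.1 : Gi) i.2.1) {z : Gi} (hc : ¬ IsCoprime z (i.1 : Gi)) :
    psi i z = 0 := by
  have h1 : i.2.1 z = 0 := by
    by_contra h
    exact hc ((hχ.supp z).1 h)
  unfold X.psi X.hk
  rw [h1, zero_mul]

theorem G_eq (hk : i.2.2 = u.2.2) (hz : ∀ z, i.2.1 z ≠ 0 → u.2.1 z = i.2.1 z) (hi1 : 1 ≤ i.1)
    (hχ : ChiG (i.1 : Gi) i.2.1) {h M : ℝ} {m a : ℕ} (hM : (i.1 : ℝ) ^ 2 ≤ M) :
    ∑ π ∈ GG h M m a, psi i π = ∑ π ∈ GG h M m a, psi u π := by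
  refine sum_congr rfl fun π hπ => ?_
  unfold GG at hπ
  rw [mem_filter] at hπ
  exact psi_eq hk hz hχ (coprime_GP hi1 hM hπ.1)

theorem main_eq (S : Sz p) (m j : ℕ) (u : Ix) :
    4 * G2 p m u j = ∑ v ∈ (I2 p).filter (fun v => v / m = j), S2 p u v := by
  have hh : 0 < p.h := by linarith [S.s.h]
  have hM : 0 < p.M2 := by linarith [S.m2, S.s.N]
  unfold G2
  rw [XU.ETHM.sum_GG _ _ _ _ hh hM]
  unfold X3.I2 X3.S2
  rw [Finset.mul_sum]

open scoped Classical in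
/-- one fine cell -/
theorem cell_le (S : Sz p) (hU : UOK Q F W U) (hQ : Q ≤ p.w) (hQ2 : Q ^ 2 ≤ p.w) {D Bc : ℝ}
    (hBc : 0 ≤ Bc) (hD0 : 0 ≤ D)
    (hD : ∀ u ∈ U, ∀ u' ∈ U, u ≠ u' → ∀ v ∈ I2 p,
      ‖∑ z ∈ (lc p.h v).filter (rgh p.w), psi u z * conj (psi u' z)‖ ≤ D)
    (hRR : ∀ v ∈ I2 p, RR p v ≠ 0)
    (hcc : ∀ u ∈ U, ∀ v ∈ I2 p, ‖cc p u v‖ ≤ Bc)
    {m j v : ℕ} (h2 : v ∈ (I2 p).filter (fun v => v / m = j)) (hu : u ∈ U) :
    ‖∑ z ∈ SJ p m j, kap p U v z * psi u z - S2 p u v‖ ≤ U.card * (Bc * D) := by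
  have k2 := (mem_filter.1 h2).1
  rw [kap_sum S U h2, ← add_sum_erase U _ hu]
  have e1 : ∑ z ∈ (lc p.h v).filter (rgh p.w), psi u z * conj (psi u z) = (RR p v : ℂ) := by
    have e2 : ∀ z ∈ (lc p.h v).filter (rgh p.w), psi u z * conj (psi u z) = 1 := by
      intro z hz
      rw [mem_filter] at hz
      have hz0 : z ≠ 0 := by
        have h5 := hz.1
        unfold X.lc at h5
        rw [mem_filter, mem_disc] at h5
        exact h5.1.1
      have h6 := (X.specPSI Q F W U hU u hu).2.2.2.2.2.2 p.w z hQ hQ2 hz0 hz.2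
      rw [Complex.mul_conj, Complex.normSq_eq_norm_sq, h6]
      simp
    rw [sum_congr rfl e2, sum_const, nsmul_eq_mul, mul_one]
    unfold X3.RR
    rw [Complex.ofReal_natCast]
  have e3 : cc p u v * (RR p v : ℂ) = S2 p u v := by
    unfold X3.cc
    rw [div_mul_cancel₀]
    exact_mod_cast hRR v k2
  rw [e1, e3, add_sub_cancel_left]
  refine (norm_sum_le_of_le (n := fun _ => Bc * D) _ (fun u' hu' => ?_)).trans ?_
  · rw [norm_mul]
    rw [mem_erase] at hu'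
    exact mul_le_mul (hcc u' hu'.2 v k2) (hD u hu u' hu'.2 (Ne.symm hu'.1) v k2)
      (norm_nonneg _) hBc
  · rw [sum_const, nsmul_eq_mul]
    apply mul_le_mul_of_nonneg_right _ (mul_nonneg hBc hD0)
    exact_mod_cast card_le_card (erase_subset u U)

open scoped Classical in
theorem core (hETH : SpecETH) (hNCD : SpecNCD) (S : Sz p) (hU : UOK Q F W U) (hQ : Q ≤ p.w)
    (hQ2 : Q ^ 2 ≤ p.w) {D Bc L : ℝ} (hBc : 0 ≤ Bc) (hD0 : 0 ≤ D) (hL0 : 0 ≤ L)
    (hD : ∀ u ∈ U, ∀ u' ∈ U, u ≠ u' → ∀ v ∈ I2 p,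
      ‖∑ z ∈ (lc p.h v).filter (rgh p.w), psi u z * conj (psi u' z)‖ ≤ D)
    (hRR : ∀ v ∈ I2 p, RR p v ≠ 0)
    (hcc : ∀ u ∈ U, ∀ v ∈ I2 p, ‖cc p u v‖ ≤ Bc)
    (hL : ∀ z, ∑ v ∈ I2 p, (‖eta p v z‖ + ‖kap p U v z‖) ≤ L)
    {m : ℕ} (hm : 1 ≤ m) (j : ℕ) (hi1 : 1 ≤ i.1) (hχ : ChiG (i.1 : Gi) i.2.1)
    (hsz : (i.1 : ℝ) ^ 2 ≤ p.M2) (hu : u ∈ U) (hk : i.2.2 = u.2.2)
    (hz : ∀ z, i.2.1 z ≠ 0 → u.2.1 z = i.2.1 z) :
    ‖∑ z ∈ SJ p m j, HJ p U m j z * psi i z‖ ≤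
      40 * (1 + Real.log i.1) * L * MM' p / p.w + (I2 p).card * (U.card * (Bc * D)) := by
  have hw1 : 1 ≤ p.w := by linarith [S.s.w]
  have hMM : 0 ≤ MM' p := by
    have h1 := S.s.N
    have h2 := S.s.P
    have h3 := S.s.T
    have h4 : 0 ≤ p.N := by linarith
    have h5 : 0 ≤ p.T := by linarith
    have h6 : 0 ≤ p.P := by linarith
    unfold MM'
    positivity
  set B := (I2 p).filter (fun v => v / m = j) with hB
  -- the index u
  obtain ⟨hu1, huQ, huχ⟩ := hU.ch u hu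
  have huI := hU.adm u hu
  have hiI : psi i ⟨0, 1⟩ = 1 := by
    rw [psi_eq hk hz hχ (cop_I _)]
    exact huI
  -- the eta part
  have e1 := hETH p m j i S.s hm hi1 hχ hiI
  have e3 : G2 p m i j = G2 p m u j := G_eq hk hz hi1 hχ hsz
  rw [e3, main_eq S] at e1
  -- the kap part
  set K : Gi → ℂ := fun z => ∑ v ∈ B, kap p U v z with hK
  have e4 : ∑ z ∈ SJ p m j, HJ p U m j z * psi i z =
      ∑ v ∈ B, S2 p u v - ∑ z ∈ SJ p m j, K z * psi i z := by
    rw [← e1, ← sum_sub_distrib]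
    refine sum_congr rfl fun z _ => ?_
    rw [← sub_mul]
    unfold HJ
    simp only [sum_sub_distrib]
    rfl
  have e5 : ∑ z ∈ SJ p m j, K z * psi i z = ∑ z ∈ SJ p m j, K z * psi u z -
      ∑ z ∈ (SJ p m j).filter (fun z => ¬ IsCoprime z (i.1 : Gi)), K z * psi u z := by
    rw [sum_filter, ← sum_sub_distrib]
    refine sum_congr rfl fun z _ => ?_
    by_cases hc : IsCoprime z (i.1 : Gi)
    · rw [if_neg (not_not.2 hc), sub_zero, psi_eq hk hz hχ hc]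
    · rw [if_pos hc, sub_self, psi_zero hχ hc, mul_zero]
  have e6 : ∑ z ∈ SJ p m j, K z * psi u z =
      ∑ v ∈ B, ∑ z ∈ SJ p m j, kap p U v z * psi u z := by
    simp only [hK, Finset.sum_mul]
    rw [Finset.sum_comm]
  have e7 : ‖∑ v ∈ B, (∑ z ∈ SJ p m j, kap p U v z * psi u z - S2 p u v)‖ ≤
      (I2 p).card * (U.card * (Bc * D)) := by
    have hP : 0 ≤ (U.card : ℝ) * (Bc * D) :=
      mul_nonneg (Nat.cast_nonneg _) (mul_nonneg hBc hD0)
    refine (norm_sum_le_of_le _ (fun v h2 => cell_le S hU hQ hQ2 hBc hD0 hD hRR hcc h2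
      hu)).trans ?_
    rw [sum_const, nsmul_eq_mul]
    apply mul_le_mul_of_nonneg_right _ hP
    exact_mod_cast card_le_card (filter_subset _ _)
  -- the elements which are not coprime to the modulus
  have hKL : ∀ z, ‖K z‖ ≤ L := by
    intro z
    refine le_trans ?_ (hL z)
    have h5 : ‖K z‖ ≤ ∑ v ∈ B, ‖kap p U v z‖ := norm_sum_le _ _
    have h6 : ∑ v ∈ B, ‖kap p U v z‖ ≤ ∑ v ∈ I2 p, ‖kap p U v z‖ :=
      sum_le_sum_of_subset_of_nonneg (filter_subset _ _) fun v _ _ => norm_nonneg _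
    have h7 : ∑ v ∈ I2 p, ‖kap p U v z‖ ≤ ∑ v ∈ I2 p, (‖eta p v z‖ + ‖kap p U v z‖) :=
      sum_le_sum fun v _ => le_add_of_nonneg_left (norm_nonneg _)
    exact h5.trans (h6.trans h7)
  have e8 : ‖∑ z ∈ (SJ p m j).filter (fun z => ¬ IsCoprime z (i.1 : Gi)), K z * psi u z‖ ≤
      40 * (1 + Real.log i.1) * L * MM' p / p.w := by
    have h5 : (((SJ p m j).filter (fun z => ¬ IsCoprime z (i.1 : Gi))).card : ℝ) ≤
        40 * (1 + Real.log i.1) * MM' p / p.w := by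
      refine hNCD i.1 (MM' p) p.w _ hi1 hMM hw1 fun z hz' => ?_
      rw [mem_filter] at hz'
      have h6 := hz'.1
      unfold SJ at h6
      rw [mem_filter] at h6
      exact ⟨h6.1, h6.2.1, hz'.2⟩
    refine (norm_sum_le_of_le (n := fun _ => L) _ (fun z _ => ?_)).trans ?_
    · rw [norm_mul]
      calc ‖K z‖ * ‖psi u z‖ ≤ L * 1 :=
            mul_le_mul (hKL z) (X.PSIM.norm_psi_le huχ z) (norm_nonneg _) hL0
        _ = L := mul_one L
    · rw [sum_const, nsmul_eq_mul]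
      calc (((SJ p m j).filter (fun z => ¬ IsCoprime z (i.1 : Gi))).card : ℝ) * L ≤
            40 * (1 + Real.log i.1) * MM' p / p.w * L := mul_le_mul_of_nonneg_right h5 hL0
        _ = 40 * (1 + Real.log i.1) * L * MM' p / p.w := by ring
  -- conclusion
  have e9 : ∑ z ∈ SJ p m j, HJ p U m j z * psi i z =
      ∑ z ∈ (SJ p m j).filter (fun z => ¬ IsCoprime z (i.1 : Gi)), K z * psi u z -
        ∑ v ∈ B, (∑ z ∈ SJ p m j, kap p U v z * psi u z - S2 p u v) := by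
    rw [e4, e5, e6]
    simp only [sum_sub_distrib]
    ring
  rw [e9]
  exact (norm_sub_le _ _).trans (add_le_add e8 e7)

end Core

end HTAM

open HTAM HTSM in
/-- **HTA**: the sum of `HJ` against a character of `U`. -/
theorem specHTA (hRGS : SpecRGS) (hNCD : SpecNCD) (_ : SpecHJS) (hETH : SpecETH)
    (hSUP : SpecSUP) : SpecHTA := by
  classical
  intro cw hcw
  obtain ⟨c0, hc0, hc0', hR⟩ := hRGS cw hcw
  obtain ⟨r, _, hr, _, hRR⟩ := X.ce_rrl
  refine ⟨min (c0 / 2) (1 / 100), lt_min (by positivity) (by norm_num),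
    (min_le_right _ _).trans (by norm_num), ?_⟩
  intro ch aQ aU hch hQw haQ haU δ cP cT cB hδ hδc hcP hcwP hcT hcB
  have hδ1 : δ ≤ 1 / 100 := hδc.trans (min_le_right _ _)
  have hδ2 : δ ≤ c0 / 2 := hδc.trans (min_le_left _ _)
  have hcc2 : min (c0 / 2) (1 / 100) ≤ c0 / 2 := min_le_left _ _
  have hcc3 : min (c0 / 2) (1 / 100) ≤ 1 / 100 := min_le_right _ _
  have hκ0 : (0 : ℝ) < 1 / (3 * (144 * Real.exp 54)) := by positivity
  have ev := (isLittleO_log_rpow_rpow_atTop (ch + aU + (ch + 72 * cw))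
    (show (0 : ℝ) < c0 / 2 by linarith)).bound hκ0
  have ev2 := (isLittleO_log_rpow_rpow_atTop aQ hc0).bound (show (0 : ℝ) < 1 by norm_num)
  filter_upwards [hRR 0 0 ch cw hch (by linarith), hR,
    hSUP ch cw aQ aU hch hQw hcw haQ haU δ cP cT cB hδ hδ1 hcP hcwP hcT hcB,
    cc_bound (cB := cB) (show δ ≤ 1 / 10 by linarith) hch hcP hcw hcwP hcT, ev, ev2,
    Real.tendsto_log_atTop.eventually_ge_atTop 4] with N g1 g2 g3 g4 hev hev2 g7
  intro T P B hB F U hF hU i m j hm hi1 hia hχ hu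
  obtain ⟨u, hu, hk, hz⟩ := hu
  obtain ⟨S, hcc⟩ := g4 T P B hB
  have hN100 : (100 : ℝ) ≤ N := S.s.N
  have hN0 : (0 : ℝ) < N := by linarith
  have hN1 : (1 : ℝ) ≤ N := by linarith
  set L : ℝ := Real.log N with hLd
  have hL0 : 0 < L := by linarith
  have hL1 : 1 ≤ L := by linarith
  rw [Real.norm_of_nonneg (by positivity), Real.norm_of_nonneg (by positivity)] at hev hev2
  rw [one_mul] at hev2
  have hh : 1 ≤ L ^ ch := S.s.h
  have hw2 : 2 ≤ L ^ cw := S.s.w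
  have hlw : 0 < Real.log (L ^ cw) := Real.log_pos (by linarith)
  have hP2 : 2 ≤ P := S.s.P
  have hT64 : 64 * P ≤ T := S.s.T
  have hT0 : 0 ≤ T := by linarith
  have hm2 : 8 * N ≤ (par N T P ch cw).M2 := S.m2
  -- sizes
  have hQ : L ^ aQ ≤ L ^ cw := Real.rpow_le_rpow_of_exponent_le hL1 (by linarith)
  have hQ2 : (L ^ aQ) ^ 2 ≤ L ^ cw := by
    rw [← Real.rpow_natCast, ← Real.rpow_mul hL0.le]
    apply Real.rpow_le_rpow_of_exponent_le hL1
    push_cast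
    linarith
  have hsz : (i.1 : ℝ) ^ 2 ≤ (par N T P ch cw).M2 := by
    have h1 : (i.1 : ℝ) ^ 2 ≤ (N ^ (min (c0 / 2) (1 / 100))) ^ 2 :=
      pow_le_pow_left₀ (Nat.cast_nonneg _) hia 2
    have h2 : (N ^ (min (c0 / 2) (1 / 100))) ^ 2 ≤ N ^ (1 : ℝ) := by
      rw [← Real.rpow_natCast, ← Real.rpow_mul hN0.le]
      apply Real.rpow_le_rpow_of_exponent_le hN1
      push_cast
      linarith
    rw [Real.rpow_one] at h2
    linarith
  have hRpos : ∀ v ∈ I2 (par N T P ch cw), RR (par N T P ch cw) v ≠ 0 := by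
    intro v hv
    obtain ⟨k1, -⟩ := geom S hv
    have k1' : (par N T P ch cw).M2 / 3 ≤ Real.exp ((v : ℝ) / L ^ ch) := k1
    have hEN : N ^ (1 / 3 : ℝ) ≤ Real.exp ((v : ℝ) / L ^ ch) := by
      calc N ^ (1 / 3 : ℝ) ≤ N ^ (1 : ℝ) :=
            Real.rpow_le_rpow_of_exponent_le (by linarith) (by norm_num)
        _ = N := Real.rpow_one N
        _ ≤ (par N T P ch cw).M2 / 3 := by linarith
        _ ≤ _ := k1'
    have h5 := (g1 v hEN).1
    have h6 : 0 < r * (Real.exp ((v : ℝ) / L ^ ch) / (L ^ ch * Real.log (L ^ cw))) := by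
      positivity
    exact (lt_of_lt_of_le h6 h5).ne'
  have hix : ∀ u ∈ U, 1 ≤ u.1 ∧ (u.1 : ℝ) ≤ N ^ c0 ∧ ChiG (u.1 : Gi) u.2.1 ∧
      |(u.2.2 : ℝ)| ≤ N ^ 2 := by
    intro u hu
    obtain ⟨h5, h6, h7⟩ := hU.ch u hu
    exact ⟨h5, h6.trans hev2, h7, (hU.frq u hu).trans hF⟩
  have hE : ∀ v ∈ I2 (par N T P ch cw), Real.exp (((v : ℝ) + 1) / L ^ ch) ≤ N ^ (1 + c0) := by
    intro v hv
    have h3 : Real.exp (((v : ℝ) + 1) / L ^ ch) ≤ 6 * (par N T P ch cw).M2 := (geom S hv).2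
    refine h3.trans ?_
    show 6 * (N * T / (8 * P)) ≤ N ^ (1 + c0)
    have h4 : N * T / (8 * P) ≤ N * T / 16 := by
      refine div_le_div_of_nonneg_left (by positivity) (by norm_num) (by linarith)
    have h5 : N * T ≤ N ^ (1 + c0) := by
      rw [Real.rpow_add hN0, Real.rpow_one]
      refine mul_le_mul_of_nonneg_left (hB.T2.trans ?_) hN0.le
      exact Real.rpow_le_rpow_of_exponent_le hN1 (by linarith)
    have h6 : 0 ≤ N * T := by positivity
    linarith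
  have h0 := core (p := par N T P ch cw) (Q := L ^ aQ) (F := F) (W := L ^ aU) (i := i) (u := u)
    (D := N ^ (1 - c0)) (Bc := 144 * Real.exp 54 * L ^ (ch + 72 * cw)) (L := L ^ (aU + 2)) (m := m)
    hETH hNCD S hU hQ hQ2 (by positivity) (by positivity) (by positivity)
    (fun u hu u' hu' hne v hv =>
      g2 u u' (L ^ ch) v _ hh (hE v hv) (hix u hu) (hix u' hu') (hU.dif u hu u' hu' hne)
        (fun z => by rw [mem_filter]; rfl))
    hRpos (fun u hu v hv => hcc v hv _ u (hU.ch u hu).2.2)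
    (fun z => g3 T P B hB F U hF hU z) hm j hi1 hχ hsz hu hk hz
  refine h0.trans (add_le_add (le_refl _) ?_)
  have k2 : ((I2 (par N T P ch cw)).card : ℝ) ≤ 3 * L ^ ch := VV_card hh (by linarith)
  have kU := hU.card
  have hD0 : 0 ≤ N ^ (1 - c0) := by positivity
  calc ((I2 (par N T P ch cw)).card : ℝ) *
        (U.card * (144 * Real.exp 54 * L ^ (ch + 72 * cw) * N ^ (1 - c0))) ≤
      (3 * L ^ ch) * (L ^ aU * (144 * Real.exp 54 * L ^ (ch + 72 * cw) * N ^ (1 - c0))) := by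
        apply mul_le_mul k2 _ (by positivity) (by positivity)
        exact mul_le_mul_of_nonneg_right kU (by positivity)
    _ = 3 * (144 * Real.exp 54) * L ^ (ch + aU + (ch + 72 * cw)) * N ^ (1 - c0) := by
        rw [Real.rpow_add hL0 (ch + aU), Real.rpow_add hL0 ch aU]
        ring
    _ ≤ N ^ (c0 / 2) * N ^ (1 - c0) := by
        refine mul_le_mul_of_nonneg_right ?_ (by positivity)
        have h3 := mul_le_mul_of_nonneg_left hev
          (show (0 : ℝ) ≤ 3 * (144 * Real.exp 54) by positivity)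
        refine h3.trans (le_of_eq ?_)
        have : (0 : ℝ) < 3 * (144 * Real.exp 54) := by positivity
        field_simp
    _ = N ^ (1 - c0 / 2) := by
        rw [← Real.rpow_add hN0]
        congr 1
        ring
    _ ≤ N ^ (1 - min (c0 / 2) (1 / 100)) :=
        Real.rpow_le_rpow_of_exponent_le hN1 (by linarith)

end Pool.Agent.Lib.MP391708.X3U
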