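import Pool.Agent.Lib.MP_391708_nt.X3.U.Spec
import Pool.Agent.Lib.MP_391708_nt.X.MT.RRA
import Pool.Agent.Lib.MP_391708_nt.X.PSI
import Pool.Agent.Lib.MP_391708_nt.X.HM

/-!
# THEOREM X3 (MP_391708), part U, module HTS: the sum of `HJ` against a character different from all of `U`
(after `X/U/HTS.lean` of helper24)
-/

set_option autoImplicit false

namespace Pool.Agent.Lib.MP391708.X3U

open Finset Filter Topology Pool.Agent.Lib.MP391708.MR
open Pool.Agent.Lib.MP391708.X (ChiG hk Dist Fam rgh Ix psi ix1 UOK lc On VP)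
open Pool.Agent.Lib.MP391708.X3 (Par par Box RR S2 I2 eta kap Eta Kap Var cl Big)
open Pool.Agent.Lib.MP391708.XV (md chs ph hat atyp)
open Pool.Agent.Lib.MP391708.XU (fn ixq GG Eqv SpecBRG SpecCON SpecNCD)
open Pool.Agent.Lib.MP391708.XPU (SpecRGS SpecATY)
open scoped ComplexConjugate

namespace HTSM

lemma exp_one_le : Real.exp 1 ≤ 3 := by
  have := Real.exp_one_lt_d9
  linarith

/-- the range of `v` -/
lemma VV_mem {h M : ℝ} (hh : 1 ≤ h) (hM : 1 ≤ M) {v : ℕ} (hv : v ∈ VV h M (2 * M)) :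
    M / 3 ≤ Real.exp (v / h) ∧ Real.exp (v / h) ≤ 2 * M := by
  unfold VV at hv
  rw [mem_Icc] at hv
  have hh0 : 0 < h := by linarith
  have hM0 : 0 < M := by linarith
  constructor
  · have h1 : h * Real.log M < ⌊h * Real.log M⌋₊ + 1 := Nat.lt_floor_add_one _
    have h2 : (⌊h * Real.log M⌋₊ : ℝ) ≤ v := by exact_mod_cast hv.1
    have h3 : Real.log M - 1 ≤ v / h := by
      rw [le_div_iff₀ hh0]
      nlinarith
    calc M / 3 ≤ M / Real.exp 1 := div_le_div_of_nonneg_left hM0.le (Real.exp_pos _) exp_one_le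
      _ = Real.exp (Real.log M - 1) := by rw [Real.exp_sub, Real.exp_log hM0]
      _ ≤ Real.exp (v / h) := Real.exp_le_exp.2 h3
  · have h1 : (v : ℝ) ≤ h * Real.log (2 * M) := by
      have h2 : (v : ℝ) ≤ ⌊h * Real.log (2 * M)⌋₊ := by exact_mod_cast hv.2
      have h3 : 0 ≤ h * Real.log (2 * M) := mul_nonneg hh0.le (Real.log_nonneg (by linarith))
      exact h2.trans (Nat.floor_le h3)
    have h4 : v / h ≤ Real.log (2 * M) := by
      rw [div_le_iff₀ hh0]
      linarith
    calc Real.exp (v / h) ≤ Real.exp (Real.log (2 * M)) := Real.exp_le_exp.2 h4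
      _ = 2 * M := Real.exp_log (by linarith)

lemma VV_card {h M : ℝ} (hh : 1 ≤ h) (hM : 1 ≤ M) : ((VV h M (2 * M)).card : ℝ) ≤ 3 * h := by
  unfold VV
  rw [Nat.card_Icc]
  have hM0 : 0 < M := by linarith
  have h1 : h * Real.log M < ⌊h * Real.log M⌋₊ + 1 := Nat.lt_floor_add_one _
  have h3 : 0 ≤ h * Real.log (2 * M) :=
    mul_nonneg (by linarith) (Real.log_nonneg (by linarith))
  have h2 : (⌊h * Real.log (2 * M)⌋₊ : ℝ) ≤ h * Real.log (2 * M) := Nat.floor_le h3
  have h4 : Real.log (2 * M) = Real.log 2 + Real.log M := Real.log_mul (by norm_num) hM0.ne'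
  have h5 : Real.log 2 ≤ 1 := by linarith [Real.log_two_lt_d9]
  have h6 : ((⌊h * Real.log (2 * M)⌋₊ + 1 - ⌊h * Real.log M⌋₊ : ℕ) : ℝ) ≤
      (⌊h * Real.log (2 * M)⌋₊ : ℝ) + 1 - ⌊h * Real.log M⌋₊ := by
    rcases le_total ⌊h * Real.log M⌋₊ (⌊h * Real.log (2 * M)⌋₊ + 1) with h7 | h7
    · rw [Nat.cast_sub h7]
      push_cast
      exact le_refl _
    · exfalso
      have h8 : h * Real.log M ≤ h * Real.log (2 * M) := by
        rw [h4]
        have : 0 ≤ Real.log 2 := Real.log_nonneg (by norm_num)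
        nlinarith
      have h9 := Nat.floor_le_floor h8
      omega
  refine h6.trans ?_
  have h10 : h * Real.log (2 * M) = h * Real.log 2 + h * Real.log M := by rw [h4]; ring
  have h11 : h * Real.log 2 ≤ h := by nlinarith
  linarith

lemma GP_card {M : ℝ} (hM : 0 ≤ M) : ((GP M (2 * M)).card : ℝ) ≤ 18 * M := by
  have h1 : ((GP M (2 * M)).card : ℝ) ≤ ((disc (2 * M)).card : ℝ) := by
    exact_mod_cast card_le_card (filter_subset _ _)
  have h2 := card_disc_le (x := 2 * M) (by linarith)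
  linarith

lemma cell_sum {m : Gi} {i : Ix} (hχ : ChiG m i.2.1) {h M : ℝ} (hM : 0 ≤ M) (v : ℕ) :
    ‖∑ π ∈ cell h M (2 * M) v, psi i π‖ ≤ 18 * M := by
  calc ‖∑ π ∈ cell h M (2 * M) v, psi i π‖ ≤ ∑ π ∈ cell h M (2 * M) v, (1 : ℝ) :=
        norm_sum_le_of_le _ fun π _ => X.PSIM.norm_psi_le hχ π
    _ = ((cell h M (2 * M) v).card : ℝ) := by simp
    _ ≤ ((GP M (2 * M)).card : ℝ) := by exact_mod_cast card_le_card (filter_subset _ _)
    _ ≤ 18 * M := GP_card hM

/-- sizes -/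
structure Sz (p : Par) : Prop where
  s : Siz p
  m2 : 8 * p.N ≤ p.M2

lemma sz {p : Par} (hp : Siz p) : Sz p := by
  have hN := hp.N
  have hP := hp.P
  have hT := hp.T
  refine ⟨hp, ?_⟩
  unfold Par.M2
  rw [le_div_iff₀ (by linarith)]
  nlinarith

/-- the radial cells -/
lemma geom {p : Par} (hp : Sz p) {v : ℕ} (h2 : v ∈ I2 p) :
    p.M2 / 3 ≤ Real.exp ((v : ℝ) / p.h) ∧ Real.exp (((v : ℝ) + 1) / p.h) ≤ 6 * p.M2 := by
  have hN := hp.s.N
  have hm2 : 1 ≤ p.M2 := by linarith [hp.m2]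
  obtain ⟨b1, b2⟩ := VV_mem hp.s.h hm2 h2
  have hh := hp.s.h
  have e2 : Real.exp (((v : ℝ) + 1) / p.h) = Real.exp (v / p.h) * Real.exp (1 / p.h) := by
    rw [← Real.exp_add]
    congr 1
    ring
  have e3 : Real.exp (1 / p.h) ≤ 3 := by
    refine le_trans (Real.exp_le_exp.2 ?_) exp_one_le
    rw [div_le_one (by linarith)]
    exact hh
  refine ⟨b1, ?_⟩
  rw [e2]
  calc Real.exp (v / p.h) * Real.exp (1 / p.h) ≤ (2 * p.M2) * 3 :=
        mul_le_mul b2 e3 (Real.exp_pos _).le (by linarith)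
    _ = 6 * p.M2 := by ring

/-- the support of `kap` -/
lemma sub_SJ {p : Par} (hp : Sz p) {m j v : ℕ} (h2 : v ∈ I2 p) (e2 : v / m = j) {z : Gi}
    (hz : z ∈ lc p.h v) (hr : rgh p.w z) : z ∈ SJ p m j := by
  classical
  have hh0 : 0 < p.h := by linarith [hp.s.h]
  obtain ⟨z0, -, z2⟩ := (X.RRAM.mem_lc hh0 _ z).1 hz
  have g := (geom hp h2).2
  unfold lc at hz
  rw [mem_filter] at hz
  unfold SJ
  rw [mem_filter, mem_disc]
  have hP := hp.s.P
  have hN := hp.s.N
  have hT := hp.s.T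
  refine ⟨⟨z0, ?_⟩, hr, ?_⟩
  · refine z2.le.trans (g.trans ?_)
    unfold MM' Par.M2
    rw [← mul_div_assoc, div_le_div_iff₀ (by linarith) (by linarith)]
    have : 0 ≤ p.N * p.T * p.P := by
      have : 0 ≤ p.T := by linarith
      positivity
    nlinarith
  · rw [hz.2]
    exact e2

/-- the size conditions -/
lemma siz {δ cP cT cB ch cw : ℝ} (hδ : δ ≤ 1 / 10) (hch : 1 ≤ ch) (hcP : 1 ≤ cP) (hcw : 1 ≤ cw)
    (h1 : cw + 1 ≤ cP) (h2 : 1 ≤ cT) : ∀ᶠ N : ℝ in atTop, ∀ T P B : ℝ, Box δ cP cT cB N T P B →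
      Siz (par N T P ch cw) := by
  have ev1 := (isLittleO_log_rpow_rpow_atTop cw (show (0 : ℝ) < 1 by norm_num)).bound
    (show (0 : ℝ) < 1 / 2 by norm_num)
  have ev2 := (tendsto_rpow_atTop (show (0 : ℝ) < 4 / 5 by norm_num)).eventually_ge_atTop (100 : ℝ)
  filter_upwards [ev1, ev2, eventually_ge_atTop (100 : ℝ),
    Real.tendsto_log_atTop.eventually_ge_atTop 64] with N g1 g2 hN hL
  intro T P B hB
  have hL0 : 0 < Real.log N := by linarith
  have hL1 : 1 ≤ Real.log N := by linarith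
  have hN0 : 0 < N := by linarith
  rw [Real.norm_of_nonneg (by positivity), Real.norm_of_nonneg (by positivity)] at g1
  have pw : ∀ a : ℝ, 1 ≤ a → Real.log N ≤ Real.log N ^ a := fun a ha => by
    calc Real.log N = Real.log N ^ (1 : ℝ) := (Real.rpow_one _).symm
      _ ≤ Real.log N ^ a := Real.rpow_le_rpow_of_exponent_le hL1 ha
  have hP0 : 64 ≤ P := (hL.trans (pw cP hcP)).trans hB.P1
  have hT64 : 64 * P ≤ T := by
    refine le_trans ?_ hB.T1
    rw [mul_comm]
    exact mul_le_mul_of_nonneg_left (hL.trans (pw cT h2)) (by linarith)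
  refine ⟨hN, ?_, ?_, ?_, ?_, ?_, ?_, ?_⟩
  · exact le_trans hL1 (pw ch hch)
  · exact le_trans (by linarith) (pw cw hcw)
  · show 2 ≤ P
    linarith
  · show Real.log N ^ cw < P
    refine lt_of_lt_of_le ?_ hB.P1
    exact Real.rpow_lt_rpow_of_exponent_lt (by linarith) (by linarith)
  · exact hT64
  · show Real.log N ^ cw < N
    rw [Real.rpow_one] at g1
    linarith
  · show 100 * T ^ 2 ≤ N
    have hT0 : 0 ≤ T := by linarith
    have h3 : T ≤ N ^ (1 / 10 : ℝ) :=
      hB.T2.trans (Real.rpow_le_rpow_of_exponent_le (by linarith) hδ)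
    have h4 : T ^ 2 ≤ N ^ (1 / 5 : ℝ) := by
      calc T ^ 2 ≤ (N ^ (1 / 10 : ℝ)) ^ 2 := pow_le_pow_left₀ hT0 h3 2
        _ = N ^ (1 / 5 : ℝ) := by
          rw [← Real.rpow_natCast, ← Real.rpow_mul hN0.le]
          norm_num
    have h5 : 0 < N ^ (1 / 5 : ℝ) := by positivity
    calc 100 * T ^ 2 ≤ N ^ (4 / 5 : ℝ) * N ^ (1 / 5 : ℝ) :=
          mul_le_mul g2 h4 (by positivity) (by linarith)
      _ = N := by
          rw [← Real.rpow_add hN0]
          norm_num

/-- the coefficients of the model -/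
lemma cc_bound {δ cP cT cB ch cw : ℝ} (hδ : δ ≤ 1 / 10) (hch : 1 ≤ ch) (hcP : 1 ≤ cP)
    (hcw : 1 ≤ cw) (h1 : cw + 1 ≤ cP) (h2 : 1 ≤ cT) :
    ∀ᶠ N : ℝ in atTop, ∀ T P B : ℝ, Box δ cP cT cB N T P B → Sz (par N T P ch cw) ∧
      ∀ v ∈ I2 (par N T P ch cw), ∀ (m : Gi) (i : Ix), ChiG m i.2.1 →
        ‖X3.cc (par N T P ch cw) i v‖ ≤ 144 * Real.exp 54 * Real.log N ^ (ch + 72 * cw) := by
  obtain ⟨c, hc0, hc1, hmain⟩ := X.RRAM.main X.hm_rg0 cw (by linarith)
  have hκ0 : (0 : ℝ) < 1 / 4 * Real.exp (-54) := by positivity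
  have ev2 := (isLittleO_log_rpow_rpow_atTop (ch + 72 * cw)
    (show (0 : ℝ) < 1 / 3 * c by positivity)).bound hκ0
  filter_upwards [siz (cB := cB) hδ hch hcP hcw h1 h2, hmain cT cP ch hch, ev2,
    Real.tendsto_log_atTop.eventually_ge_atTop 4] with N hs' hm g2 hL4
  intro T P B hB
  have hs := hs' T P B hB
  have hz := sz hs
  refine ⟨hz, fun v hv m i hχ => ?_⟩
  have hN100 : (100 : ℝ) ≤ N := hs.N
  have hN0 : 0 < N := by linarith
  have hL0 : 0 < Real.log N := by linarith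
  have hL1 : 1 ≤ Real.log N := by linarith
  have hh4 : 4 ≤ Real.log N ^ ch := by
    calc (4 : ℝ) ≤ Real.log N := hL4
      _ = Real.log N ^ (1 : ℝ) := (Real.rpow_one _).symm
      _ ≤ Real.log N ^ ch := Real.rpow_le_rpow_of_exponent_le hL1 hch
  have hw1 : 1 ≤ Real.log N ^ cw := Real.one_le_rpow hL1 (by linarith)
  have hV := XM.RRAM.VP_ge hw1
  have hV0 : 0 < VP (Real.log N ^ cw) := lt_of_lt_of_le (by positivity) hV
  obtain ⟨k1, -⟩ := geom hz hv
  have hm2 : 8 * N ≤ (par N T P ch cw).M2 := hz.m2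
  have k1' : (par N T P ch cw).M2 / 3 ≤ Real.exp ((v : ℝ) / Real.log N ^ ch) := k1
  have hEN : N ^ (1 / 3 : ℝ) ≤ Real.exp ((v : ℝ) / Real.log N ^ ch) := by
    calc N ^ (1 / 3 : ℝ) ≤ N ^ (1 : ℝ) :=
          Real.rpow_le_rpow_of_exponent_le (by linarith) (by norm_num)
      _ = N := Real.rpow_one N
      _ ≤ (par N T P ch cw).M2 / 3 := by linarith
      _ ≤ _ := k1'
  have hm1 := hm v hEN
  set E : ℝ := Real.exp ((v : ℝ) / Real.log N ^ ch) with hE
  have hE0 : 0 < E := Real.exp_pos _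
  have hx : Real.exp (((v : ℝ) + 1) / Real.log N ^ ch) = E * Real.exp (1 / Real.log N ^ ch) := by
    rw [hE, ← Real.exp_add]
    congr 1
    ring
  rw [hx] at hm1
  rw [Real.norm_of_nonneg (by positivity), Real.norm_of_nonneg (by positivity)] at g2
  set V := VP (Real.log N ^ cw) with hVdef
  have hVi : Real.log N ^ ch / V ≤ Real.exp 54 * Real.log N ^ (ch + 72 * cw) := by
    have h6 : Real.log N ^ ch / V ≤
        Real.log N ^ ch / (Real.exp (-54) * (Real.log N ^ cw) ^ (-72 : ℝ)) :=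
      div_le_div_of_nonneg_left (by positivity) (by positivity) hV
    refine h6.trans (le_of_eq ?_)
    have h7 : (Real.log N ^ cw) ^ (-72 : ℝ) = (Real.log N ^ (72 * cw))⁻¹ := by
      rw [← Real.rpow_mul hL0.le, ← Real.rpow_neg hL0.le]
      congr 1
      ring
    rw [h7, Real.exp_neg, Real.rpow_add hL0]
    have : 0 < Real.log N ^ (72 * cw) := by positivity
    have : 0 < Real.exp 54 := Real.exp_pos _
    field_simp
  have key : |RR (par N T P ch cw) v * (Real.log N ^ ch) / (Real.pi * E * V) - 1| ≤ 1 / 2 := by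
    refine XM.RRAM.core (h := Real.log N ^ ch) (c := c) hV0 hE0 (by linarith) hm1 ?_ ?_
    · rw [div_le_iff₀ (by linarith)]
      linarith
    · have h5 : N ^ (1 / 3 * c) ≤ E ^ c := by
        rw [Real.rpow_mul hN0.le]
        exact Real.rpow_le_rpow (by positivity) hEN hc0.le
      refine hVi.trans ?_
      calc Real.exp 54 * Real.log N ^ (ch + 72 * cw) ≤
          Real.exp 54 * (1 / 4 * Real.exp (-54) * N ^ (1 / 3 * c)) :=
            mul_le_mul_of_nonneg_left g2 (Real.exp_pos _).le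
        _ = (Real.exp 54 * Real.exp (-54)) * (1 / 4) * N ^ (1 / 3 * c) := by ring
        _ = 1 / 2 / 2 * N ^ (1 / 3 * c) := by
            rw [← Real.exp_add]
            norm_num
        _ ≤ 1 / 2 / 2 * E ^ c := mul_le_mul_of_nonneg_left h5 (by norm_num)
  set R := RR (par N T P ch cw) v with hR
  set M := (par N T P ch cw).M2 with hMdef
  have hM0 : 0 < M := by linarith
  have hpi3 := Real.pi_gt_three
  have hRl : M * V / (2 * Real.log N ^ ch) ≤ R := by
    have h3 := (abs_le.1 key).1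
    have h4 : 1 / 2 ≤ R * Real.log N ^ ch / (Real.pi * E * V) := by linarith
    have hden : 0 < Real.pi * E * V := by positivity
    rw [le_div_iff₀ hden] at h4
    rw [div_le_iff₀ (by positivity)]
    have h5 : 3 * (M / 3) * V ≤ Real.pi * E * V := by
      refine mul_le_mul_of_nonneg_right ?_ hV0.le
      exact mul_le_mul hpi3.le k1' (by positivity) (by linarith)
    nlinarith
  have hR0 : 0 < R := lt_of_lt_of_le (by positivity) hRl
  have hS2 : ‖S2 (par N T P ch cw) i v‖ ≤ 72 * M := by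
    have h6 := cell_sum hχ (h := (par N T P ch cw).h) (M := (par N T P ch cw).M2) hM0.le v
    unfold S2
    rw [norm_mul]
    have : ‖(4 : ℂ)‖ = 4 := by simp
    rw [this]
    linarith
  unfold X3.cc
  rw [norm_div, Complex.norm_real, Real.norm_of_nonneg hR0.le, div_le_iff₀ hR0]
  calc ‖S2 (par N T P ch cw) i v‖ ≤ 72 * M := hS2
    _ = 144 * (Real.log N ^ ch / V) * (M * V / (2 * Real.log N ^ ch)) := by
        have : 0 < Real.log N ^ ch := by positivity
        field_simp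
        ring
    _ ≤ 144 * (Real.exp 54 * Real.log N ^ (ch + 72 * cw)) * R := by
        refine mul_le_mul (mul_le_mul_of_nonneg_left hVi (by norm_num)) hRl (by positivity)
          (by positivity)
    _ = _ := by ring

/-- the part of `kap` -/
lemma kap_sum {p : Par} (hp : Sz p) {U : Finset Ix} {m j v : ℕ} (h2 : v ∈ I2 p)
    (e2 : v / m = j) (i : Ix) {X0 C0 : ℝ} (hcc : ∀ u ∈ U, ‖X3.cc p u v‖ ≤ C0)
    (hR : ∀ (u : Ix) (S : Finset Gi), u ∈ U → (∀ z, z ∈ S ↔ z ∈ lc p.h v ∧ rgh p.w z) →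
      ‖∑ z ∈ S, psi i z * conj (psi u z)‖ ≤ X0) :
    ‖∑ z ∈ SJ p m j, kap p U v z * psi i z‖ ≤ U.card * (C0 * X0) := by
  classical
  set S : Finset Gi := (lc p.h v).filter (rgh p.w) with hS
  have hSm : ∀ z, z ∈ S ↔ z ∈ lc p.h v ∧ rgh p.w z := fun z => by rw [hS, mem_filter]
  have hsub : S ⊆ SJ p m j := fun z hz => sub_SJ hp h2 e2 ((hSm z).1 hz).1 ((hSm z).1 hz).2
  have e1 : ∑ z ∈ SJ p m j, kap p U v z * psi i z = ∑ z ∈ S, kap p U v z * psi i z := by
    symm
    refine Finset.sum_subset hsub fun z _ hz => ?_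
    unfold kap
    rw [if_neg fun h => hz ((hSm z).2 h), zero_mul]
  have e3 : ∑ z ∈ S, kap p U v z * psi i z =
      ∑ u ∈ U, X3.cc p u v * ∑ z ∈ S, psi i z * conj (psi u z) := by
    calc ∑ z ∈ S, kap p U v z * psi i z =
        ∑ z ∈ S, ∑ u ∈ U, X3.cc p u v * (psi i z * conj (psi u z)) := by
          refine sum_congr rfl fun z hz => ?_
          unfold kap
          rw [if_pos ((hSm z).1 hz), Finset.sum_mul]
          refine sum_congr rfl fun u _ => ?_
          ring
      _ = ∑ u ∈ U, ∑ z ∈ S, X3.cc p u v * (psi i z * conj (psi u z)) := Finset.sum_comm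
      _ = _ := by
          refine sum_congr rfl fun u _ => ?_
          rw [Finset.mul_sum]
  rw [e1, e3]
  refine (norm_sum_le_of_le (f := fun u => X3.cc p u v * ∑ z ∈ S, psi i z * conj (psi u z))
    U (n := fun _ => C0 * X0) fun u hu => ?_).trans (le_of_eq ?_)
  · rw [norm_mul]
    exact mul_le_mul (hcc u hu) (hR u S hu hSm) (norm_nonneg _)
      ((norm_nonneg _).trans (hcc u hu))
  · rw [sum_const, nsmul_eq_mul]

end HTSM

open HTSM in
/-- **HTS** -/
theorem specHTS (hRGS : SpecRGS) (_hHJS : SpecHJS) (hETH : SpecETH) (_hBRG : SpecBRG) :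
    SpecHTS := by
  classical
  intro cw hcw
  obtain ⟨c, hc0, hc1, hR⟩ := hRGS cw hcw
  refine ⟨min (c / 2) (1 / 10), lt_min (by linarith) (by norm_num),
    (min_le_right _ _).trans (by norm_num), ?_⟩
  intro ch aQ aU hch hQ haQ δ cP cT cB hδ hδc hcP hwP hcT hcB
  have hδ1 : δ ≤ 1 / 10 := hδc.trans (min_le_right _ _)
  have hcc2 : min (c / 2) (1 / 10) ≤ c / 2 := min_le_left _ _
  set c' : ℝ := min (c / 2) (1 / 10) with hc'
  have hκ0 : (0 : ℝ) < 1 / (3 * (144 * Real.exp 54)) := by positivity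
  have ev := (isLittleO_log_rpow_rpow_atTop (ch + aU + (ch + 72 * cw))
    (show (0 : ℝ) < c / 2 by linarith)).bound hκ0
  have ev2 := (isLittleO_log_rpow_rpow_atTop aQ hc0).bound (show (0 : ℝ) < 1 by norm_num)
  filter_upwards [cc_bound (cB := cB) hδ1 hch hcP hcw hwP hcT, hR, ev, ev2,
    Real.tendsto_log_atTop.eventually_ge_atTop 4, eventually_ge_atTop (1 : ℝ)] with
    N hN hRN hev hev2 hL4 hN1
  intro T P B hB F U hF hU i m j hm hi1 hia hχ hk hI hD
  have hN0 : 0 < N := by linarith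
  have hL0 : 0 < Real.log N := by linarith
  have hL1 : 1 ≤ Real.log N := by linarith
  rw [Real.norm_of_nonneg (by positivity), Real.norm_of_nonneg (by positivity)] at hev hev2
  rw [one_mul] at hev2
  obtain ⟨hz, hcc⟩ := hN T P B hB
  set p := par N T P ch cw with hp
  set C0 : ℝ := 144 * Real.exp 54 * Real.log N ^ (ch + 72 * cw) with hC0
  have hC00 : 0 ≤ C0 := by positivity
  -- the two parts
  have hsplit : ∑ z ∈ SJ p m j, HJ p U m j z * psi i z =
      (∑ z ∈ SJ p m j, (∑ v ∈ (I2 p).filter (fun v => v / m = j), eta p v z) * psi i z) -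
      ∑ v ∈ (I2 p).filter (fun v => v / m = j), ∑ z ∈ SJ p m j, kap p U v z * psi i z := by
    have e1 : ∀ z, HJ p U m j z * psi i z =
        (∑ v ∈ (I2 p).filter (fun v => v / m = j), eta p v z) * psi i z -
        ∑ v ∈ (I2 p).filter (fun v => v / m = j), kap p U v z * psi i z := by
      intro z
      unfold HJ
      simp only [sum_sub_distrib, sub_mul, sum_mul]
    rw [sum_congr rfl fun z _ => e1 z, sum_sub_distrib]
    congr 1
    rw [sum_comm]
  have h1 := hETH p m j i hz.s hm hi1 hχ hI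
  have hkap : ∀ v ∈ (I2 p).filter (fun v => v / m = j),
      ‖∑ z ∈ SJ p m j, kap p U v z * psi i z‖ ≤ Real.log N ^ aU * (C0 * N ^ (1 - c)) := by
    intro v hv
    rw [mem_filter] at hv
    refine (kap_sum (X0 := N ^ (1 - c)) hz hv.1 hv.2 i (fun u hu =>
      hcc v hv.1 _ u (hU.ch u hu).2.2) (fun u S hu hS => ?_)).trans ?_
    · have hgeo := (geom hz hv.1).2
      have hle : Real.exp (((v : ℝ) + 1) / Real.log N ^ ch) ≤ N ^ (1 + c) := by
        have h3 : Real.exp (((v : ℝ) + 1) / Real.log N ^ ch) ≤ 6 * p.M2 := hgeo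
        refine h3.trans ?_
        show 6 * (N * T / (8 * P)) ≤ N ^ (1 + c)
        have hP : (2 : ℝ) ≤ P := hz.s.P
        have hT : 64 * P ≤ T := hz.s.T
        have hT0 : 0 ≤ T := by linarith
        have h4 : N * T / (8 * P) ≤ N * T / 16 := by
          refine div_le_div_of_nonneg_left (by positivity) (by norm_num) (by linarith)
        have h5 : N * T ≤ N ^ (1 + c) := by
          rw [Real.rpow_add hN0, Real.rpow_one]
          refine mul_le_mul_of_nonneg_left (hB.T2.trans ?_) hN0.le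
          exact Real.rpow_le_rpow_of_exponent_le hN1 (by linarith)
        have h6 : 0 ≤ N * T := by positivity
        linarith
      have hh1 : 1 ≤ Real.log N ^ ch := hz.s.h
      refine hRN i u (Real.log N ^ ch) v S hh1 hle
        ⟨hi1, hia.trans (Real.rpow_le_rpow_of_exponent_le hN1 (by linarith)), hχ, hk⟩
        ⟨(hU.ch u hu).1, (hU.ch u hu).2.1.trans hev2, (hU.ch u hu).2.2,
          (hU.frq u hu).trans hF⟩ (hD u hu) hS
    · exact mul_le_mul_of_nonneg_right hU.card (by positivity)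
  have hcard2 : (((I2 p).filter (fun v => v / m = j)).card : ℝ) ≤ 3 * Real.log N ^ ch := by
    have h3 : (((I2 p).filter (fun v => v / m = j)).card : ℝ) ≤ ((I2 p).card : ℝ) := by
      exact_mod_cast card_le_card (filter_subset _ _)
    exact h3.trans (VV_card hz.s.h (by linarith [hz.m2, hz.s.N]))
  have hsum : ‖∑ v ∈ (I2 p).filter (fun v => v / m = j),
      ∑ z ∈ SJ p m j, kap p U v z * psi i z‖ ≤ N ^ (1 - c') := by
    have hB0 : 0 ≤ Real.log N ^ aU * (C0 * N ^ (1 - c)) := by positivity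
    calc ‖∑ v ∈ (I2 p).filter (fun v => v / m = j),
        ∑ z ∈ SJ p m j, kap p U v z * psi i z‖ ≤
        ∑ v ∈ (I2 p).filter (fun v => v / m = j), Real.log N ^ aU * (C0 * N ^ (1 - c)) :=
          norm_sum_le_of_le _ fun v hv => hkap v hv
      _ = (((I2 p).filter (fun v => v / m = j)).card : ℝ) *
            (Real.log N ^ aU * (C0 * N ^ (1 - c))) := by
          simp only [sum_const, nsmul_eq_mul]
      _ ≤ (3 * Real.log N ^ ch) * (Real.log N ^ aU * (C0 * N ^ (1 - c))) :=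
          mul_le_mul_of_nonneg_right hcard2 hB0
      _ = 3 * (144 * Real.exp 54) * Real.log N ^ (ch + aU + (ch + 72 * cw)) * N ^ (1 - c) := by
          rw [hC0, Real.rpow_add hL0 (ch + aU), Real.rpow_add hL0 ch aU]
          ring
      _ ≤ N ^ (c / 2) * N ^ (1 - c) := by
          refine mul_le_mul_of_nonneg_right ?_ (by positivity)
          have h3 := mul_le_mul_of_nonneg_left hev
            (show (0 : ℝ) ≤ 3 * (144 * Real.exp 54) by positivity)
          refine h3.trans (le_of_eq ?_)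
          have : (0 : ℝ) < 3 * (144 * Real.exp 54) := by positivity
          field_simp
      _ = N ^ (1 - c / 2) := by
          rw [← Real.rpow_add hN0]
          congr 1
          ring
      _ ≤ N ^ (1 - c') := Real.rpow_le_rpow_of_exponent_le hN1 (by linarith)
  rw [hsplit, h1]
  refine (norm_sub_le _ _).trans ?_
  have h9 : ‖4 * G2 p m i j‖ = 4 * ‖G2 p m i j‖ := by
    rw [norm_mul]
    simp
  rw [h9]
  linarith

end Pool.Agent.Lib.MP391708.X3U
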