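import Pool.Agent.Lib.MP_391708_nt.X3.U.Spec
import Pool.Agent.Lib.MP_391708_nt.X.CELAll
import Pool.Agent.Lib.MP_391708_nt.MR.Basic

/-!
# THEOREM X for k = 3 (MP_391708), part U, module L2B (helper21): the mean square of the model (no hypotheses)
-/

set_option autoImplicit false

namespace Pool.Agent.Lib.MP391708.X3U

open Finset Filter Topology Pool.Agent.Lib.MP391708.MR
open Pool.Agent.Lib.MP391708.X (ChiG hk Dist Fam rgh Ix psi ix1 UOK lc On)
open Pool.Agent.Lib.MP391708.X3 (Par par Box RR S2 I2 eta kap Eta Kap Var cl Big cc)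
open scoped ComplexConjugate

namespace L2BM

/-! ### Combinatorial part -/

/-- sums with at most one nonzero term -/
theorem sq_sum_single (I : Finset ℕ) (f : ℕ → ℝ) (v₀ : ℕ) (h : ∀ v, v ≠ v₀ → f v = 0) :
    (∑ v ∈ I, f v) ^ 2 = ∑ v ∈ I, f v ^ 2 := by
  by_cases hv : v₀ ∈ I
  · rw [Finset.sum_eq_single_of_mem v₀ hv (fun v _ hne => h v hne),
      Finset.sum_eq_single_of_mem v₀ hv (fun v _ hne => by rw [h v hne]; norm_num)]
  · rw [Finset.sum_eq_zero (fun v hv' => h v (fun e => hv (e ▸ hv'))),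
      Finset.sum_eq_zero (fun v hv' => by rw [h v (fun e => hv (e ▸ hv'))]; norm_num)]
    norm_num

theorem kap_zero {p : Par} {U : Finset Ix} {v : ℕ} {z : Gi}
    (h : v ≠ ⌊p.h * Real.log (nm z)⌋₊) : kap p U v z = 0 := by
  unfold kap
  rw [if_neg]
  rintro ⟨h1, -⟩
  unfold lc at h1
  rw [mem_filter] at h1
  exact h h1.2.symm

open scoped Classical in
/-- the primes associated to `z` -/
noncomputable def DD (p : Par) (z : Gi) : Finset Gi :=
  (GP p.M2 (2 * p.M2)).filter (fun π => Associated π z)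

theorem DD_card (p : Par) (z : Gi) : ((DD p z).card : ℝ) ≤ 1 := by
  classical
  have h : (DD p z).card ≤ 1 := by
    rw [Finset.card_le_one]
    intro q hq q' hq'
    unfold DD at hq hq'
    rw [mem_filter] at hq hq'
    exact (GP_eq_of_dvd hq.1 hq'.1 (hq.2.trans hq'.2.symm).dvd).symm
  exact_mod_cast h

theorem eta_le (p : Par) (z : Gi) : ∑ v ∈ I2 p, ‖eta p v z‖ ≤ ((DD p z).card : ℝ) := by
  classical
  have key : ∀ v : ℕ, ‖eta p v z‖ =
      ∑ π ∈ DD p z, (if v = ⌊p.h * Real.log (nm π)⌋₊ then (1 : ℝ) else 0) := by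
    intro v
    unfold eta
    rw [Complex.norm_natCast, ← Finset.sum_filter, Finset.sum_const, nsmul_eq_mul, mul_one]
    have e1 : (cell p.h p.M2 (2 * p.M2) v).filter (fun π => Associated π z) =
        (DD p z).filter (fun π => v = ⌊p.h * Real.log (nm π)⌋₊) := by
      ext q
      simp only [DD, cell, mem_filter]
      constructor
      · rintro ⟨⟨a, b⟩, c⟩
        exact ⟨⟨a, c⟩, b.symm⟩
      · rintro ⟨⟨a, c⟩, b⟩
        exact ⟨⟨a, b.symm⟩, c⟩
    rw [← e1]
  rw [Finset.sum_congr rfl fun v _ => key v, Finset.sum_comm]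
  calc _ ≤ ∑ π ∈ DD p z, (1 : ℝ) := Finset.sum_le_sum (fun π _ => by
        rw [Finset.sum_ite_eq']
        split_ifs <;> norm_num)
    _ = ((DD p z).card : ℝ) := by simp

/-- at most four associates -/
theorem card_assoc (D : Finset Gi) (π : Gi) [DecidablePred (fun z : Gi => Associated π z)] :
    ((D.filter (fun z => Associated π z)).card : ℝ) ≤ 4 := by
  classical
  have h : D.filter (fun z => Associated π z) ⊆
      ({π, -π, π * ⟨0, 1⟩, π * ⟨0, -1⟩} : Finset Gi) := by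
    intro z hz
    rw [mem_filter] at hz
    obtain ⟨u, hu⟩ := hz.2
    have h1 : nm (u : Gi) = 1 := isUnit_iff_nm.1 u.isUnit
    simp only [mem_insert, mem_singleton]
    rcases unit_cases h1 with h2 | h2 | h2 | h2
    · left
      rw [← hu, h2, mul_one]
    · right; left
      rw [← hu, h2, mul_neg, mul_one]
    · right; right; left
      rw [← hu, h2]
    · right; right; right
      rw [← hu, h2]
  have h1 := (Finset.card_le_card h).trans Finset.card_le_four
  exact_mod_cast h1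

theorem sum_DD (p : Par) (D : Finset Gi) (hM : 0 ≤ p.M2) :
    ∑ z ∈ D, ((DD p z).card : ℝ) ≤ 72 * p.M2 := by
  classical
  have e1 : ∀ z : Gi, ((DD p z).card : ℝ) =
      ∑ π ∈ GP p.M2 (2 * p.M2), if Associated π z then (1 : ℝ) else 0 := by
    intro z
    rw [← Finset.sum_filter, Finset.sum_const, nsmul_eq_mul, mul_one]
    unfold DD
    congr 2
  rw [Finset.sum_congr rfl fun z _ => e1 z, Finset.sum_comm]
  have e2 : ∀ π ∈ GP p.M2 (2 * p.M2), ∑ z ∈ D, (if Associated π z then (1 : ℝ) else 0) ≤ 4 := by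
    intro π _
    rw [← Finset.sum_filter, Finset.sum_const, nsmul_eq_mul, mul_one]
    exact card_assoc D π
  refine (Finset.sum_le_sum e2).trans ?_
  rw [Finset.sum_const, nsmul_eq_mul]
  have h1 : ((GP p.M2 (2 * p.M2)).card : ℝ) ≤ ((disc (2 * p.M2)).card : ℝ) := by
    exact_mod_cast Finset.card_le_card (filter_subset _ _)
  have h2 := card_disc_le (show (0 : ℝ) ≤ 2 * p.M2 by positivity)
  linarith

/-- the reduction to single cells -/
theorem reduction (p : Par) (U : Finset Ix) (D : Finset Gi) (hM : 0 ≤ p.M2) :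
    ∑ z ∈ D, (∑ v ∈ I2 p, ‖eta p v z - kap p U v z‖) ^ 2 ≤
      144 * p.M2 + 2 * ∑ v ∈ I2 p, ∑ z ∈ D, ‖kap p U v z‖ ^ 2 := by
  have h1 : ∀ z ∈ D, (∑ v ∈ I2 p, ‖eta p v z - kap p U v z‖) ^ 2 ≤
      2 * ((DD p z).card : ℝ) + 2 * ∑ v ∈ I2 p, ‖kap p U v z‖ ^ 2 := by
    intro z _
    have a0 : 0 ≤ ∑ v ∈ I2 p, ‖eta p v z - kap p U v z‖ := Finset.sum_nonneg fun _ _ => norm_nonneg _
    have a1 : ∑ v ∈ I2 p, ‖eta p v z - kap p U v z‖ ≤
        ∑ v ∈ I2 p, ‖eta p v z‖ + ∑ v ∈ I2 p, ‖kap p U v z‖ := by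
      rw [← Finset.sum_add_distrib]
      exact Finset.sum_le_sum fun v _ => norm_sub_le _ _
    have a2 := eta_le p z
    have a3 := DD_card p z
    have a4 : 0 ≤ ∑ v ∈ I2 p, ‖eta p v z‖ := Finset.sum_nonneg fun _ _ => norm_nonneg _
    have a5 : 0 ≤ ∑ v ∈ I2 p, ‖kap p U v z‖ := Finset.sum_nonneg fun _ _ => norm_nonneg _
    rw [← sq_sum_single (I2 p) (fun v => ‖kap p U v z‖) ⌊p.h * Real.log (nm z)⌋₊
      (fun v hv => by rw [kap_zero hv, norm_zero])]
    have a6 : (∑ v ∈ I2 p, ‖eta p v z - kap p U v z‖) ^ 2 ≤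
        (∑ v ∈ I2 p, ‖eta p v z‖ + ∑ v ∈ I2 p, ‖kap p U v z‖) ^ 2 :=
      pow_le_pow_left₀ a0 a1 2
    have a7 : (∑ v ∈ I2 p, ‖eta p v z‖) ^ 2 ≤ ((DD p z).card : ℝ) := by
      have : (∑ v ∈ I2 p, ‖eta p v z‖) ^ 2 ≤ (∑ v ∈ I2 p, ‖eta p v z‖) * 1 := by
        rw [sq]
        exact mul_le_mul_of_nonneg_left (a2.trans a3) a4
      linarith
    nlinarith [sq_nonneg (∑ v ∈ I2 p, ‖eta p v z‖ - ∑ v ∈ I2 p, ‖kap p U v z‖)]
  refine (Finset.sum_le_sum h1).trans ?_
  rw [Finset.sum_add_distrib, ← Finset.mul_sum, ← Finset.mul_sum, Finset.sum_comm]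
  have h2 := sum_DD p D hM
  linarith

/-- `kap` on one cell -/
theorem kap_sum (p : Par) (U : Finset Ix) (v : ℕ) (D : Finset Gi) :
    ∑ z ∈ D, ‖kap p U v z‖ ^ 2 ≤
      ∑ z ∈ X.RRLM.SR p.h p.w v, ‖∑ i ∈ U, conj (cc p i v) * hk i.2.1 i.2.2 z‖ ^ 2 := by
  classical
  have h1 : ∀ z : Gi, kap p U v z ≠ 0 → z ∈ X.RRLM.SR p.h p.w v := by
    intro z hz
    unfold kap at hz
    by_contra hn
    refine hz (if_neg ?_)
    rintro ⟨a, b⟩
    refine hn ?_
    unfold X.RRLM.SR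
    rw [mem_filter]
    exact ⟨a, b⟩
  have h2 : ∑ z ∈ D, ‖kap p U v z‖ ^ 2 =
      ∑ z ∈ D.filter (fun z => z ∈ X.RRLM.SR p.h p.w v), ‖kap p U v z‖ ^ 2 := by
    rw [Finset.sum_filter_of_ne]
    intro z _ hz
    refine h1 z fun e => hz ?_
    rw [e]
    norm_num
  rw [h2]
  have h3 : D.filter (fun z => z ∈ X.RRLM.SR p.h p.w v) ⊆ X.RRLM.SR p.h p.w v := by
    intro z hz
    exact (mem_filter.1 hz).2
  refine (Finset.sum_le_sum_of_subset_of_nonneg h3 fun _ _ _ => sq_nonneg _).trans ?_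
  refine Finset.sum_le_sum fun z hz => ?_
  unfold X.RRLM.SR at hz
  rw [mem_filter] at hz
  have h4 : kap p U v z = ∑ i ∈ U, cc p i v * conj (psi i z) := by
    unfold kap
    exact if_pos hz
  have h5 : ‖kap p U v z‖ = ‖∑ i ∈ U, conj (cc p i v) * hk i.2.1 i.2.2 z‖ := by
    rw [h4, ← RCLike.norm_conj, map_sum]
    congr 1
    refine Finset.sum_congr rfl fun i _ => ?_
    rw [map_mul]
    unfold psi
    rw [RCLike.conj_conj]
  rw [h5]

/-! ### The Gram matrix on a cell -/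

theorem nm_nat (n : ℕ) : nm ((n : ℕ) : Gi) = n ^ 2 := by
  unfold nm
  simp only [Zsqrtd.re_natCast, Zsqrtd.im_natCast]
  norm_cast

/-- the Gram matrix of the rough numbers of a cell -/
theorem gram (ch cw aQ aU : ℝ) (hch : 1 ≤ ch) (hcw : 0 < cw) (haQ : 2 * aQ ≤ cw) :
    ∀ᶠ N : ℝ in atTop, ∀ (T P F : ℝ) (U : Finset Ix), F ≤ N ^ 2 →
      UOK (Real.log N ^ aQ) F (Real.log N ^ aU) U → ∀ v : ℕ,
      N ^ (1 / 3 : ℝ) ≤ Real.exp (v / Real.log N ^ ch) → ∀ a : Ix → ℂ,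
        ∑ z ∈ X.RRLM.SR (Real.log N ^ ch) (Real.log N ^ cw) v, ‖∑ i ∈ U, a i * hk i.2.1 i.2.2 z‖ ^ 2 ≤
          2 * RR (par N T P ch cw) v * ∑ i ∈ U, ‖a i‖ ^ 2 := by
  obtain ⟨c, hc, hc1, hG⟩ := X.hm_grm 6 (cw + 2) (by norm_num) (by linarith)
  obtain ⟨c0, C0, hc0, hC0, hR⟩ := X.ce_rrl
  obtain ⟨x0, hx0⟩ := eventually_atTop.1 hG
  have hT : Tendsto (fun N : ℝ => N ^ (1 / 3 : ℝ)) atTop atTop := tendsto_rpow_atTop (by norm_num)
  have hL : Tendsto Real.log atTop atTop := Real.tendsto_log_atTop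
  have ev1 := hT.eventually_ge_atTop x0
  have ev3 := ((tendsto_pow_atTop (α := ℝ) two_ne_zero).comp hL).eventually_ge_atTop
    ((3 : ℝ) ^ (cw + 2))
  have ev5 := (isLittleO_log_rpow_rpow_atTop (aU + ch + cw)
    (show (0 : ℝ) < 1 / 3 * c by positivity)).bound (show (0 : ℝ) < c0 / 3 by positivity)
  have ev6 := hL.eventually_ge_atTop (3 : ℝ)
  filter_upwards [ev1, ev3, ev5, ev6, hR 0 0 ch cw hch hcw, eventually_gt_atTop (1 : ℝ)] with
    N h1 h3 h5 h6 hRR h7
  intro T P F U hF hU j hj a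
  have hN0 : (0 : ℝ) < N := by linarith
  set L : ℝ := Real.log N with hLd
  have hL0 : 0 < L := by linarith
  simp only [Function.comp_apply] at h3
  have hLc : (1 : ℝ) ≤ L ^ ch := Real.one_le_rpow (by linarith) (by linarith)
  have hLc0 : 0 < L ^ ch := by linarith
  have hw1 : (1 : ℝ) < L ^ cw := Real.one_lt_rpow (by linarith) hcw
  have hlw : 0 < Real.log (L ^ cw) := Real.log_pos hw1
  rw [Real.norm_of_nonneg (by positivity), Real.norm_of_nonneg (by positivity)] at h5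
  obtain ⟨hlow, -⟩ := hRR j hj
  have hRe : X.RR (X.par N 0 0 ch cw) j = RR (par N T P ch cw) j := rfl
  rw [hRe] at hlow
  have hRc : RR (par N T P ch cw) j = ((X.RRLM.SR (L ^ ch) (L ^ cw) j).card : ℝ) := rfl
  set E : ℝ := Real.exp (j / L ^ ch) with hE
  have hE0 : 0 < E := Real.exp_pos _
  set x : ℝ := Real.exp ((j + 1) / L ^ ch) with hx
  have hxE : x = E * Real.exp (1 / L ^ ch) := by
    rw [hx, hE, ← Real.exp_add]
    congr 1
    ring
  have ht1 : 1 / L ^ ch ≤ 1 := by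
    rw [div_le_one hLc0]
    exact hLc
  have ht0 : 0 < 1 / L ^ ch := by positivity
  have hx3 : x ≤ 3 * E := by
    rw [hxE]
    have h8 : Real.exp (1 / L ^ ch) ≤ Real.exp 1 := Real.exp_le_exp.2 ht1
    have h9 := Real.exp_one_lt_d9
    have h10 : Real.exp (1 / L ^ ch) ≤ 3 := by linarith
    nlinarith
  have hEx : E ≤ x := by
    rw [hxE]
    have h8 : 1 ≤ Real.exp (1 / L ^ ch) := Real.one_le_exp ht0.le
    nlinarith
  have hj3 : L / 3 ≤ (j : ℝ) / L ^ ch := by
    have h8 := Real.log_le_log (by positivity) hj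
    rw [Real.log_exp, Real.log_rpow hN0] at h8
    rw [← hLd] at h8
    linarith
  have hwx : L ^ cw ≤ Real.log x ^ (cw + 2) := by
    rw [hx, Real.log_exp]
    have h8 : L / 3 ≤ ((j : ℝ) + 1) / L ^ ch := by
      have : (j : ℝ) / L ^ ch ≤ ((j : ℝ) + 1) / L ^ ch := by
        apply div_le_div_of_nonneg_right _ hLc0.le
        linarith
      linarith
    have h9 := Real.rpow_le_rpow (by positivity) h8 (show 0 ≤ cw + 2 by linarith)
    refine le_trans ?_ h9
    rw [Real.div_rpow hL0.le (by norm_num), le_div_iff₀ (by positivity), Real.rpow_add hL0]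
    have e : L ^ (2 : ℝ) = L ^ 2 := by norm_cast
    rw [e]
    exact mul_le_mul_of_nonneg_left h3 (by positivity)
  have hxx0 : x0 ≤ x := le_trans (le_trans h1 hj) hEx
  have hNx : N ^ (1 / 3 : ℝ) ≤ x := hj.trans hEx
  have hfam : Fam U (fun i : Ix => i.2.1) (fun i : Ix => i.2.2) (L ^ cw) (x ^ (6 : ℝ)) := by
    refine ⟨fun i hi => ?_, fun i hi => ?_, fun i hi j hj hij => hU.dif i hi j hj hij⟩
    · obtain ⟨g1, g2, g3⟩ := hU.ch i hi
      refine ⟨((i.1 : ℕ) : Gi), ?_, g3⟩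
      rw [nm_nat]
      push_cast
      calc (i.1 : ℝ) ^ 2 ≤ (L ^ aQ) ^ 2 := pow_le_pow_left₀ (by positivity) g2 2
        _ = L ^ (2 * aQ) := by
          rw [← Real.rpow_natCast, ← Real.rpow_mul hL0.le]
          congr 1
          push_cast
          ring
        _ ≤ L ^ cw := Real.rpow_le_rpow_of_exponent_le (by linarith) haQ
    · refine ((hU.frq i hi).trans hF).trans ?_
      calc N ^ 2 = (N ^ (1 / 3 : ℝ)) ^ (6 : ℝ) := by
            rw [← Real.rpow_mul hN0.le, ← Real.rpow_natCast]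
            norm_num
        _ ≤ x ^ (6 : ℝ) := Real.rpow_le_rpow (by positivity) hNx (by norm_num)
  have hc1' : (1 : ℝ) ≤ E := by
    have : (0 : ℝ) ≤ (j : ℝ) / L ^ ch := by positivity
    rw [hE]
    exact Real.one_le_exp this
  have k1 : E ≤ (⌈E⌉ : ℝ) := Int.le_ceil E
  have k4 : (⌈x⌉ : ℝ) < x + 1 := Int.ceil_lt_add_one x
  have k5 : (⌈E⌉ : ℝ) ≤ (⌈x⌉ : ℝ) := by exact_mod_cast Int.ceil_le_ceil hEx
  have hgr := hx0 x hxx0 Ix U (fun i => i.2.1) (fun i => i.2.2) (L ^ cw) hwx hfam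
    ((⌈E⌉ : ℝ) - 1) ((⌈x⌉ : ℝ) - 1) a (by linarith)
    (by linarith) (by linarith) (X.RRLM.SR (L ^ ch) (L ^ cw) j) (fun z => X.RRLM.mem_SR hLc j z)
  rw [← hRc] at hgr
  set A : ℝ := ∑ i ∈ U, ‖a i‖ ^ 2 with hA
  have hA0 : 0 ≤ A := Finset.sum_nonneg fun _ _ => sq_nonneg _
  have hNp : 0 < N ^ (1 / 3 * c) := by positivity
  have hR1 : x ^ (1 - c) * U.card ≤ RR (par N T P ch cw) j := by
    refine le_trans ?_ hlow
    have q1 : x ^ (1 - c) ≤ (3 * E) ^ (1 - c) :=
      Real.rpow_le_rpow (Real.exp_pos _).le hx3 (by linarith)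
    have q2 : (3 * E) ^ (1 - c) = 3 * E / (3 * E) ^ c := by
      rw [Real.rpow_sub (by positivity), Real.rpow_one]
    have q3 : N ^ (1 / 3 * c) ≤ (3 * E) ^ c := by
      rw [Real.rpow_mul hN0.le]
      exact Real.rpow_le_rpow (by positivity) (by linarith) hc.le
    have q4 : x ^ (1 - c) ≤ 3 * E / N ^ (1 / 3 * c) := by
      rw [q2] at q1
      exact q1.trans (div_le_div_of_nonneg_left (by positivity) hNp q3)
    have q5 : (U.card : ℝ) ≤ L ^ aU := hU.card
    have hd : 0 < L ^ ch * Real.log (L ^ cw) := by positivity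
    calc x ^ (1 - c) * U.card ≤ 3 * E / N ^ (1 / 3 * c) * L ^ aU :=
          mul_le_mul q4 q5 (by positivity) (by positivity)
      _ ≤ c0 * (E / (L ^ ch * Real.log (L ^ cw))) := by
          rw [div_mul_eq_mul_div, ← mul_div_assoc, div_le_div_iff₀ hNp hd]
          have r0 : Real.log (L ^ cw) ≤ L ^ cw := Real.log_le_self (by positivity)
          have r1 : L ^ aU * (L ^ ch * Real.log (L ^ cw)) ≤ L ^ (aU + ch + cw) := by
            rw [Real.rpow_add hL0, Real.rpow_add hL0, ← mul_assoc]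
            exact mul_le_mul_of_nonneg_left r0 (by positivity)
          have r2 : 3 * (L ^ aU * (L ^ ch * Real.log (L ^ cw))) ≤ c0 * N ^ (1 / 3 * c) := by
            linarith
          calc 3 * E * L ^ aU * (L ^ ch * Real.log (L ^ cw)) =
              E * (3 * (L ^ aU * (L ^ ch * Real.log (L ^ cw)))) := by ring
            _ ≤ E * (c0 * N ^ (1 / 3 * c)) := mul_le_mul_of_nonneg_left r2 hE0.le
            _ = c0 * E * N ^ (1 / 3 * c) := by ring
  have hfin := (abs_le.1 hgr).2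
  have h8 : x ^ (1 - c) * (U.card * A) ≤ RR (par N T P ch cw) j * A := by
    rw [← mul_assoc]
    exact mul_le_mul_of_nonneg_right hR1 hA0
  linarith

theorem card_VV {h M : ℝ} (hh : 1 ≤ h) (hM : 1 ≤ M) : ((VV h M (2 * M)).card : ℝ) ≤ 3 * h := by
  have hM0 : 0 < M := by linarith
  have l2 : Real.log (2 * M) = Real.log 2 + Real.log M :=
    Real.log_mul (by norm_num) hM0.ne'
  have hl2 : Real.log 2 < 1 := by
    have := Real.log_two_lt_d9
    linarith
  have hl20 : 0 < Real.log 2 := Real.log_pos (by norm_num)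
  have hlM : 0 ≤ Real.log M := Real.log_nonneg hM
  unfold VV
  rw [Nat.card_Icc]
  have a1 : (⌊h * Real.log (2 * M)⌋₊ : ℝ) ≤ h * Real.log (2 * M) :=
    Nat.floor_le (by rw [l2]; positivity)
  have a2 : h * Real.log M < ⌊h * Real.log M⌋₊ + 1 := Nat.lt_floor_add_one _
  have a3 : ⌊h * Real.log M⌋₊ ≤ ⌊h * Real.log (2 * M)⌋₊ := by
    apply Nat.floor_le_floor
    rw [l2]
    apply mul_le_mul_of_nonneg_left _ (by linarith)
    linarith
  rw [Nat.cast_sub (by omega)]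
  push_cast
  have a4 : h * Real.log (2 * M) = h * Real.log 2 + h * Real.log M := by
    rw [l2]
    ring
  have a5 : h * Real.log 2 ≤ h * 1 := mul_le_mul_of_nonneg_left hl2.le (by linarith)
  linarith

/-! ### One cell -/

theorem one_cell {C1 c0 N T P ch cw : ℝ} (hC1 : 0 < C1) (hc0 : 0 < c0) (U : Finset Ix)
    (hh : 1 ≤ Real.log N ^ ch) (hL : 1 < Real.log N) (hw : 0 < Real.log (Real.log N ^ cw))
    (hN3 : 0 < N ^ (1 / 3 : ℝ)) (hN : 3 * N ^ (1 / 3 : ℝ) ≤ (par N T P ch cw).M2)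
    (hS : ∀ v : ℕ, ∑ i ∈ U, ‖∑ π ∈ cell (Real.log N ^ ch) (par N T P ch cw).M2
      (2 * (par N T P ch cw).M2) v, psi i π‖ ^ 2 ≤
        C1 * ((par N T P ch cw).M2 / (Real.log N ^ ch * Real.log N)) ^ 2)
    (hR : ∀ j : ℕ, N ^ (1 / 3 : ℝ) ≤ Real.exp (j / Real.log N ^ ch) →
      c0 * (Real.exp (j / Real.log N ^ ch) / (Real.log N ^ ch * Real.log (Real.log N ^ cw))) ≤
        RR (par N T P ch cw) j)
    (hG : ∀ v : ℕ, N ^ (1 / 3 : ℝ) ≤ Real.exp (v / Real.log N ^ ch) → ∀ a : Ix → ℂ,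
        ∑ z ∈ X.RRLM.SR (Real.log N ^ ch) (Real.log N ^ cw) v, ‖∑ i ∈ U, a i * hk i.2.1 i.2.2 z‖ ^ 2 ≤
          2 * RR (par N T P ch cw) v * ∑ i ∈ U, ‖a i‖ ^ 2) (v : ℕ) (D : Finset Gi) :
    ∑ z ∈ D, ‖kap (par N T P ch cw) U v z‖ ^ 2 ≤
      96 * C1 / c0 * ((par N T P ch cw).M2 * Real.log (Real.log N ^ cw) /
        (Real.log N ^ ch * Real.log N ^ 2)) := by
  set p := par N T P ch cw with hp
  set L := Real.log N with hLd
  have hph : p.h = L ^ ch := rfl
  have hpw : p.w = L ^ cw := rfl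
  set h := L ^ ch with hhd
  set lw := Real.log (L ^ cw) with hlw
  have hh0 : 0 < h := by linarith
  have hL0 : 0 < L := by linarith
  have hM2 : 0 < p.M2 := by linarith
  have hRHS : 0 ≤ 96 * C1 / c0 * (p.M2 * lw / (h * L ^ 2)) := by positivity
  have key := kap_sum p U v D
  rw [hph, hpw] at key
  by_cases e2 : cell h p.M2 (2 * p.M2) v = ∅
  · refine key.trans ((le_of_eq ?_).trans hRHS)
    refine Finset.sum_eq_zero fun z _ => ?_
    have : ∑ i ∈ U, conj (cc p i v) * hk i.2.1 i.2.2 z = 0 := by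
      refine Finset.sum_eq_zero fun i _ => ?_
      have e3 : cc p i v = 0 := by
        unfold X3.cc S2
        rw [hph, e2]
        simp
      rw [e3]
      simp
    rw [this]
    norm_num
  obtain ⟨π2, hπ2⟩ := Finset.nonempty_iff_ne_empty.2 e2
  have g0 := X.KSBM.cell_lt hh0 hM2 hπ2
  set E : ℝ := Real.exp (v / h) with hE
  have hE0 : 0 < E := Real.exp_pos _
  have g1 : p.M2 ≤ 3 * E := by
    have e4 : Real.exp (((v : ℝ) + 1) / h) = E * Real.exp (1 / h) := by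
      rw [hE, ← Real.exp_add]
      congr 1
      ring
    have e5 : Real.exp (1 / h) ≤ Real.exp 1 := by
      apply Real.exp_le_exp.2
      rw [div_le_one hh0]
      exact hh
    have e6 := Real.exp_one_lt_d9
    rw [e4] at g0
    have e7 : Real.exp (1 / h) ≤ 3 := by linarith
    nlinarith
  have g2 : N ^ (1 / 3 : ℝ) ≤ E := by linarith
  have g3 := hR v g2
  have hlow : 0 < c0 * (E / (h * lw)) := by positivity
  have hRR : 0 < RR p v := hlow.trans_le g3
  refine key.trans ((hG v g2 (fun i => conj (cc p i v))).trans ?_)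
  have g4 : ∑ i ∈ U, ‖conj (cc p i v)‖ ^ 2 =
      16 * (∑ i ∈ U, ‖∑ π ∈ cell h p.M2 (2 * p.M2) v, psi i π‖ ^ 2) / RR p v ^ 2 := by
    rw [Finset.mul_sum, Finset.sum_div]
    refine Finset.sum_congr rfl fun i _ => ?_
    rw [RCLike.norm_conj]
    unfold X3.cc S2
    rw [norm_div, norm_mul, Complex.norm_real, Real.norm_of_nonneg hRR.le, div_pow, mul_pow, hph]
    norm_num
  have g5 := hS v
  rw [g4]
  have g6 : 2 * RR p v * (16 * (∑ i ∈ U, ‖∑ π ∈ cell h p.M2 (2 * p.M2) v, psi i π‖ ^ 2) / RR p v ^ 2) =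
      32 * (∑ i ∈ U, ‖∑ π ∈ cell h p.M2 (2 * p.M2) v, psi i π‖ ^ 2) / RR p v := by
    field_simp
    ring
  rw [g6, div_le_iff₀ hRR]
  calc 32 * (∑ i ∈ U, ‖∑ π ∈ cell h p.M2 (2 * p.M2) v, psi i π‖ ^ 2) ≤
        32 * (C1 * (p.M2 / (h * L)) ^ 2) := by linarith
    _ = 96 * C1 / c0 * (p.M2 * lw / (h * L ^ 2)) * (c0 * (p.M2 / 3 / (h * lw))) := by
        field_simp
        ring
    _ ≤ 96 * C1 / c0 * (p.M2 * lw / (h * L ^ 2)) * (c0 * (E / (h * lw))) := by
        refine mul_le_mul_of_nonneg_left ?_ hRHS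
        refine mul_le_mul_of_nonneg_left ?_ hc0.le
        refine div_le_div_of_nonneg_right ?_ (by positivity)
        linarith
    _ ≤ 96 * C1 / c0 * (p.M2 * lw / (h * L ^ 2)) * RR p v :=
        mul_le_mul_of_nonneg_left g3 hRHS

end L2BM

open L2BM in
/-- **L2B** -/
theorem specL2B : SpecL2B := by
  intro ch cw aQ aU hch haQ hcw _ _ δ cP cT cB _ _ _ _ hcT _
  obtain ⟨C1, hC1, hS⟩ := X.ce2_celb
  obtain ⟨c0, C0, hc0, _, hR⟩ := X.ce_rrl
  have hcw0 : 0 < cw := by linarith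
  have hT23 : Tendsto (fun N : ℝ => N ^ (2 / 3 : ℝ)) atTop atTop := tendsto_rpow_atTop (by norm_num)
  filter_upwards [hS ch aQ aU hch, hR 0 0 ch cw hch hcw0, gram ch cw aQ aU hch hcw0 haQ,
    X.KSBM.small (288 * C1 / c0) cw hcw0, Real.tendsto_log_atTop.eventually_ge_atTop 24,
    eventually_ge_atTop (1 : ℝ), hT23.eventually_ge_atTop 9] with N hS hR hG hs hL hN1 hN23
  intro T P B hB F U hF hU
  have hN0 : 0 < N := by linarith
  have hL0 : 0 < Real.log N := by linarith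
  have hh : 1 ≤ Real.log N ^ ch := Real.one_le_rpow (by linarith) (by linarith)
  have hw : 0 < Real.log (Real.log N ^ cw) := by
    rw [Real.log_rpow hL0]
    exact mul_pos hcw0 (Real.log_pos (by linarith))
  have hP : 0 < P := (Real.rpow_pos_of_pos hL0 _).trans_le hB.P1
  have hTP : 24 * P ≤ T := by
    refine le_trans ?_ hB.T1
    rw [mul_comm]
    refine mul_le_mul_of_nonneg_left ?_ hP.le
    calc (24 : ℝ) ≤ Real.log N := hL
      _ = Real.log N ^ (1 : ℝ) := (Real.rpow_one _).symm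
      _ ≤ Real.log N ^ cT := Real.rpow_le_rpow_of_exponent_le (by linarith) hcT
  have hM2 : (par N T P ch cw).M2 = N * T / (8 * P) := rfl
  have hMN : 3 * N ≤ (par N T P ch cw).M2 := by
    rw [hM2, le_div_iff₀ (by positivity)]
    nlinarith
  have hN3 : 0 < N ^ (1 / 3 : ℝ) := Real.rpow_pos_of_pos hN0 _
  have hN13 : N ^ (1 / 3 : ℝ) ≤ N := by
    calc N ^ (1 / 3 : ℝ) ≤ N ^ (1 : ℝ) := Real.rpow_le_rpow_of_exponent_le hN1 (by norm_num)
      _ = N := Real.rpow_one N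
  have hM3 : 3 * N ^ (1 / 3 : ℝ) ≤ (par N T P ch cw).M2 := by linarith
  have hM0 : 0 < (par N T P ch cw).M2 := by linarith
  have hM1 : 1 ≤ (par N T P ch cw).M2 := by linarith
  have hcell := one_cell hC1 hc0 U hh (by linarith) hw hN3 hM3
    (fun v => (hS F U hF hU (par N T P ch cw).M2 v (by linarith)).2.1)
    (fun j hj => (hR j hj).1) (fun v hv a => hG T P F U hF hU v hv a)
  have hred := reduction (par N T P ch cw) U (disc (MM' (par N T P ch cw))) hM0.le
  refine hred.trans ?_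
  have h1 : ∑ v ∈ I2 (par N T P ch cw), ∑ z ∈ disc (MM' (par N T P ch cw)),
      ‖kap (par N T P ch cw) U v z‖ ^ 2 ≤ (par N T P ch cw).M2 := by
    refine (Finset.sum_le_card_nsmul _ _ _ fun v _ => hcell v _).trans ?_
    rw [nsmul_eq_mul]
    have h2 : ((I2 (par N T P ch cw)).card : ℝ) ≤ 3 * Real.log N ^ ch := card_VV hh hM1
    have h3 : 0 ≤ 96 * C1 / c0 * ((par N T P ch cw).M2 * Real.log (Real.log N ^ cw) /
        (Real.log N ^ ch * Real.log N ^ 2)) := by positivity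
    refine (mul_le_mul_of_nonneg_right h2 h3).trans ?_
    have h4 : 3 * Real.log N ^ ch * (96 * C1 / c0 * ((par N T P ch cw).M2 *
        Real.log (Real.log N ^ cw) / (Real.log N ^ ch * Real.log N ^ 2))) =
        (288 * C1 / c0 * (Real.log (Real.log N ^ cw) / Real.log N ^ 2)) *
          (par N T P ch cw).M2 := by
      field_simp
      ring
    rw [h4]
    have h5 := mul_le_mul_of_nonneg_right hs hM0.le
    linarith
  have h6 : (par N T P ch cw).M2 = (N * T / P) / 8 := by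
    rw [hM2]
    field_simp
  have h7 : 0 ≤ N * T / P := by
    have : 0 ≤ T := by linarith
    positivity
  have h8 : 24 * (N * T / P) ≤ Real.log N * (N * T / P) := mul_le_mul_of_nonneg_right hL h7
  linarith

end Pool.Agent.Lib.MP391708.X3U
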