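import Pool.Agent.Lib.MP_391708_nt.X3.U.Spec
import Pool.Agent.Lib.MP_391708_nt.X.CELAll
import Pool.Agent.Lib.MP_391708_nt.MR.Basic

/-!
# THEOREM X3 (MP_391708), part U, module SUP: the pointwise bound (no hypotheses)

Useful elsewhere: `SUPM.box_M2` (`4 N ≤ M2`), `SUPM.RR_low` (`c M2 / (h log w) ≤ RR v` for a nonempty cell `v`), `SUPM.cc_small`
(`‖cc i v‖ ≤ C log w / log N`), `SUPM.cc_le_one` (`‖cc i v‖ ≤ 1`), `SUPM.sum_eta`, `SUPM.kap_zero`.
-/

set_option autoImplicit false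

namespace Pool.Agent.Lib.MP391708.X3U

open Finset Filter Topology Pool.Agent.Lib.MP391708.MR
open Pool.Agent.Lib.MP391708.X (ChiG hk Dist Fam rgh Ix psi ix1 UOK lc On)
open Pool.Agent.Lib.MP391708.X3 (Par par Box RR S2 I2 cc eta kap Eta Kap Var cl Big)
open scoped ComplexConjugate

namespace SUPM

/-- the size of `M2` in a box -/
lemma box_M2 {δ cP cT cB N T P B ch cw : ℝ} (hN : 1 ≤ N) (hL : 33 ≤ Real.log N) (hcT : 1 ≤ cT)
    (h : Box δ cP cT cB N T P B) : 4 * N ≤ (par N T P ch cw).M2 := by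
  have hN0 : 0 < N := by linarith
  have hL0 : 0 < Real.log N := by linarith
  have hP : 0 < P := (Real.rpow_pos_of_pos hL0 _).trans_le h.P1
  have h4 : 33 * P ≤ T := by
    refine le_trans ?_ h.T1
    rw [mul_comm]
    refine mul_le_mul_of_nonneg_left ?_ hP.le
    calc (33 : ℝ) ≤ Real.log N := hL
      _ = Real.log N ^ (1 : ℝ) := (Real.rpow_one _).symm
      _ ≤ Real.log N ^ cT := Real.rpow_le_rpow_of_exponent_le (by linarith) hcT
  show 4 * N ≤ N * T / (8 * P)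
  rw [le_div_iff₀ (by positivity)]
  calc 4 * N * (8 * P) = N * (32 * P) := by ring
    _ ≤ N * (33 * P) := by nlinarith [mul_pos hN0 hP]
    _ ≤ N * T := mul_le_mul_of_nonneg_left h4 hN0.le

/-- a nonempty cell -/
lemma exp_ge {h M M' : ℝ} (hh : 1 ≤ h) {v : ℕ} {π : Gi} (hM : 0 < M) (hπ : π ∈ cell h M M' v) :
    M / Real.exp 1 ≤ Real.exp (v / h) := by
  have h1 := X.KSBM.cell_lt (by linarith) hM hπ
  rw [div_le_iff₀ (Real.exp_pos _), ← Real.exp_add]
  refine h1.le.trans ?_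
  rw [Real.exp_le_exp]
  have h3 : 1 / h ≤ 1 := div_le_self (by norm_num) hh
  have h5 : ((v : ℝ) + 1) / h = v / h + 1 / h := by ring
  rw [h5]
  linarith

/-- the number of rough elements of the lattice cells, from below -/
lemma RR_low : ∃ c : ℝ, 0 < c ∧ ∀ ch cw : ℝ, 1 ≤ ch → 0 < cw → ∀ᶠ N : ℝ in atTop, ∀ T P : ℝ,
    4 * N ≤ (par N T P ch cw).M2 → ∀ (v : ℕ) (π : Gi),
    π ∈ cell (par N T P ch cw).h (par N T P ch cw).M2 (2 * (par N T P ch cw).M2) v →
    c * ((par N T P ch cw).M2 / (Real.log N ^ ch * Real.log (Real.log N ^ cw))) ≤ RR (par N T P ch cw) v := by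
  obtain ⟨c, C, hc, -, h⟩ := X.ce_rrl
  have hE : (0 : ℝ) < Real.exp 1 := Real.exp_pos _
  refine ⟨c / Real.exp 1, by positivity, fun ch cw hch hcw => ?_⟩
  filter_upwards [h 0 0 ch cw hch hcw, Real.tendsto_log_atTop.eventually_gt_atTop 1,
    eventually_ge_atTop (1 : ℝ)] with N hN hL hN1
  intro T P hM v π hπ
  have hL0 : 0 < Real.log N := by linarith
  have hh : 1 ≤ Real.log N ^ ch := Real.one_le_rpow hL.le (by linarith)
  have hh0 : 0 < Real.log N ^ ch := by linarith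
  have hw : 0 < Real.log (Real.log N ^ cw) := by
    rw [Real.log_rpow hL0]
    exact mul_pos hcw (Real.log_pos hL)
  have hM0 : 0 < (par N T P ch cw).M2 := by linarith
  have h1 : (par N T P ch cw).M2 / Real.exp 1 ≤ Real.exp (v / Real.log N ^ ch) := exp_ge hh hM0 hπ
  have h2 : N ^ (1 / 3 : ℝ) ≤ Real.exp (v / Real.log N ^ ch) := by
    refine le_trans ?_ h1
    rw [le_div_iff₀ hE]
    have e1 : Real.exp 1 ≤ 3 := by
      have := Real.exp_one_lt_d9
      linarith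
    have e2 : N ^ (1 / 3 : ℝ) ≤ N := by
      calc N ^ (1 / 3 : ℝ) ≤ N ^ (1 : ℝ) := Real.rpow_le_rpow_of_exponent_le hN1 (by norm_num)
        _ = N := Real.rpow_one _
    calc N ^ (1 / 3 : ℝ) * Real.exp 1 ≤ N * 3 :=
          mul_le_mul e2 e1 hE.le (by linarith)
      _ ≤ 4 * N := by linarith
      _ ≤ _ := hM
  have h3 := (hN v h2).1
  refine le_trans ?_ h3
  calc c / Real.exp 1 * ((par N T P ch cw).M2 / (Real.log N ^ ch * Real.log (Real.log N ^ cw)))
      = c * ((par N T P ch cw).M2 / Real.exp 1 / (Real.log N ^ ch * Real.log (Real.log N ^ cw))) := by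
        field_simp
    _ ≤ c * (Real.exp (v / Real.log N ^ ch) / (Real.log N ^ ch * Real.log (Real.log N ^ cw))) := by
        gcongr

/-- the mean square of the sums over the cells of `π₂` -/
lemma sum_S2 : ∃ C : ℝ, 0 < C ∧ ∀ ch cw aQ aU : ℝ, 1 ≤ ch → ∀ᶠ N : ℝ in atTop, ∀ T P : ℝ,
    4 * N ≤ (par N T P ch cw).M2 →
    ∀ (F : ℝ) (U : Finset Ix), F ≤ N ^ 2 → UOK (Real.log N ^ aQ) F (Real.log N ^ aU) U → ∀ v : ℕ,
      ∑ i ∈ U, ‖S2 (par N T P ch cw) i v‖ ^ 2 ≤
        C * ((par N T P ch cw).M2 / (Real.log N ^ ch * Real.log N)) ^ 2 := by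
  obtain ⟨C, hC, h⟩ := X.ce2_celb
  refine ⟨16 * C, by positivity, ?_⟩
  intro ch cw aQ aU hch
  filter_upwards [h ch aQ aU hch, eventually_ge_atTop (1 : ℝ)] with N hN hN1
  intro T P hM F U hF hU v
  have hM2 : N ^ (1 / 3 : ℝ) ≤ (par N T P ch cw).M2 := by
    calc N ^ (1 / 3 : ℝ) ≤ N ^ (1 : ℝ) := Real.rpow_le_rpow_of_exponent_le hN1 (by norm_num)
      _ = N := Real.rpow_one _
      _ ≤ 4 * N := by linarith
      _ ≤ _ := hM
  have a2 := (hN F U hF hU (par N T P ch cw).M2 v hM2).2.1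
  have e : ∀ i : Ix, ‖S2 (par N T P ch cw) i v‖ ^ 2 =
      16 * ‖∑ π ∈ cell (Real.log N ^ ch) (par N T P ch cw).M2 (2 * (par N T P ch cw).M2) v,
        psi i π‖ ^ 2 := by
    intro i
    show ‖4 * ∑ π ∈ cell (Real.log N ^ ch) (par N T P ch cw).M2
      (2 * (par N T P ch cw).M2) v, psi i π‖ ^ 2 = _
    rw [norm_mul, mul_pow]
    norm_num
  rw [Finset.sum_congr rfl fun i _ => e i, ← Finset.mul_sum, mul_assoc]
  exact mul_le_mul_of_nonneg_left a2 (by norm_num)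

/-- the coefficients are small -/
lemma cc_small : ∃ C : ℝ, 0 < C ∧ ∀ ch cw aQ aU : ℝ, 1 ≤ ch → 0 < cw → ∀ᶠ N : ℝ in atTop, ∀ T P : ℝ,
    4 * N ≤ (par N T P ch cw).M2 →
    ∀ (F : ℝ) (U : Finset Ix), F ≤ N ^ 2 → UOK (Real.log N ^ aQ) F (Real.log N ^ aU) U → ∀ i ∈ U, ∀ v : ℕ,
      ‖cc (par N T P ch cw) i v‖ ≤ C * (Real.log (Real.log N ^ cw) / Real.log N) := by
  obtain ⟨C, hC, hS⟩ := sum_S2
  obtain ⟨c, hc, hR⟩ := RR_low
  refine ⟨(C + 1) / c, by positivity, fun ch cw aQ aU hch hcw => ?_⟩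
  filter_upwards [hS ch cw aQ aU hch, hR ch cw hch hcw, Real.tendsto_log_atTop.eventually_gt_atTop 1,
    eventually_ge_atTop (1 : ℝ)] with N hS hR hL hN1
  intro T P hM F U hF hU i hi v
  have hL0 : 0 < Real.log N := by linarith
  have hh : 1 ≤ Real.log N ^ ch := Real.one_le_rpow hL.le (by linarith)
  have hh0 : 0 < Real.log N ^ ch := by linarith
  have hw : 0 < Real.log (Real.log N ^ cw) := by
    rw [Real.log_rpow hL0]
    exact mul_pos hcw (Real.log_pos hL)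
  have hM0 : 0 < (par N T P ch cw).M2 := by linarith
  by_cases e2 : cell (par N T P ch cw).h (par N T P ch cw).M2 (2 * (par N T P ch cw).M2) v = ∅
  · have : cc (par N T P ch cw) i v = 0 := by
      unfold X3.cc S2
      rw [e2]
      simp
    rw [this, norm_zero]
    positivity
  obtain ⟨π2, hπ2⟩ := Finset.nonempty_iff_ne_empty.2 e2
  have g3 := hR T P hM v π2 hπ2
  have hlow : 0 < c * ((par N T P ch cw).M2 / (Real.log N ^ ch * Real.log (Real.log N ^ cw))) := by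
    positivity
  have hRR : 0 < RR (par N T P ch cw) v := hlow.trans_le g3
  have g4 : ‖S2 (par N T P ch cw) i v‖ ^ 2 ≤
      ((C + 1) * ((par N T P ch cw).M2 / (Real.log N ^ ch * Real.log N))) ^ 2 := by
    calc ‖S2 (par N T P ch cw) i v‖ ^ 2 ≤ ∑ i ∈ U, ‖S2 (par N T P ch cw) i v‖ ^ 2 :=
          Finset.single_le_sum (f := fun i => ‖S2 (par N T P ch cw) i v‖ ^ 2)
            (fun _ _ => sq_nonneg _) hi
      _ ≤ C * ((par N T P ch cw).M2 / (Real.log N ^ ch * Real.log N)) ^ 2 := hS T P hM F U hF hU v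
      _ ≤ (C + 1) ^ 2 * ((par N T P ch cw).M2 / (Real.log N ^ ch * Real.log N)) ^ 2 := by
          apply mul_le_mul_of_nonneg_right _ (sq_nonneg _)
          nlinarith
      _ = _ := by rw [mul_pow]
  have g5 : ‖S2 (par N T P ch cw) i v‖ ≤
      (C + 1) * ((par N T P ch cw).M2 / (Real.log N ^ ch * Real.log N)) :=
    le_of_sq_le_sq g4 (by positivity)
  unfold X3.cc
  rw [norm_div, Complex.norm_real, Real.norm_of_nonneg hRR.le, div_le_iff₀ hRR]
  refine g5.trans ?_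
  calc (C + 1) * ((par N T P ch cw).M2 / (Real.log N ^ ch * Real.log N))
      = (C + 1) / c * (Real.log (Real.log N ^ cw) / Real.log N) *
          (c * ((par N T P ch cw).M2 / (Real.log N ^ ch * Real.log (Real.log N ^ cw)))) := by
        field_simp
    _ ≤ _ := mul_le_mul_of_nonneg_left g3 (by positivity)

lemma small (C cw : ℝ) : ∀ᶠ N : ℝ in atTop,
    C * (Real.log (Real.log N ^ cw) / Real.log N) ≤ 1 := by
  have h1 : Tendsto (fun x : ℝ => Real.log x / x ^ (1 : ℝ)) atTop (𝓝 0) :=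
    (isLittleO_log_rpow_atTop (by norm_num : (0 : ℝ) < 1)).tendsto_div_nhds_zero
  have h2 := (h1.const_mul (C * cw)).comp Real.tendsto_log_atTop
  rw [mul_zero] at h2
  filter_upwards [h2.eventually (gt_mem_nhds zero_lt_one), Real.tendsto_log_atTop.eventually_ge_atTop 1]
    with N hN hL
  have hL0 : 0 < Real.log N := by linarith
  rw [Real.log_rpow hL0]
  simp only [Function.comp, Real.rpow_one] at hN
  calc C * (cw * Real.log (Real.log N) / Real.log N)
      = C * cw * (Real.log (Real.log N) / Real.log N) := by ring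
    _ ≤ 1 := hN.le

/-- the coefficients are at most `1` -/
lemma cc_le_one (ch cw aQ aU : ℝ) (hch : 1 ≤ ch) (hcw : 0 < cw) : ∀ᶠ N : ℝ in atTop, ∀ T P : ℝ,
    4 * N ≤ (par N T P ch cw).M2 →
    ∀ (F : ℝ) (U : Finset Ix), F ≤ N ^ 2 → UOK (Real.log N ^ aQ) F (Real.log N ^ aU) U → ∀ i ∈ U, ∀ v : ℕ,
      ‖cc (par N T P ch cw) i v‖ ≤ 1 := by
  obtain ⟨C, hC, h⟩ := cc_small
  filter_upwards [h ch cw aQ aU hch hcw, small C cw] with N hN hs
  intro T P hM F U hF hU i hi v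
  exact (hN T P hM F U hF hU i hi v).trans hs

theorem kap_zero {p : Par} {U : Finset Ix} {v : ℕ} {z : Gi}
    (h : v ≠ ⌊p.h * Real.log (nm z)⌋₊) : kap p U v z = 0 := by
  unfold kap
  rw [if_neg]
  rintro ⟨h1, -⟩
  unfold lc at h1
  rw [mem_filter] at h1
  exact h h1.2.symm

lemma sum_kap {p : Par} {U : Finset Ix} {z : Gi} {B : ℝ} (hB : 0 ≤ B)
    (h : ∀ v, ‖kap p U v z‖ ≤ B) : ∑ v ∈ I2 p, ‖kap p U v z‖ ≤ B := by
  have h1 : ∀ v ∈ I2 p, v ≠ ⌊p.h * Real.log (nm z)⌋₊ → ‖kap p U v z‖ = 0 := by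
    intro v _ hne
    rw [kap_zero hne, norm_zero]
  by_cases h2 : ⌊p.h * Real.log (nm z)⌋₊ ∈ I2 p
  · rw [Finset.sum_eq_single_of_mem _ h2 h1]
    exact h _
  · rw [Finset.sum_eq_zero fun v hv => h1 v hv fun e => h2 (e ▸ hv)]
    exact hB

open scoped Classical in
/-- the sum of `eta` over all cells is at most `1` -/
lemma sum_eta {p : Par} (z : Gi) : ∑ v ∈ I2 p, ‖eta p v z‖ ≤ 1 := by
  set D : Finset Gi := (GP p.M2 (2 * p.M2)).filter (fun π => Associated π z) with hD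
  have hD1 : D.card ≤ 1 := by
    rw [Finset.card_le_one]
    intro q hq q' hq'
    rw [hD, mem_filter] at hq hq'
    exact (GP_eq_of_dvd hq.1 hq'.1 (hq.2.trans hq'.2.symm).dvd).symm
  have key : ∀ v : ℕ, ‖eta p v z‖ = ∑ q ∈ D,
      (if v = ⌊p.h * Real.log (nm q)⌋₊ then (1 : ℝ) else 0) := by
    intro v
    unfold eta
    rw [Complex.norm_natCast]
    have e1 : (cell p.h p.M2 (2 * p.M2) v).filter (fun q => Associated q z) =
        D.filter (fun q => v = ⌊p.h * Real.log (nm q)⌋₊) := by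
      ext q
      simp only [hD, cell, mem_filter]
      tauto
    rw [e1, Finset.card_filter]
    push_cast
    rfl
  rw [Finset.sum_congr rfl fun v _ => key v, Finset.sum_comm]
  calc ∑ q ∈ D, ∑ v ∈ I2 p, (if v = ⌊p.h * Real.log (nm q)⌋₊ then (1 : ℝ) else 0)
      ≤ ∑ q ∈ D, (1 : ℝ) := by
        refine Finset.sum_le_sum fun q _ => ?_
        rw [Finset.sum_ite_eq' (I2 p) ⌊p.h * Real.log (nm q)⌋₊ (fun _ => (1 : ℝ))]
        split_ifs <;> norm_num
    _ = (D.card : ℝ) := by simp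
    _ ≤ 1 := by exact_mod_cast hD1

/-- the pointwise bound of the model -/
lemma kap_le {N aQ aU F : ℝ} {p : Par} {U : Finset Ix} (hL : 0 < Real.log N)
    (hU : UOK (Real.log N ^ aQ) F (Real.log N ^ aU) U)
    (hc : ∀ i ∈ U, ∀ v : ℕ, ‖cc p i v‖ ≤ 1) (v : ℕ) (z : Gi) : ‖kap p U v z‖ ≤ Real.log N ^ aU := by
  unfold kap
  split_ifs with hz
  · refine (norm_sum_le _ _).trans ((Finset.sum_le_sum (g := fun _ => (1 : ℝ)) fun i hi => ?_).trans ?_)
    · rw [norm_mul, RCLike.norm_conj]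
      exact mul_le_one₀ (hc i hi v) (norm_nonneg _) ((X.ce_psi _ _ _ U hU i hi).2.1 z)
    · rw [Finset.sum_const, nsmul_eq_mul, mul_one]
      exact hU.card
  · rw [norm_zero]
    exact (Real.rpow_pos_of_pos hL _).le

end SUPM

open SUPM in
/-- **SUP** -/
theorem specSUP : SpecSUP := by
  intro ch cw aQ aU hch haQ hcw haQ1 haU δ cP cT cB hδ hδ1 hcP hcP' hcT hcB
  filter_upwards [cc_le_one ch cw aQ aU hch (by linarith), Real.tendsto_log_atTop.eventually_ge_atTop 33,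
    eventually_ge_atTop (1 : ℝ)] with N hN hL hN1
  intro T P B hB F U hF hU z
  have hM := box_M2 (ch := ch) (cw := cw) hN1 hL hcT hB
  have hL0 : 0 < Real.log N := by linarith
  have h0 : 0 < Real.log N ^ aU := Real.rpow_pos_of_pos hL0 _
  have h1 : 1 ≤ Real.log N ^ aU := Real.one_le_rpow (by linarith) (by linarith)
  have h2 := sum_kap h0.le (kap_le hL0 hU (hN T P hM F U hF hU) (z := z))
  have h3 := sum_eta (p := par N T P ch cw) z
  rw [Finset.sum_add_distrib, Real.rpow_add hL0]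
  have h4 : (2 : ℝ) ≤ Real.log N ^ (2 : ℝ) := by
    rw [Real.rpow_two]
    nlinarith
  have h5 := mul_le_mul_of_nonneg_left h4 h0.le
  linarith

end Pool.Agent.Lib.MP391708.X3U
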