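import Pool.Agent.Lib.MP_391708_nt.X3.U.Spec
import Pool.Agent.Lib.MP_391708_nt.X3.SpecV

/-!
# THEOREM X3 (MP_391708), part U, second half: the variance inequality is applied

Modules PRC, FIN: files `X3/U/XXX.lean`, `import Pool.Agent.Lib.MP_391708_nt.X3.U.Spec2`, namespace
`Pool.Agent.Lib.MP391708.X3U`, own lemmas in the namespace `XXXM`, `theorem specXXX (hYYY : SpecYYY) .. : SpecXXX`.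
-/

set_option autoImplicit false

namespace Pool.Agent.Lib.MP391708.X3U

open Finset Filter Topology Pool.Agent.Lib.MP391708.MR
open Pool.Agent.Lib.MP391708.X (ChiG hk Dist Fam rgh Ix psi ix1 UOK lc On)
open Pool.Agent.Lib.MP391708.X3 (Par par Box RR S2 I2 eta kap Eta Kap Var cl Big)
open Pool.Agent.Lib.MP391708.XV (md chs ph hat atyp)
open Pool.Agent.Lib.MP391708.XU (fn ixq GG Eqv SpecBRG SpecCON SpecNCD)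
open Pool.Agent.Lib.MP391708.XPU (SpecRGS SpecATY)
open scoped ComplexConjugate

/-- PRC (250 lines, from HJS, SUP, L2B).  The hypotheses of the variance inequality.
Proof.  As in `XP/U/PRC.lean`.  `p = par N T P ch cw`, `κ = 2`, `ρ = 1000`, `K = p.K`, `Y = 2NT`, `η = 3/hc`, `hc = ℓ^ch0` (coarse), `m = ⌊h/hc⌋ ≥ 1`, `M = MM'`,
`F = ℓ^(aU+2)`, `G = ℓ^2`, `T₀ = ⌊T/ℓ^a₀⌋`, `T₁ = ⌈4T⌉`, `Km = ⌊ℓ^aF N/B⌋`, `I = VV hc P 2P`, `P_i = cell hc P 2P i`, `L i j = e^(i/hc) e^(m j/h)`.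
`8Y = 16NT ≤ T₁² K` (`T₁ ≥ 4T`), `T₁² K ≤ 25 T² N/T ≤ 32NT`; `T₁ ≤ 5T ≤ B` (Box.B1); `32·1000·T₁ B ≤ 2NT` for `B ≤ 2√N`; `π Y ≤ 8 T₀ B Km` from
`T₀ ≥ T ℓ^(-a₀)/2` (`T ≥ ℓ^cT`, `cT ≥ a₀ + 2`) and `aF ≥ a₀ + 1`.  `L`: `i ≥ hc log P - 1`, `m j ≥ h log M₂ - m - 1`, so `L ≥ P M₂ e^(-1/hc - (m+1)/h) ≥ P M₂ e^(-3) ≥ NT/200 ≥ Y/ρ`
(`P M₂ = NT/8`); `L ≤ 2P · 2M₂ = NT/2`, `e^η L ≤ NT ≤ Y`.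
`hL'`: for `p ∈ P_i`: `e^(i/hc) ≤ nm p < e^((i+1)/hc)`; for `z ∈ SJ j`: `e^(m j/h) ≤ nm z < e^(m (j+1)/h)`, `m/h ≤ 1/hc`.
`hh`: HJS (3) and SUP.  `hG`: `∑_i #P_i = #GP P 2P ≤ 18 P`, `HH z ≤ ∑_j ‖HJ j z‖ ≤ ∑_v ‖eta v z - kap v z‖` (HJS (3)), L2B: `18 P · ℓ NT/P = 9 ℓ Y ≤ ℓ² Y`. -/
def SpecPRC : Prop := ∀ (ch0 a₀ aF aU aQ cw : ℝ), 1 ≤ ch0 → 0 < a₀ → a₀ + 1 ≤ aF → 2 * aQ ≤ cw → 1 ≤ cw → 1 ≤ aQ → 1 ≤ aU →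
  ∀ ch : ℝ, ch0 + 1 ≤ ch → ∀ δ cP cT cB : ℝ, 0 < δ → δ ≤ 1 / 100 → cw + 1 ≤ cP → a₀ + aF + 2 ≤ cT → 1 ≤ cB →
  ∀ᶠ N : ℝ in atTop, ∀ T P B : ℝ, Box δ cP cT cB N T P B → ∀ U : Finset Ix,
  UOK (Real.log N ^ aQ) (Real.log N ^ aF * (N / B)) (Real.log N ^ aU) U →
  XV3.Par3 2 1000 (par N T P ch cw).K (2 * N * T) B (3 / Real.log N ^ ch0) (par N T P ch cw).w
    (MM' (par N T P ch cw)) (Real.log N ^ (aU + 2)) (Real.log N ^ (2 : ℝ)) ⌊T / Real.log N ^ a₀⌋₊ ⌈4 * T⌉₊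
    ⌊Real.log N ^ aF * (N / B)⌋₊
    (VV (Real.log N ^ ch0) P (2 * P)) (JJ (par N T P ch cw) ⌊Real.log N ^ ch / Real.log N ^ ch0⌋₊)
    (fun i j => Real.exp (i / Real.log N ^ ch0) *
      Real.exp (⌊Real.log N ^ ch / Real.log N ^ ch0⌋₊ * j / Real.log N ^ ch))
    (fun i => cell (Real.log N ^ ch0) P (2 * P) i)
    (SJ (par N T P ch cw) ⌊Real.log N ^ ch / Real.log N ^ ch0⌋₊)
    (HJ (par N T P ch cw) U ⌊Real.log N ^ ch / Real.log N ^ ch0⌋₊)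

/-- FIN (350 lines, strong; from XV3.SpecVAR3, XV.SpecPHI, BRG, ATY, HJS, SUP, HTS, HTA, PRC, LNS, USET, VB2).  `X3.SpecVAR`.
Proof.  As in `X/U/FIN.lean`, `XP/U/FIN.lean`.  Given `A`.  Constants in this order: `a₀ = A + 12`; `ch0 = A + 2 a₀ + 14` (`η = 3/hc`); `nIJ = 2 ch0 + 1` (`#I #J ≤ ℓ^nIJ`:
`#I ≤ 2 hc`, `#J ≤ 4 hc`: the `v / m` for `v` in an interval of length `h log 2 + 1`, `m ≥ h/(2 hc)`); `A₄ = A + 2 nIJ + 20`, VB2: `A₃`, `A₁`; `aU = 2 A₁ + A₃ + 3`;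
`aF = A + 2 nIJ + a₀ + 2 aU + 30`; `aQ = A + 3 aU + 2 nIJ + 40`; `cw = 2 aQ + A + 3 aU + 2 nIJ + 40`; `c` = the least of the `c` of VB2, HTS, HTA, USET and `1/20`, divided by `4`; `δ0 = c/2`
(the `ch0` of `X3.SpecVAR` is `ch0 + 1`); then `ch`, `δ` are given; ATY with `c`: `cP0 ≥` max of everything and `(8/c)(A + 2 nIJ + 2 aU + 30)`; `cT0 = A + a₀ + aF + 2 aU + 20`, `cB0 = A + 2 nIJ + 2 aU + 2 a₀ + 30`.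
Let `N` be large, `Km = ⌊ℓ^aF N/B⌋ ≤ N`, `T₁ = ⌈4T⌉ ≤ 5 N^δ ≤ N^c`, `U`, `E` from USET (UOK with `Km ≤ ℓ^aF (N/B)`; weaken `frq`).  LNS and XV3.SpecVAR3 with PRC,
`τ = P^(1 - c/8)`.  `BY = 2 B N T = 2 B K T²`.  First part: `C (1+log Y)^5 BY (..) ≤ ℓ^8 B N T (..)`, and (with `G = ℓ²`)
`T₀ √(K/Y) ≤ ℓ^(-a₀)`; `η (Y/(T₀² K) + 1) ≤ (3/hc)(8 ℓ^(2 a₀) + 1)`; `B²/(KY) = B²/(2N²) ≤ 1/N`; with `F² = ℓ^(2 aU + 4)`: `T₁/B (1 + Y/(T₀²K)) ≤ (5T/B) 9 ℓ^(2 a₀) ≤ 45 ℓ^(2 a₀ - cB)`;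
`1/w`; `√(K/Y) ≤ 1/T ≤ ℓ^(-cT)`; `(#I#J)² τ² (M/Y)² = (#I#J)² P^(-c/4)`;
`(#I#J)² τ² T₁ M/(BY) ≤ ℓ^(2 nIJ) P² · 5T/(P B) ≤ 5 ℓ^(2 nIJ - cB)` (Box.B1); `(#I#J)² Y/(B Km) (1/B + 1/T₀) ≤ ℓ^(2 nIJ) · 4 T ℓ^(-aF) (1/B + 2 ℓ^a₀/T)`.
Second part: `t/ph t ≤ (1 + 2 log t)²/t ≤ ℓ²/t` (PHI; `log t ≤ log (5 N^δ) ≤ ℓ/4`), `∑_(t ≤ T₁) 1/t ≤ ℓ`.  `hat = ∑ f hk` (BRG).  `‖hat P_i‖ ≤ #P_i ≤ 18 P`.  For `q` with `ψ_q(i) ≠ 1`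
the sum over `S_j` of `HJ ψ_q` is `0` (HJS (4), `SJ` is invariant under `z ↦ i z`: apply it once, `(1 - ψ_q(i)) ∑ = 0`).  For the others, by USET three cases:
`q ∈ E t`: `‖hat HJ‖ ≤ ℓ^(aU+2) #S_j ≤ 9 ℓ^(aU+2) M` (SUP); `∑_t (ℓ²/t) #E t ≤ ℓ^(aU + 3 - aQ)`;
`q` = some `u ∈ U`: HTA: `‖hat HJ‖ ≤ ℓ^(aU+4) M/w + N^(1-c)` (`log t ≤ ℓ/4`); for every `t` at most `#U` such `q` (the `q` with the same `u` are equal, BRG);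
the others: HTS: `‖hat HJ‖² ≤ 32 ‖G2 q j‖² + 2 N^(2-2c)`, `∑_(q ∈ atyp, the others) ‖G2 q j‖² ≤ M₂² ℓ^(-A₄)` (VB2; `#atyp ≤ N^c`, ATY), and `#atyp N^(2-2c') ≤ N^(2 - c)`.
In all cases (`(18P)² MM'² ≤ 1500 Y²`, `P M₂ = NT/8 = Y/16`) the second part is at most
`C ℓ^nIJ (B/Y) · ℓ^nIJ · C Y² (ℓ^(3 aU + 8 - aQ) + ℓ^(3 aU + 14) /w² + ℓ^(4 - A₄) + N^(-c/2)) ≤ BY ℓ^(-A-1)`. -/
def SpecFIN : Prop := XV3.SpecVAR3 → XV.SpecPHI → SpecBRG → SpecATY → SpecHJS → SpecSUP → SpecHTS → SpecHTA →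
  SpecPRC → SpecLNS → SpecUSET → SpecVB2 → X3.SpecVAR

end Pool.Agent.Lib.MP391708.X3U
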