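import Pool.Agent.Lib.MP_391708_nt.X3.U.Spec
import Pool.Agent.Lib.MP_391708_nt.X.U.USET

/-!
# Theorem X3, part U, module USET: the set `U`
-/

set_option autoImplicit false

namespace Pool.Agent.Lib.MP391708.X3U

open Finset Filter Topology Pool.Agent.Lib.MP391708.MR
open Pool.Agent.Lib.MP391708.X (ChiG hk Dist Fam rgh Ix psi ix1 UOK lc On)
open Pool.Agent.Lib.MP391708.X3 (Par par Box RR S2 I2 eta kap Eta Kap Var cl Big)
open Pool.Agent.Lib.MP391708.XV (md chs ph hat atyp)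
open Pool.Agent.Lib.MP391708.XU (fn ixq GG Eqv SpecBRG SpecCON SpecNCD)
open Pool.Agent.Lib.MP391708.XU.USETM
open scoped ComplexConjugate

namespace USETM

theorem cl_sub {h : ℝ} (hh : 10 ≤ h) (v : ℕ) :
    cl h v ⊆ GP (10 / 11 * Real.exp (v / h)) (2 * (10 / 11 * Real.exp (v / h))) := by
  intro π hπ
  unfold cl at hπ
  rw [mem_filter, mem_GP] at hπ
  obtain ⟨⟨h1, h2, h3, h4, h5, h6⟩, h7⟩ := hπ
  have hh0 : 0 < h := by linarith
  have hE : 0 < Real.exp (v / h) := Real.exp_pos _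
  rw [mem_GP]
  refine ⟨h1, h2, h3, h4, ?_, ?_⟩
  · have hn1 : (1 : ℝ) ≤ nm π := by
      have := h3.one_lt
      exact_mod_cast this.le
    have h8 : 0 ≤ h * Real.log (nm π) := mul_nonneg hh0.le (Real.log_nonneg hn1)
    have h9 : (v : ℝ) ≤ h * Real.log (nm π) := by
      rw [← h7]
      exact Nat.floor_le h8
    have h10 : (v : ℝ) / h ≤ Real.log (nm π) := by
      rw [div_le_iff₀ hh0]
      linarith
    have h11 : Real.exp (v / h) ≤ nm π := by
      calc Real.exp (v / h) ≤ Real.exp (Real.log (nm π)) := Real.exp_le_exp.2 h10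
        _ = nm π := Real.exp_log (by linarith)
    linarith
  · refine h6.trans ?_
    have h8 : ((v : ℝ) + 1) / h = v / h + 1 / h := by ring
    rw [h8, Real.exp_add]
    have h9 : Real.exp (1 / h) ≤ 10 / 9 := by
      have h10 : 1 / h ≤ 1 / 10 := one_div_le_one_div_of_le (by norm_num) hh
      have h11 := Real.add_one_le_exp (-(1 / h))
      have h12 : (9 : ℝ) / 10 ≤ Real.exp (-(1 / h)) := by linarith
      have h13 : Real.exp (1 / h) * Real.exp (-(1 / h)) = 1 := by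
        rw [← Real.exp_add]
        simp
      have h14 : 0 < Real.exp (1 / h) := Real.exp_pos _
      nlinarith
    nlinarith

theorem cl_eq {h : ℝ} (hh : 10 ≤ h) {i w v : Ix} (a : ℕ) (hi : ChiG (i.1 : Gi) i.2.1)
    (hw : ChiG (w.1 : Gi) w.2.1) (hi0 : 1 ≤ i.1) (hw0 : 1 ≤ w.1)
    (hi2 : (i.1 : ℝ) ^ 2 ≤ 10 / 11 * Real.exp (a / h))
    (hw2 : (w.1 : ℝ) ^ 2 ≤ 10 / 11 * Real.exp (a / h)) (hc : Con w v)
    (hD : ¬ Dist i.2.1 v.2.1 i.2.2 v.2.2) :
    ∑ π ∈ cl h a, psi i π = ∑ π ∈ cl h a, psi w π := by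
  refine sum_congr rfl fun π hπ => ?_
  have hπ' := cl_sub hh a hπ
  have h1 : i.2.1 π ≠ 0 := (hi.supp π).2 (coprime_of_GP hπ' hi0 hi2)
  have h2 : w.2.1 π ≠ 0 := (hw.supp π).2 (coprime_of_GP hπ' hw0 hw2)
  have h3 : v.2.1 π = w.2.1 π := hc.eq π h2
  have h4 := not_dist hD
  have h5 := h4.2 π h1 (by rw [h3]; exact h2)
  unfold psi hk
  rw [h5, h3, h4.1, hc.frq]

/-- the size of the cells of `Big` -/
theorem cell_size {N h : ℝ} (hN : 1 ≤ N) (hl : 2000 ≤ Real.log N) (hh : 10 ≤ h) {v : ℕ}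
    (h1 : h * Real.log N / 10 ≤ v) (h2 : (v : ℝ) ≤ 12 / 10 * (h * Real.log N)) :
    N ^ (1 / 11 : ℝ) ≤ 10 / 11 * Real.exp (v / h) ∧ 10 / 11 * Real.exp (v / h) ≤ N ^ (2 : ℝ) := by
  have hN0 : 0 < N := by linarith
  have hh0 : 0 < h := by linarith
  constructor
  · have h3 : Real.log N / 10 ≤ v / h := by
      rw [le_div_iff₀ hh0]
      linarith
    have h4 : Real.exp (Real.log N / 10) ≤ Real.exp (v / h) := Real.exp_le_exp.2 h3
    have h5 : Real.exp (Real.log N / 10) = Real.exp (Real.log N / 11) * Real.exp (Real.log N / 110) := by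
      rw [← Real.exp_add]
      congr 1
      ring
    have h6 := Real.add_one_le_exp (Real.log N / 110)
    have h7 : (11 : ℝ) / 10 ≤ Real.exp (Real.log N / 110) := by linarith
    have h8 : N ^ (1 / 11 : ℝ) = Real.exp (Real.log N / 11) := by
      rw [Real.rpow_def_of_pos hN0]
      congr 1
      ring
    rw [h8]
    have h9 : 0 < Real.exp (Real.log N / 11) := Real.exp_pos _
    rw [h5] at h4
    nlinarith
  · have h3 : (v : ℝ) / h ≤ Real.log N * 2 := by
      rw [div_le_iff₀ hh0]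
      nlinarith
    have h4 : Real.exp (v / h) ≤ N ^ (2 : ℝ) := by
      rw [Real.rpow_def_of_pos hN0]
      exact Real.exp_le_exp.2 h3
    have h5 : 0 < Real.exp ((v : ℝ) / h) := Real.exp_pos _
    linarith

end USETM

open USETM in
/-- **USET** -/
theorem specUSET (hB : SpecBRG) (hC : SpecCON) (hL : SpecLVX) : SpecUSET := by
  classical
  obtain ⟨c1, hc1, hL⟩ := hL
  refine ⟨min c1 (1 / 25), by positivity, ?_⟩
  intro A₃ A₁ aQ hA₃ hA₁ haQ
  obtain ⟨u, hu⟩ := con_choice hC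
  filter_upwards [hL A₁ (by linarith),
    Real.tendsto_log_atTop.eventually_ge_atTop 2000, eventually_ge_atTop 1] with N h1 h3 h4
  intro T₁ Km hT1' hT2 hKm
  have hT1 : (T₁ : ℝ) ≤ N ^ c1 :=
    hT1'.trans (Real.rpow_le_rpow_of_exponent_le h4 (min_le_left _ _))
  have hT10 : (T₁ : ℝ) ≤ N ^ (1 / 25 : ℝ) :=
    hT1'.trans (Real.rpow_le_rpow_of_exponent_le h4 (min_le_right _ _))
  have hN0 : 0 < N := by linarith
  have hl : 0 < Real.log N := by linarith
  have hl1 : 1 ≤ Real.log N := by linarith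
  have hh1 : Real.log N ≤ Real.log N ^ A₃ := by
    calc Real.log N = Real.log N ^ (1 : ℝ) := (Real.rpow_one _).symm
      _ ≤ Real.log N ^ A₃ := Real.rpow_le_rpow_of_exponent_le hl1 hA₃
  have hx : ∃ h : ℝ, h = Real.log N ^ A₃ := ⟨_, rfl⟩
  obtain ⟨h, hh⟩ := hx
  have hh10 : 10 ≤ h := by
    rw [hh]
    linarith
  have hsq : ∀ t : ℕ, t ≤ T₁ → (t : ℝ) ^ 2 ≤ N ^ (1 / 11 : ℝ) := by
    intro t ht
    have h5 : (t : ℝ) ≤ N ^ (1 / 25 : ℝ) := le_trans (by exact_mod_cast ht) hT10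
    calc (t : ℝ) ^ 2 ≤ (N ^ (1 / 25 : ℝ)) ^ 2 := pow_le_pow_left₀ (Nat.cast_nonneg _) h5 2
      _ = N ^ (2 / 25 : ℝ) := by
          rw [← Real.rpow_natCast, ← Real.rpow_mul hN0.le]
          congr 1
          norm_num
      _ ≤ N ^ (1 / 11 : ℝ) := Real.rpow_le_rpow_of_exponent_le h4 (by norm_num)
  -- the large characters
  set C : Finset Ix := (Icc 1 T₁).biUnion (fun t => ((chs t ×ˢ IK Km).image (ixq t)).filter
    (fun i => psi i ⟨0, 1⟩ = 1 ∧ Lrg N A₃ A₁ i)) with hCdef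
  obtain ⟨W, hWC, hW2, hW3⟩ := exists_reps C
  have hmem : ∀ w ∈ W, 1 ≤ w.1 ∧ w.1 ≤ T₁ ∧ ChiG (w.1 : Gi) w.2.1 ∧ psi w ⟨0, 1⟩ = 1 ∧
      w.2.2 ∈ IK Km ∧ Lrg N A₃ A₁ w := by
    intro w hw
    have h5 := hWC hw
    rw [hCdef, mem_biUnion] at h5
    obtain ⟨t, ht, h6⟩ := h5
    rw [mem_filter, mem_image] at h6
    obtain ⟨⟨q, hq, rfl⟩, h7, h8⟩ := h6
    rw [mem_Icc] at ht
    rw [mem_product] at hq
    exact ⟨ht.1, ht.2, hB.1 t q.1 ht.1, h7, hq.2, h8⟩
  have hLt : ∀ (t : ℕ) (q : MulChar (Cls.RR (md t)) ℂ × ℤ), 1 ≤ t → t ≤ T₁ → ∀ w ∈ W,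
      ¬ Dist (fn t q.1) (u w).2.1 q.2 (u w).2.2 → Lrg N A₃ A₁ (ixq t q) := by
    intro t q ht1 ht2 w hw h5
    obtain ⟨h6, h7, h8, h9, h10, h11⟩ := hmem w hw
    have hc := hu w h6 h8
    rcases h11 with h12 | ⟨a, ha, ha', h12⟩
    · left
      have h13 := not_dist h12
      have h14 := hc.uni 1 (fun _ => 1) le_rfl chiG_one (fun z _ hz => (h13.2 z hz one_ne_zero).symm)
      have h15 := not_dist h5
      rintro (h16 | ⟨z, h16, h17, h18⟩)
      · apply h16
        show q.2 = 0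
        rw [h15.1, hc.frq]
        exact h13.1
      · apply h18
        have h19 : (u w).2.1 z = 1 := h14.2 z one_ne_zero
        have h20 := h15.2 z h16 (by rw [h19]; exact one_ne_zero)
        show fn t q.1 z = 1
        rw [h20, h19]
    · right
      refine ⟨a, ha, ha', ?_⟩
      rw [← hh] at ha ha' h12 ⊢
      have h13 := (cell_size h4 h3 hh10 ha ha').1
      have : ∑ π ∈ cl h a, psi (ixq t q) π = ∑ π ∈ cl h a, psi w π :=
        cl_eq hh10 (i := ixq t q) (w := w) (v := u w) a (hB.1 t q.1 ht1) h8 ht1 h6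
          ((hsq t ht2).trans h13) ((hsq w.1 h7).trans h13) hc h5
      rw [this]
      exact h12
  obtain ⟨U, hU, E, hE, hfin⟩ := main hB hT2 (Q := Real.log N ^ aQ)
    (Real.one_le_rpow hl1 (by linarith)) u (Lrg N A₃ A₁) W
    (fun w hw => hu w (hmem w hw).1 (hmem w hw).2.2.1)
    (fun w hw => ⟨(hmem w hw).2.2.2.1, (hmem w hw).2.2.2.2.1⟩) hW2
    (by
      intro t q ht1 ht2 hq1 hq2 hq3 hLq
      have h5 : ixq t q ∈ C := by
        rw [hCdef, mem_biUnion]
        exact ⟨t, mem_Icc.2 ⟨ht1, ht2⟩, mem_filter.2 ⟨mem_image_of_mem _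
          (mem_product.2 ⟨hq1, hq2⟩), hq3, hLq⟩⟩
      exact hW3 _ h5)
    (by
      have h5 : ix1 ∈ C := by
        rw [hCdef, mem_biUnion]
        refine ⟨1, mem_Icc.2 ⟨le_rfl, hT2⟩, mem_filter.2 ⟨mem_image.2 ⟨(1, 0), mem_product.2
          ⟨mem_chs le_rfl _, ?_⟩, ?_⟩, ?_, ?_⟩⟩
        · unfold IK
          rw [mem_Icc]
          constructor
          · simp
          · positivity
        · have h6 : fn 1 (1 : MulChar (Cls.RR (md 1)) ℂ) = fun _ => 1 := by
            funext z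
            unfold fn
            rw [MulChar.one_apply]
            have : Subsingleton (Cls.RR (md 1)) := by
              have h7 : Ideal.span {md 1} = ⊤ := by
                rw [Ideal.span_singleton_eq_top]
                have : md 1 = 1 := by simp [md]
                rw [this]
                exact isUnit_one
              rw [Ideal.Quotient.subsingleton_iff]
              exact h7
            exact isUnit_of_subsingleton _
          unfold ixq ix1
          rw [h6]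
        · unfold psi hk ix1
          simp [xi]
        · left
          rintro (h6 | ⟨z, _, _, h6⟩) <;> exact h6 rfl
      exact hW3 _ h5)
    hLt
  -- the size of `W`
  have hWcard : (W.card : ℝ) ≤ Real.log N ^ (2 * A₁ + A₃ + 2) := by
    have h5 : W ⊆ W.filter (fun w => Eqv w ix1) ∪ ((range (⌊12 / 10 * (h * Real.log N)⌋₊ + 1)).filter
        (fun v : ℕ => h * Real.log N / 10 ≤ (v : ℝ) ∧ (v : ℝ) ≤ 12 / 10 * (h * Real.log N))).biUnion
        (fun v : ℕ => W.filter (fun w => 10 / 11 * Real.exp (v / h) * Real.log N ^ (-A₁) <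
          ‖∑ π ∈ cl h v, psi w π‖)) := by
      intro w hw
      rw [mem_union, mem_biUnion]
      rcases (hmem w hw).2.2.2.2.2 with h6 | ⟨a, ha, ha', h6⟩
      · exact Or.inl (mem_filter.2 ⟨hw, h6⟩)
      · rw [← hh] at ha ha' h6
        refine Or.inr ⟨a, mem_filter.2 ⟨mem_range.2 (Nat.lt_succ_of_le (Nat.le_floor ha')), ha, ha'⟩,
          mem_filter.2 ⟨hw, lt_of_le_of_lt ?_ h6⟩⟩
        refine mul_le_mul_of_nonneg_right ?_ (by positivity)
        have : 0 < Real.exp ((a : ℝ) / h) := Real.exp_pos _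
        linarith
    have h6 : (W.filter (fun w => Eqv w ix1)).card ≤ 1 := by
      rw [card_le_one]
      intro w hw w' hw'
      rw [mem_filter] at hw hw'
      by_contra hne
      have h7 := not_dist hw.2
      have h8 := not_dist hw'.2
      rcases hW2 w hw.1 w' hw'.1 hne with h9 | ⟨z, h9, h10, h11⟩
      · exact h9 (h7.1.trans h8.1.symm)
      · exact h11 ((h7.2 z h9 one_ne_zero).trans (h8.2 z h10 one_ne_zero).symm)
    have h7 : ∀ v : ℕ, h * Real.log N / 10 ≤ (v : ℝ) → (v : ℝ) ≤ 12 / 10 * (h * Real.log N) →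
        ((W.filter (fun w => 10 / 11 * Real.exp (v / h) * Real.log N ^ (-A₁) <
          ‖∑ π ∈ cl h v, psi w π‖)).card : ℝ) ≤ 300 * Real.log N ^ (2 * A₁) := by
      intro v hv hv'
      have hcs := cell_size h4 h3 hh10 hv hv'
      refine h1 (10 / 11 * Real.exp (v / h)) _ (cl h v) hcs.1 hcs.2 (cl_sub hh10 v) ?_ ?_ ?_
      · intro i hi
        rw [mem_filter] at hi
        obtain ⟨h8, h9, h10, h11, h12, h13⟩ := hmem i hi.1
        refine ⟨h8, le_trans (by exact_mod_cast h9) hT1, h10, ?_⟩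
        unfold IK at h12
        rw [mem_Icc] at h12
        have h14 : |i.2.2| ≤ (Km : ℤ) := abs_le.2 h12
        have h15 : |(i.2.2 : ℝ)| ≤ Km := by exact_mod_cast h14
        nlinarith
      · intro i hi j hj hij
        exact hW2 i (mem_filter.1 hi).1 j (mem_filter.1 hj).1 hij
      · intro i hi
        exact (mem_filter.1 hi).2
    have h8 : (((range (⌊12 / 10 * (h * Real.log N)⌋₊ + 1)).filter
        (fun v : ℕ => h * Real.log N / 10 ≤ (v : ℝ) ∧ (v : ℝ) ≤ 12 / 10 * (h * Real.log N))).card : ℝ) ≤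
        12 / 10 * (h * Real.log N) + 1 := by
      have h9 : ((range (⌊12 / 10 * (h * Real.log N)⌋₊ + 1)).filter
        (fun v : ℕ => h * Real.log N / 10 ≤ (v : ℝ) ∧ (v : ℝ) ≤ 12 / 10 * (h * Real.log N))).card ≤
        ⌊12 / 10 * (h * Real.log N)⌋₊ + 1 := (card_filter_le _ _).trans (card_range _).le
      have h10 : ((⌊12 / 10 * (h * Real.log N)⌋₊ : ℕ) : ℝ) ≤ 12 / 10 * (h * Real.log N) :=
        Nat.floor_le (by positivity)
      have h11 : (((range (⌊12 / 10 * (h * Real.log N)⌋₊ + 1)).filter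
        (fun v : ℕ => h * Real.log N / 10 ≤ (v : ℝ) ∧ (v : ℝ) ≤ 12 / 10 * (h * Real.log N))).card : ℝ) ≤
        ((⌊12 / 10 * (h * Real.log N)⌋₊ : ℕ) : ℝ) + 1 := by exact_mod_cast h9
      linarith
    have h9 : (W.card : ℝ) ≤ 1 + (12 / 10 * (h * Real.log N) + 1) * (300 * Real.log N ^ (2 * A₁)) := by
      have h10 : W.card ≤ 1 + ∑ v ∈ (range (⌊12 / 10 * (h * Real.log N)⌋₊ + 1)).filter
        (fun v : ℕ => h * Real.log N / 10 ≤ (v : ℝ) ∧ (v : ℝ) ≤ 12 / 10 * (h * Real.log N)),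
          (W.filter (fun w => 10 / 11 * Real.exp (v / h) * Real.log N ^ (-A₁) <
          ‖∑ π ∈ cl h v, psi w π‖)).card :=
        (card_le_card h5).trans ((card_union_le _ _).trans (add_le_add h6 card_biUnion_le))
      have h11 : (W.card : ℝ) ≤ 1 + ∑ v ∈ (range (⌊12 / 10 * (h * Real.log N)⌋₊ + 1)).filter
        (fun v : ℕ => h * Real.log N / 10 ≤ (v : ℝ) ∧ (v : ℝ) ≤ 12 / 10 * (h * Real.log N)),
          ((W.filter (fun w => 10 / 11 * Real.exp (v / h) * Real.log N ^ (-A₁) <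
          ‖∑ π ∈ cl h v, psi w π‖)).card : ℝ) := by
        exact_mod_cast h10
      refine h11.trans (add_le_add le_rfl ((sum_le_sum fun v hv => h7 v (mem_filter.1 hv).2.1
        (mem_filter.1 hv).2.2).trans ?_))
      rw [sum_const, nsmul_eq_mul]
      exact mul_le_mul_of_nonneg_right h8 (by positivity)
    have h10 : Real.log N ^ (2 * A₁ + A₃ + 2) =
        h * Real.log N * Real.log N ^ (2 * A₁) * Real.log N := by
      rw [hh, show 2 * A₁ + A₃ + 2 = A₃ + 1 + 2 * A₁ + 1 by ring, Real.rpow_add hl, Real.rpow_add hl,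
        Real.rpow_add hl, Real.rpow_one]
    have h11 : 1 ≤ Real.log N ^ (2 * A₁) := Real.one_le_rpow hl1 (by linarith)
    have h12 : 1 ≤ h * Real.log N := by nlinarith
    have h13 : 1 ≤ h * Real.log N * Real.log N ^ (2 * A₁) := by nlinarith
    rw [h10]
    refine h9.trans ?_
    have h14 : (12 / 10 * (h * Real.log N) + 1) * (300 * Real.log N ^ (2 * A₁)) ≤
        660 * (h * Real.log N * Real.log N ^ (2 * A₁)) := by nlinarith
    nlinarith
  refine ⟨U, uok_mono hU (hWcard.trans (Real.rpow_le_rpow_of_exponent_le hl1 (by linarith))), E,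
    hE.trans ?_, ?_⟩
  · have h5 : 1 + Real.log T₁ ≤ Real.log N ^ (2 : ℝ) := by
      have hT0 : (0 : ℝ) < T₁ := by exact_mod_cast hT2
      have h6 : Real.log T₁ ≤ 1 / 25 * Real.log N := by
        rw [← Real.log_rpow hN0]
        exact Real.log_le_log hT0 hT10
      have h9 : Real.log N ^ (2 : ℝ) = Real.log N * Real.log N := by
        rw [show (2 : ℝ) = 1 + 1 by norm_num, Real.rpow_add hl, Real.rpow_one]
      rw [h9]
      nlinarith
    have h6 : Real.log N ^ (2 * A₁ + A₃ + 4 - aQ) =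
        Real.log N ^ (2 * A₁ + A₃ + 2) * (Real.log N ^ (2 : ℝ) / Real.log N ^ aQ) := by
      rw [← Real.rpow_sub hl, ← Real.rpow_add hl]
      congr 1
      ring
    rw [h6]
    have h7 : 0 ≤ Real.log (T₁ : ℝ) := Real.log_nonneg (by exact_mod_cast hT2)
    refine mul_le_mul hWcard (div_le_div_of_nonneg_right h5 (by positivity)) ?_ (by positivity)
    exact div_nonneg (by linarith) (by positivity)
  · intro t ht1 ht2 q hq1 hq2 hq3
    rcases hfin t ht1 ht2 q hq1 hq2 hq3 with h5 | h5 | ⟨h5, h6⟩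
    · exact Or.inl h5
    · exact Or.inr (Or.inl h5)
    · refine Or.inr (Or.inr ⟨h5, ?_, fun h7 => h6 (Or.inr h7)⟩)
      by_contra h7
      exact h6 (Or.inl h7)

end Pool.Agent.Lib.MP391708.X3U
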