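import Pool.Agent.Lib.MP_391708_nt.X3.U.Spec

/-!
# THEOREM X3 (MP_391708), part U, module VB2: VB for the characters modulo `t` and the coarse cells (helper45)
-/

set_option autoImplicit false

namespace Pool.Agent.Lib.MP391708.X3U

open Finset Filter Topology Pool.Agent.Lib.MP391708.MR
open Pool.Agent.Lib.MP391708.X (ChiG hk Dist Fam rgh Ix psi ix1 UOK lc On)
open Pool.Agent.Lib.MP391708.X3 (Par par Box RR S2 I2 eta kap Eta Kap Var cl Big)
open Pool.Agent.Lib.MP391708.XV (md chs ph hat atyp)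
open Pool.Agent.Lib.MP391708.XU (fn ixq GG Eqv SpecBRG SpecCON SpecNCD)
open scoped ComplexConjugate

namespace VB2M

/-- the lower end of a coarse cell -/
noncomputable def lo (h M : ℝ) (m a : ℕ) : ℝ := max M ((⌈Real.exp (((m * a : ℕ) : ℝ) / h)⌉₊ : ℝ) - 1)

/-- the upper end of a coarse cell -/
noncomputable def up (h M : ℝ) (m a : ℕ) : ℝ :=
  min (2 * M) ((⌈Real.exp (((m * (a + 1) : ℕ) : ℝ) / h)⌉₊ : ℝ) - 1)

theorem ceil1 (x : ℝ) (n : ℕ) : x ≤ n ↔ (⌈x⌉₊ : ℝ) - 1 < n := by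
  rw [← Nat.ceil_le]
  constructor
  · intro h1
    have : (⌈x⌉₊ : ℝ) ≤ n := by exact_mod_cast h1
    linarith
  · intro h1
    have h2 : (⌈x⌉₊ : ℝ) < ((n + 1 : ℕ) : ℝ) := by
      push_cast
      linarith
    have h3 : ⌈x⌉₊ < n + 1 := by exact_mod_cast h2
    omega

theorem ceil2 (x : ℝ) (n : ℕ) : (n : ℝ) < x ↔ (n : ℝ) ≤ (⌈x⌉₊ : ℝ) - 1 := by
  rw [← Nat.lt_ceil]
  constructor
  · intro h1
    have h2 : ((n + 1 : ℕ) : ℝ) ≤ (⌈x⌉₊ : ℝ) := by exact_mod_cast h1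
    push_cast at h2
    linarith
  · intro h1
    have h2 : ((n + 1 : ℕ) : ℝ) ≤ (⌈x⌉₊ : ℝ) := by
      push_cast
      linarith
    have h3 : n + 1 ≤ ⌈x⌉₊ := by exact_mod_cast h2
    omega

theorem GG_eq {h : ℝ} (hh : 0 < h) (M : ℝ) (m a : ℕ) (hm : 1 ≤ m) :
    GG h M m a = GP (lo h M m a) (up h M m a) := by
  ext π
  unfold GG
  rw [mem_filter, mem_GP, mem_GP]
  have key : 0 < nm π → (⌊h * Real.log (nm π)⌋₊ / m = a ↔
      ((⌈Real.exp (((m * a : ℕ) : ℝ) / h)⌉₊ : ℝ) - 1 < nm π ∧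
        (nm π : ℝ) ≤ (⌈Real.exp (((m * (a + 1) : ℕ) : ℝ) / h)⌉₊ : ℝ) - 1)) := by
    intro hn
    have hnR : (0 : ℝ) < nm π := by exact_mod_cast hn
    have hlog : 0 ≤ h * Real.log (nm π) :=
      mul_nonneg hh.le (Real.log_nonneg (by exact_mod_cast hn))
    have e1 : ⌊h * Real.log (nm π)⌋₊ / m = a ↔
        m * a ≤ ⌊h * Real.log (nm π)⌋₊ ∧ ⌊h * Real.log (nm π)⌋₊ < m * (a + 1) := by
      rw [Nat.div_eq_iff (by omega)]
      constructor
      · rintro ⟨h1, h2⟩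
        refine ⟨by rw [mul_comm]; exact h1, ?_⟩
        have : m * (a + 1) = a * m + m := by ring
        omega
      · rintro ⟨h1, h2⟩
        have : m * (a + 1) = a * m + m := by ring
        refine ⟨by rw [mul_comm]; exact h1, by omega⟩
    have e2 : m * a ≤ ⌊h * Real.log (nm π)⌋₊ ↔ Real.exp (((m * a : ℕ) : ℝ) / h) ≤ nm π := by
      rw [Nat.le_floor_iff hlog, ← Real.le_log_iff_exp_le hnR, div_le_iff₀ hh, mul_comm h]
    have e3 : ⌊h * Real.log (nm π)⌋₊ < m * (a + 1) ↔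
        (nm π : ℝ) < Real.exp (((m * (a + 1) : ℕ) : ℝ) / h) := by
      rw [Nat.floor_lt hlog, ← Real.log_lt_iff_lt_exp hnR, lt_div_iff₀ hh, mul_comm h]
    have e4 := ceil1 (Real.exp (((m * a : ℕ) : ℝ) / h)) (nm π)
    have e5 := ceil2 (Real.exp (((m * (a + 1) : ℕ) : ℝ) / h)) (nm π)
    rw [e1, e2, e3, e4, e5]
  unfold lo up
  constructor
  · rintro ⟨⟨h1, h2, h3, h4, h5, h6⟩, h7⟩
    obtain ⟨h8, h9⟩ := (key h3.pos).1 h7
    exact ⟨h1, h2, h3, h4, max_lt h5 h8, le_min h6 h9⟩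
  · rintro ⟨h1, h2, h3, h4, h5, h6⟩
    refine ⟨⟨h1, h2, h3, h4, (le_max_left _ _).trans_lt h5, h6.trans (min_le_left _ _)⟩, ?_⟩
    exact (key h3.pos).2 ⟨(le_max_right _ _).trans_lt h5, h6.trans (min_le_right _ _)⟩

theorem ev_M : ∀ᶠ N : ℝ in atTop, 8 * N ^ (9 / 10 : ℝ) ≤ N := by
  have h1 : ∀ᶠ N : ℝ in atTop, (8 : ℝ) ≤ N ^ (1 / 10 : ℝ) :=
    (tendsto_rpow_atTop (by norm_num : (0 : ℝ) < 1 / 10)).eventually_ge_atTop 8
  filter_upwards [h1, eventually_gt_atTop (1 : ℝ)] with N hN hN1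
  have hN0 : 0 < N := by linarith
  calc 8 * N ^ (9 / 10 : ℝ) ≤ N ^ (1 / 10 : ℝ) * N ^ (9 / 10 : ℝ) :=
        mul_le_mul_of_nonneg_right hN (by positivity)
    _ = N ^ (1 / 10 + 9 / 10 : ℝ) := by rw [← Real.rpow_add hN0]
    _ = N := by norm_num

theorem not_dist (χ : Gi → ℂ) (k : ℤ) : ¬ Dist χ χ k k := by
  rintro (h | ⟨z, _, _, h⟩)
  · exact h rfl
  · exact h rfl

end VB2M

open VB2M in
/-- **VB2**: VB for the characters modulo `t` and the coarse cells of `π₂`. -/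
theorem specVB2 (hVB : Pool.Agent.Lib.MP391708.X3.SpecVB) (hBRG : SpecBRG) : SpecVB2 := by
  classical
  obtain ⟨c, hc, h⟩ := hVB
  obtain ⟨hB1, -, hB3, -⟩ := hBRG
  refine ⟨c, hc, fun A₄ hA₄ => ?_⟩
  obtain ⟨A₃, A₁, hA₃, hA₁, hev⟩ := h A₄ hA₄
  refine ⟨A₃, A₁, hA₃, hA₁, ?_⟩
  intro δ cP cT cB cw ch hδ hδ2 hcP hcT hcB hch
  filter_upwards [hev, ev_M, Real.tendsto_log_atTop.eventually_ge_atTop 1,
    eventually_gt_atTop (1 : ℝ)] with N g1 g2 hl1 hN1
  intro T P B hbox t m a W ht htc hm hW hWc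
  have hN0 : 0 < N := by linarith
  have hl : 0 < Real.log N := by linarith
  have hP1 : 1 ≤ P := (Real.one_le_rpow hl1 (by linarith)).trans hbox.P1
  have hT1 : P ≤ T := by
    refine le_trans ?_ hbox.T1
    have := Real.one_le_rpow hl1 (by linarith : (0 : ℝ) ≤ cT)
    nlinarith
  have hT0 : 0 < T := by linarith
  set M := (par N T P ch cw).M2 with hMd
  have hM : M = N * T / (8 * P) := rfl
  have hM0 : 0 < M := by rw [hM]; positivity
  have hMlo : N ^ (9 / 10 : ℝ) ≤ M := by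
    rw [hM, le_div_iff₀ (by positivity)]
    calc N ^ (9 / 10 : ℝ) * (8 * P) = (8 * N ^ (9 / 10 : ℝ)) * P := by ring
      _ ≤ N * T := mul_le_mul g2 hT1 (by linarith) hN0.le
  have hMup : M ≤ N ^ (11 / 10 : ℝ) := by
    rw [hM, div_le_iff₀ (by positivity)]
    have hT2 : T ≤ N ^ (1 / 10 : ℝ) :=
      hbox.T2.trans (Real.rpow_le_rpow_of_exponent_le hN1.le (by linarith))
    have e1 : N ^ (11 / 10 : ℝ) = N * N ^ (1 / 10 : ℝ) := by
      rw [show (11 / 10 : ℝ) = 1 + 1 / 10 by norm_num, Real.rpow_add hN0, Real.rpow_one]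
    have h2 : N * T ≤ N ^ (11 / 10 : ℝ) := by
      rw [e1]
      exact mul_le_mul_of_nonneg_left hT2 hN0.le
    have h3 : 0 < N ^ (11 / 10 : ℝ) := Real.rpow_pos_of_pos hN0 _
    nlinarith
  have hhp : 0 < Real.log N ^ ch := Real.rpow_pos_of_pos hl _
  have hR : 0 ≤ M ^ 2 * Real.log N ^ (-A₄) := by
    have := Real.rpow_pos_of_pos hl (-A₄)
    positivity
  have eG : ∀ i : Ix, G2 (par N T P ch cw) m i a =
      ∑ π ∈ GP (lo (Real.log N ^ ch) M m a) (up (Real.log N ^ ch) M m a), psi i π := by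
    intro i
    unfold G2
    have : GG (par N T P ch cw).h (par N T P ch cw).M2 m a =
        GP (lo (Real.log N ^ ch) M m a) (up (Real.log N ^ ch) M m a) := GG_eq hhp M m a hm
    rw [this]
  simp only [eG]
  rcases lt_or_ge (up (Real.log N ^ ch) M m a) (lo (Real.log N ^ ch) M m a) with hlt | hge
  · have hemp : GP (lo (Real.log N ^ ch) M m a) (up (Real.log N ^ ch) M m a) = ∅ := by
      refine Finset.eq_empty_of_forall_notMem fun π hπ => ?_
      rw [mem_GP] at hπ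
      obtain ⟨-, -, -, -, h5, h6⟩ := hπ
      linarith
    rw [hemp]
    simp only [sum_empty, norm_zero]
    rw [zero_pow two_ne_zero, sum_const_zero]
    exact hR
  · have hinj : Set.InjOn (ixq t) (W : Set (MulChar (Cls.RR (md t)) ℂ × ℤ)) := by
      intro q _ q' _ heq
      by_contra hne
      have h1 := hB3 t q q' ht hne
      have h2 : fn t q.1 = fn t q'.1 := congrArg (fun i : Ix => i.2.1) heq
      have h3 : q.2 = q'.2 := congrArg (fun i : Ix => i.2.2) heq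
      rw [h2, h3] at h1
      exact not_dist _ _ h1
    have e2 := Finset.sum_image (f := fun i : Ix =>
      ‖∑ π ∈ GP (lo (Real.log N ^ ch) M m a) (up (Real.log N ^ ch) M m a), psi i π‖ ^ 2) hinj
    rw [← e2]
    refine g1 (W.image (ixq t)) M _ _ hMlo hMup (le_max_left _ _) hge (min_le_left _ _) ?_ ?_ ?_
    · intro i hi
      obtain ⟨q, hq, rfl⟩ := mem_image.1 hi
      obtain ⟨h1, h2, h3, h4⟩ := hW q hq
      exact ⟨ht, htc, hB1 t q.1 ht, h1, h2, h3, h4⟩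
    · intro i hi j hj hij
      obtain ⟨q, hq, rfl⟩ := mem_image.1 hi
      obtain ⟨q', hq', rfl⟩ := mem_image.1 hj
      exact hB3 t q q' ht fun h => hij (by rw [h])
    · refine le_trans ?_ hWc
      exact_mod_cast card_image_le

end Pool.Agent.Lib.MP391708.X3U
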