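import Pool.Agent.Lib.MP_391708_nt.X3.U.Spec2

/-!
# THEOREM X3 (MP_391708), part U, module FIN: the numerical part
-/

set_option autoImplicit false

namespace Pool.Agent.Lib.MP391708.X3U.FINAM

open Finset Filter Topology

/-- powers of `L` -/
theorem mono {L : ℝ} (hL : 1 ≤ L) {a b : ℝ} (h : a ≤ b) : L ^ a ≤ L ^ b :=
  Real.rpow_le_rpow_of_exponent_le hL h

theorem madd {L : ℝ} (hL : 0 < L) (a b : ℝ) : L ^ a * L ^ b = L ^ (a + b) := (Real.rpow_add hL a b).symm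

theorem kmul {L k : ℝ} (hL : 1 ≤ L) (hk : k ≤ L) (a : ℝ) {b : ℝ} (h : a + 1 ≤ b) : k * L ^ a ≤ L ^ b := by
  have hL0 : 0 < L := by linarith
  have h1 : 0 < L ^ a := Real.rpow_pos_of_pos hL0 a
  calc k * L ^ a ≤ L * L ^ a := mul_le_mul_of_nonneg_right hk h1.le
    _ = L ^ (a + 1) := by rw [Real.rpow_add hL0, Real.rpow_one]; ring
    _ ≤ L ^ b := mono hL h

theorem sq_pow {L : ℝ} (hL : 0 < L) (a : ℝ) : (L ^ a) ^ 2 = L ^ (2 * a) := by
  rw [pow_two, madd hL]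
  congr 1
  ring

theorem inv_pow {L : ℝ} (hL : 0 < L) (a : ℝ) : 1 / L ^ a = L ^ (-a) := by
  rw [Real.rpow_neg hL.le, one_div]

/-- `√(K/Y) ≤ 1/T` -/
theorem sqrt_le {N T : ℝ} (hN : 0 < N) (hT : 0 < T) : Real.sqrt (N / T / (2 * N * T)) ≤ 1 / T := by
  have h : N / T / (2 * N * T) ≤ (1 / T) ^ 2 := by
    have : N / T / (2 * N * T) = (1 / T) ^ 2 / 2 := by
      field_simp
    rw [this]
    have : 0 ≤ (1 / T) ^ 2 := by positivity
    linarith
  calc Real.sqrt (N / T / (2 * N * T)) ≤ Real.sqrt ((1 / T) ^ 2) := Real.sqrt_le_sqrt h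
    _ = 1 / T := Real.sqrt_sq (by positivity)

theorem ratio {N T T0 a0 L : ℝ} (hL : 0 < L) (hN : 0 < N) (hT : 0 < T) (h : T / L ^ a0 / 2 ≤ T0) :
    2 * N * T / (T0 ^ 2 * (N / T)) ≤ 8 * L ^ (2 * a0) := by
  have hLa : 0 < L ^ a0 := Real.rpow_pos_of_pos hL a0
  have h0 : 0 < T / L ^ a0 / 2 := by positivity
  have hT0 : 0 < T0 := by linarith
  have h1 : (T / L ^ a0 / 2) ^ 2 ≤ T0 ^ 2 := pow_le_pow_left₀ h0.le h 2
  rw [div_le_iff₀ (by positivity), ← sq_pow hL]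
  have h2 : 8 * (L ^ a0) ^ 2 * ((T / L ^ a0 / 2) ^ 2 * (N / T)) = 2 * N * T := by
    field_simp
    ring
  calc 2 * N * T = 8 * (L ^ a0) ^ 2 * ((T / L ^ a0 / 2) ^ 2 * (N / T)) := h2.symm
    _ ≤ 8 * (L ^ a0) ^ 2 * (T0 ^ 2 * (N / T)) := by gcongr

/-- the first part -/
theorem part1 {A a0 ch0 nI aU aF cw cP cT cB c L N T P B C lY F G w M τ nn T0 T1 Km : ℝ}
    (hA : 0 < A) (hL : 10 ^ 7 ≤ L) (ha0 : A + 12 ≤ a0) (hch : A + 2 * a0 + 14 ≤ ch0)
    (hnI : 0 ≤ nI) (haU : 1 ≤ aU)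
    (haF : A + 2 * nI + a0 + 2 * aU + 16 ≤ aF) (hcw : A + 2 * aU + 16 ≤ cw)
    (hcP : A + 2 * nI + 2 * aU + 16 ≤ c / 4 * cP) (hcT : A + 2 * aU + 16 ≤ cT)
    (hcB : A + 2 * nI + 2 * aU + 2 * a0 + 16 ≤ cB) (hc : 0 < c)
    (hC : 0 ≤ C) (hCL : C ≤ L) (hlY0 : 0 ≤ 1 + lY) (hlY : 1 + lY ≤ 3 * L)
    (hF : F = L ^ (aU + 2)) (hG : G = L ^ (2 : ℝ)) (hw : w = L ^ cw) (hM : M = 2 * N * T / P)
    (hτ : τ = P ^ (1 - c / 8)) (hnn0 : 0 ≤ nn) (hnn : nn ≤ L ^ nI)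
    (hN : 1 ≤ N) (hT : 64 ≤ T) (hP1 : L ^ cP ≤ P) (hPT : P * L ^ cT ≤ T) (hB1 : T * P * L ^ cB ≤ B)
    (hB2 : B ^ 2 ≤ 2 * N) (hNL : L ^ a0 ≤ N)
    (hT0 : T / L ^ a0 / 2 ≤ T0) (hT0' : T0 ≤ T / L ^ a0) (hT1 : T1 ≤ 5 * T) (hT10 : 0 ≤ T1)
    (hKm : L ^ aF * (N / B) / 2 ≤ Km) (hcP0 : 0 ≤ cP) :
    C * (1 + lY) ^ 5 * (B * (2 * N * T)) *
        (G * (T0 * Real.sqrt (N / T / (2 * N * T)) +
            3 / L ^ ch0 * (2 * N * T / (T0 ^ 2 * (N / T)) + 1) + B ^ 2 / (N / T * (2 * N * T))) +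
          F ^ 2 * (T1 / B * (1 + 2 * N * T / (T0 ^ 2 * (N / T))) + 1 / w + Real.sqrt (N / T / (2 * N * T)) +
            nn ^ 2 * (τ ^ 2 * (T1 * M / (B * (2 * N * T)) + (M / (2 * N * T)) ^ 2) +
              2 * N * T / (B * Km) * (1 / B + 1 / T0)))) ≤
      L ^ (-A) / 2 * (B * (N / T) * T ^ 2) := by
  have hL1 : 1 ≤ L := by linarith
  have hL0 : 0 < L := by linarith
  have hT_ : 0 < T := by linarith
  have hN0 : 0 < N := by linarith
  have hpos : ∀ a : ℝ, 0 < L ^ a := fun a => Real.rpow_pos_of_pos hL0 a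
  have hP0 : 0 < P := lt_of_lt_of_le (hpos cP) hP1
  have hP1' : 1 ≤ P := by
    have : L ^ (0 : ℝ) ≤ L ^ cP := mono hL1 hcP0
    rw [Real.rpow_zero] at this
    linarith
  have hB0 : 0 < B := lt_of_lt_of_le (by have := hpos cB; positivity) hB1
  have hT00 : 0 < T0 := lt_of_lt_of_le (by have := hpos a0; positivity) hT0
  have hKm0 : 0 < Km := lt_of_lt_of_le (by have := hpos aF; positivity) hKm
  have hsq := sqrt_le hN0 hT_
  have hr := ratio (a0 := a0) hL0 hN0 hT_ hT0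
  have hr0 : 0 ≤ 2 * N * T / (T0 ^ 2 * (N / T)) := by positivity
  -- X1
  have X1 : T0 * Real.sqrt (N / T / (2 * N * T)) ≤ L ^ (-a0) := by
    calc T0 * Real.sqrt (N / T / (2 * N * T)) ≤ (T / L ^ a0) * (1 / T) :=
          mul_le_mul hT0' hsq (Real.sqrt_nonneg _) (by have := hpos a0; positivity)
      _ = 1 / L ^ a0 := by field_simp
      _ = L ^ (-a0) := inv_pow hL0 a0
  have X2 : 3 / L ^ ch0 * (2 * N * T / (T0 ^ 2 * (N / T)) + 1) ≤ L ^ (2 * a0 + 1 - ch0) := by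
    have h1 : 1 ≤ L ^ (2 * a0) := by
      have : L ^ (0 : ℝ) ≤ L ^ (2 * a0) := mono hL1 (by linarith)
      rwa [Real.rpow_zero] at this
    have h2 : 2 * N * T / (T0 ^ 2 * (N / T)) + 1 ≤ 9 * L ^ (2 * a0) := by linarith
    calc 3 / L ^ ch0 * (2 * N * T / (T0 ^ 2 * (N / T)) + 1) ≤ 3 / L ^ ch0 * (9 * L ^ (2 * a0)) :=
          mul_le_mul_of_nonneg_left h2 (by have := hpos ch0; positivity)
      _ = 27 * (L ^ (2 * a0) * (1 / L ^ ch0)) := by ring
      _ = 27 * L ^ (2 * a0 - ch0) := by rw [inv_pow hL0, madd hL0]; ring_nf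
      _ ≤ L ^ (2 * a0 + 1 - ch0) := kmul hL1 (by linarith) _ (by linarith)
  have X3 : B ^ 2 / (N / T * (2 * N * T)) ≤ L ^ (-a0) := by
    have h1 : N / T * (2 * N * T) = 2 * N ^ 2 := by field_simp
    rw [h1, div_le_iff₀ (by positivity)]
    have h2 : 2 * N ≤ L ^ (-a0) * (2 * N ^ 2) := by
      have h3 : 1 ≤ L ^ (-a0) * N := by
        rw [Real.rpow_neg hL0.le, ← div_eq_inv_mul, le_div_iff₀ (hpos a0)]
        linarith
      nlinarith
    linarith
  -- the second bracket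
  have hT1B : T1 / B ≤ 5 * L ^ (-cB) := by
    rw [div_le_iff₀ hB0]
    have h1 : L ^ (-cB) * L ^ cB = 1 := by rw [madd hL0]; simp
    have h2 : 5 * T ≤ 5 * L ^ (-cB) * (T * P * L ^ cB) := by
      have : 5 * L ^ (-cB) * (T * P * L ^ cB) = 5 * T * P * (L ^ (-cB) * L ^ cB) := by ring
      rw [this, h1]
      nlinarith
    have h3 : 5 * L ^ (-cB) * (T * P * L ^ cB) ≤ 5 * L ^ (-cB) * B :=
      mul_le_mul_of_nonneg_left hB1 (by have := hpos (-cB); positivity)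
    linarith
  have hT1B0 : 0 ≤ T1 / B := by positivity
  have Y1 : T1 / B * (1 + 2 * N * T / (T0 ^ 2 * (N / T))) ≤ L ^ (2 * a0 + 1 - cB) := by
    have h1 : 1 ≤ L ^ (2 * a0) := by
      have : L ^ (0 : ℝ) ≤ L ^ (2 * a0) := mono hL1 (by linarith)
      rwa [Real.rpow_zero] at this
    calc T1 / B * (1 + 2 * N * T / (T0 ^ 2 * (N / T))) ≤ (5 * L ^ (-cB)) * (9 * L ^ (2 * a0)) :=
          mul_le_mul hT1B (by linarith) (by positivity) (by have := hpos (-cB); positivity)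
      _ = 45 * L ^ (2 * a0 - cB) := by
          rw [show (5 * L ^ (-cB)) * (9 * L ^ (2 * a0)) = 45 * (L ^ (2 * a0) * L ^ (-cB)) by ring, madd hL0]
          ring_nf
      _ ≤ L ^ (2 * a0 + 1 - cB) := kmul hL1 (by linarith) _ (by linarith)
  have Y2 : 1 / w = L ^ (-cw) := by rw [hw, inv_pow hL0]
  have Y3 : Real.sqrt (N / T / (2 * N * T)) ≤ L ^ (-cT) := by
    refine hsq.trans ?_
    rw [← inv_pow hL0]
    apply one_div_le_one_div_of_le (hpos cT)
    have := hpos cT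
    nlinarith
  -- the atypical terms
  have hτ0 : 0 ≤ τ := by rw [hτ]; exact Real.rpow_nonneg hP0.le _
  have hτP : τ ≤ P := by
    rw [hτ]
    calc P ^ (1 - c / 8) ≤ P ^ (1 : ℝ) := Real.rpow_le_rpow_of_exponent_le hP1' (by linarith)
      _ = P := Real.rpow_one P
  have hMY : M / (2 * N * T) = 1 / P := by rw [hM]; field_simp
  have Z1 : τ ^ 2 * (T1 * M / (B * (2 * N * T))) ≤ L ^ (1 - cB) := by
    have h1 : T1 * M / (B * (2 * N * T)) = T1 / B * (1 / P) := by rw [hM]; field_simp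
    rw [h1]
    have h2 : τ ^ 2 ≤ P ^ 2 := pow_le_pow_left₀ hτ0 hτP 2
    -- P * T1 / B
    have h3 : P * (T1 / B) ≤ 5 * L ^ (-cB) := by
      rw [← mul_div_assoc, div_le_iff₀ hB0]
      have h1 : L ^ (-cB) * L ^ cB = 1 := by rw [madd hL0]; simp
      have h4 : 5 * L ^ (-cB) * (T * P * L ^ cB) = 5 * T * P := by
        have : 5 * L ^ (-cB) * (T * P * L ^ cB) = 5 * T * P * (L ^ (-cB) * L ^ cB) := by ring
        rw [this, h1, mul_one]
      have h3 : 5 * L ^ (-cB) * (T * P * L ^ cB) ≤ 5 * L ^ (-cB) * B :=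
        mul_le_mul_of_nonneg_left hB1 (by have := hpos (-cB); positivity)
      have h5 : P * T1 ≤ 5 * T * P := by nlinarith
      linarith
    calc τ ^ 2 * (T1 / B * (1 / P)) ≤ P ^ 2 * (T1 / B * (1 / P)) :=
          mul_le_mul_of_nonneg_right h2 (by positivity)
      _ = P * (T1 / B) := by field_simp
      _ ≤ 5 * L ^ (-cB) := h3
      _ ≤ L ^ (1 - cB) := kmul hL1 (by linarith) _ (by linarith)
  have Z2 : τ ^ 2 * (M / (2 * N * T)) ^ 2 ≤ L ^ (-(c / 4 * cP)) := by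
    rw [hMY, hτ]
    have h1 : (P ^ (1 - c / 8)) ^ 2 * (1 / P) ^ 2 = P ^ (-(c / 4)) := by
      rw [sq_pow hP0]
      have h2 : (1 / P) ^ 2 = P ^ (-2 : ℝ) := by
        rw [Real.rpow_neg hP0.le, show (2 : ℝ) = ((2 : ℕ) : ℝ) by norm_num, Real.rpow_natCast]
        field_simp
      rw [h2, ← Real.rpow_add hP0]
      congr 1
      ring
    rw [h1]
    have h3 : P ^ (-(c / 4)) ≤ (L ^ cP) ^ (-(c / 4)) :=
      Real.rpow_le_rpow_of_nonpos (hpos cP) hP1 (by linarith)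
    refine h3.trans (le_of_eq ?_)
    rw [← Real.rpow_mul hL0.le]
    congr 1
    ring
  have Z3 : 2 * N * T / (B * Km) * (1 / B + 1 / T0) ≤ L ^ (a0 + 1 - aF) := by
    have h1 : 2 * N * T / (B * Km) ≤ 4 * T * L ^ (-aF) := by
      rw [div_le_iff₀ (by positivity)]
      have h2 : B * (L ^ aF * (N / B) / 2) ≤ B * Km := mul_le_mul_of_nonneg_left hKm hB0.le
      have h3 : B * (L ^ aF * (N / B) / 2) = L ^ aF * N / 2 := by field_simp
      rw [h3] at h2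
      have h4 : 4 * T * L ^ (-aF) * (L ^ aF * N / 2) = 2 * N * T := by
        have h5 : L ^ (-aF) * L ^ aF = 1 := by rw [madd hL0]; simp
        have : 4 * T * L ^ (-aF) * (L ^ aF * N / 2) = 2 * N * T * (L ^ (-aF) * L ^ aF) := by ring
        rw [this, h5, mul_one]
      rw [← h4]
      exact mul_le_mul_of_nonneg_left h2 (by have := hpos (-aF); positivity)
    have h2 : 1 / B + 1 / T0 ≤ 3 * L ^ a0 / T := by
      have h3 : 1 / T0 ≤ 2 * L ^ a0 / T := by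
        rw [div_le_div_iff₀ hT00 hT_]
        have h4 : T ≤ T0 * (2 * L ^ a0) := by
          have h5 := mul_le_mul_of_nonneg_right hT0 (show 0 ≤ 2 * L ^ a0 by have := hpos a0; positivity)
          have h6 : T / L ^ a0 / 2 * (2 * L ^ a0) = T := by
            have := (hpos a0).ne'
            field_simp
          linarith
        linarith
      have h4 : 1 / B ≤ L ^ a0 / T := by
        rw [div_le_div_iff₀ hB0 hT_]
        have h5 : T ≤ B := by
          have h6 : T * 1 ≤ T * (P * L ^ cB) := by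
            apply mul_le_mul_of_nonneg_left _ hT_.le
            have h7 : 1 ≤ L ^ cB := by
              have : L ^ (0 : ℝ) ≤ L ^ cB := mono hL1 (by linarith)
              rwa [Real.rpow_zero] at this
            nlinarith
          nlinarith
        have h6 : 1 ≤ L ^ a0 := by
          have : L ^ (0 : ℝ) ≤ L ^ a0 := mono hL1 (by linarith)
          rwa [Real.rpow_zero] at this
        nlinarith
      calc 1 / B + 1 / T0 ≤ L ^ a0 / T + 2 * L ^ a0 / T := add_le_add h4 h3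
        _ = 3 * L ^ a0 / T := by ring
    calc 2 * N * T / (B * Km) * (1 / B + 1 / T0) ≤ (4 * T * L ^ (-aF)) * (3 * L ^ a0 / T) :=
          mul_le_mul h1 h2 (by positivity) (by have := hpos (-aF); positivity)
      _ = 12 * (L ^ a0 * L ^ (-aF)) := by field_simp; ring
      _ = 12 * L ^ (a0 - aF) := by rw [madd hL0]; ring_nf
      _ ≤ L ^ (a0 + 1 - aF) := kmul hL1 (by linarith) _ (by linarith)
  have hnn2 : nn ^ 2 ≤ L ^ (2 * nI) := by
    rw [← sq_pow hL0]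
    exact pow_le_pow_left₀ hnn0 hnn 2
  -- the bracket
  have hpre : C * (1 + lY) ^ 5 ≤ L ^ (8 : ℝ) := by
    have h1 : (1 + lY) ^ 5 ≤ (3 * L) ^ 5 := pow_le_pow_left₀ hlY0 hlY 5
    have h2 : L ^ (8 : ℝ) = L ^ 8 := by
      rw [show (8 : ℝ) = ((8 : ℕ) : ℝ) by norm_num, Real.rpow_natCast]
    rw [h2]
    calc C * (1 + lY) ^ 5 ≤ L * (3 * L) ^ 5 := mul_le_mul hCL h1 (by positivity) hL0.le
      _ = 243 * L ^ 6 := by ring
      _ ≤ L ^ 2 * L ^ 6 := by
          apply mul_le_mul_of_nonneg_right _ (by positivity)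
          nlinarith
      _ = L ^ 8 := by ring
  have hb1 : G * (T0 * Real.sqrt (N / T / (2 * N * T)) +
            3 / L ^ ch0 * (2 * N * T / (T0 ^ 2 * (N / T)) + 1) + B ^ 2 / (N / T * (2 * N * T))) ≤
      3 * L ^ (-A - 10) := by
    have h1 : L ^ (-a0) ≤ L ^ (-A - 12) := mono hL1 (by linarith)
    have h2 : L ^ (2 * a0 + 1 - ch0) ≤ L ^ (-A - 12) := mono hL1 (by linarith)
    have h3 : T0 * Real.sqrt (N / T / (2 * N * T)) +
            3 / L ^ ch0 * (2 * N * T / (T0 ^ 2 * (N / T)) + 1) + B ^ 2 / (N / T * (2 * N * T)) ≤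
            3 * L ^ (-A - 12) := by linarith
    calc G * (T0 * Real.sqrt (N / T / (2 * N * T)) +
            3 / L ^ ch0 * (2 * N * T / (T0 ^ 2 * (N / T)) + 1) + B ^ 2 / (N / T * (2 * N * T)))
        ≤ G * (3 * L ^ (-A - 12)) := mul_le_mul_of_nonneg_left h3 (by rw [hG]; exact (hpos 2).le)
      _ = 3 * (L ^ (2 : ℝ) * L ^ (-A - 12)) := by rw [hG]; ring
      _ = 3 * L ^ (-A - 10) := by rw [madd hL0]; ring_nf
  have hF2 : F ^ 2 = L ^ (2 * aU + 4) := by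
    rw [hF, sq_pow hL0]
    congr 1
    ring
  have hb2 : F ^ 2 * (T1 / B * (1 + 2 * N * T / (T0 ^ 2 * (N / T))) + 1 / w +
          Real.sqrt (N / T / (2 * N * T)) +
            nn ^ 2 * (τ ^ 2 * (T1 * M / (B * (2 * N * T)) + (M / (2 * N * T)) ^ 2) +
              2 * N * T / (B * Km) * (1 / B + 1 / T0))) ≤ 6 * L ^ (-A - 10) := by
    have h1 : L ^ (2 * a0 + 1 - cB) ≤ L ^ (-A - 2 * aU - 14) := mono hL1 (by linarith)
    have h2 : L ^ (-cw) ≤ L ^ (-A - 2 * aU - 14) := mono hL1 (by linarith)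
    have h3 : L ^ (-cT) ≤ L ^ (-A - 2 * aU - 14) := mono hL1 (by linarith)
    have h4 : nn ^ 2 * (τ ^ 2 * (T1 * M / (B * (2 * N * T)) + (M / (2 * N * T)) ^ 2) +
              2 * N * T / (B * Km) * (1 / B + 1 / T0)) ≤ 3 * L ^ (-A - 2 * aU - 14) := by
      have g1 : L ^ (1 - cB) ≤ L ^ (-A - 2 * nI - 2 * aU - 14) := mono hL1 (by linarith)
      have g2 : L ^ (-(c / 4 * cP)) ≤ L ^ (-A - 2 * nI - 2 * aU - 14) := mono hL1 (by linarith)
      have g3 : L ^ (a0 + 1 - aF) ≤ L ^ (-A - 2 * nI - 2 * aU - 14) := mono hL1 (by linarith)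
      have g4 : τ ^ 2 * (T1 * M / (B * (2 * N * T)) + (M / (2 * N * T)) ^ 2) +
              2 * N * T / (B * Km) * (1 / B + 1 / T0) ≤ 3 * L ^ (-A - 2 * nI - 2 * aU - 14) := by
        rw [mul_add]
        linarith
      have hM0 : 0 ≤ M := by rw [hM]; positivity
      calc nn ^ 2 * (τ ^ 2 * (T1 * M / (B * (2 * N * T)) + (M / (2 * N * T)) ^ 2) +
              2 * N * T / (B * Km) * (1 / B + 1 / T0))
          ≤ L ^ (2 * nI) * (3 * L ^ (-A - 2 * nI - 2 * aU - 14)) :=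
            mul_le_mul hnn2 g4 (by positivity) (hpos _).le
        _ = 3 * (L ^ (2 * nI) * L ^ (-A - 2 * nI - 2 * aU - 14)) := by ring
        _ = 3 * L ^ (-A - 2 * aU - 14) := by rw [madd hL0]; ring_nf
    have h5 : T1 / B * (1 + 2 * N * T / (T0 ^ 2 * (N / T))) + 1 / w +
          Real.sqrt (N / T / (2 * N * T)) +
            nn ^ 2 * (τ ^ 2 * (T1 * M / (B * (2 * N * T)) + (M / (2 * N * T)) ^ 2) +
              2 * N * T / (B * Km) * (1 / B + 1 / T0)) ≤ 6 * L ^ (-A - 2 * aU - 14) := by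
      rw [Y2]
      linarith
    calc _ ≤ F ^ 2 * (6 * L ^ (-A - 2 * aU - 14)) := mul_le_mul_of_nonneg_left h5 (by positivity)
      _ = 6 * (L ^ (2 * aU + 4) * L ^ (-A - 2 * aU - 14)) := by rw [hF2]; ring
      _ = 6 * L ^ (-A - 10) := by rw [madd hL0]; ring_nf
  have hbr := add_le_add hb1 hb2
  have hb9 : 3 * L ^ (-A - 10) + 6 * L ^ (-A - 10) = 9 * L ^ (-A - 10) := by ring
  rw [hb9] at hbr
  have hBNT : 0 ≤ B * (2 * N * T) := by positivity
  have hBK : B * (2 * N * T) = 2 * (B * (N / T) * T ^ 2) := by field_simp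
  calc _ ≤ (C * (1 + lY) ^ 5 * (B * (2 * N * T))) * (9 * L ^ (-A - 10)) :=
        mul_le_mul_of_nonneg_left hbr (by positivity)
    _ ≤ (L ^ (8 : ℝ) * (B * (2 * N * T))) * (9 * L ^ (-A - 10)) := by
        apply mul_le_mul_of_nonneg_right _ (by have := hpos (-A - 10); positivity)
        exact mul_le_mul_of_nonneg_right hpre hBNT
    _ = 18 * (L ^ (8 : ℝ) * L ^ (-A - 10)) * (B * (N / T) * T ^ 2) := by rw [hBK]; ring
    _ = 18 * L ^ (-A - 2) * (B * (N / T) * T ^ 2) := by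
        rw [madd hL0]
        ring_nf
    _ ≤ L ^ (-A) / 2 * (B * (N / T) * T ^ 2) := by
        apply mul_le_mul_of_nonneg_right _ (by positivity)
        have : 36 * L ^ (-A - 2) ≤ L ^ (-A) := kmul hL1 (by linarith) _ (by linarith)
        linarith

end Pool.Agent.Lib.MP391708.X3U.FINAM
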