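import Pool.Agent.Lib.MP_391708_nt.X3.U.FINA
import Pool.Agent.Lib.MP_391708_nt.X3.U.HJS
import Pool.Agent.Lib.MP_391708_nt.X.PSI

/-!
# THEOREM X3 (MP_391708), part U, module FIN: the atypical characters
-/

set_option autoImplicit false

namespace Pool.Agent.Lib.MP391708.X3U.FINBM

open Finset Filter Topology Pool.Agent.Lib.MP391708.MR
open Pool.Agent.Lib.MP391708.X (ChiG hk Dist Fam rgh Ix psi ix1 UOK lc On)
open Pool.Agent.Lib.MP391708.X3 (Par par Box RR S2 I2 eta kap Eta Kap Var cl Big)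
open Pool.Agent.Lib.MP391708.XV (md chs ph hat atyp)
open Pool.Agent.Lib.MP391708.XU (fn ixq GG Eqv SpecBRG SpecCON SpecNCD)
open Pool.Agent.Lib.MP391708.XPU (SpecRGS SpecATY)
open scoped ComplexConjugate

theorem part2 {A nI aU aQ cw cP A4 c L N T P B C M w M2 x nn T0 e1 e2 : ℝ}
    (hL : 10 ^ 7 ≤ L) (hnI : 0 ≤ nI) (haU : 1 ≤ aU)
    (haQ : A + 2 * nI + 3 * aU + 12 ≤ aQ) (hcw : A + 2 * nI + 3 * aU + 14 ≤ 2 * cw)
    (hA4 : A + 2 * nI + 10 ≤ A4)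
    (hC : 0 ≤ C) (hCL : C ≤ L) (hM : M = 2 * N * T / P) (hM2 : M2 = N * T / (8 * P)) (hw : w = L ^ cw)
    (hnn0 : 0 ≤ nn) (hnn : nn ≤ L ^ nI) (hN : 1 ≤ N) (hT : 64 ≤ T) (hP : 0 < P) (hB : 0 < B)
    (hx0 : 0 ≤ x) (hx : P ^ 2 * N ^ c * x ^ 2 ≤ L ^ (-(A + 2 * nI + aU + 20)) * N ^ 2) (hNc : 1 ≤ N ^ c)
    (he1 : e1 = (9 * L ^ (aU + 2) * M) ^ 2)
    (he2 : e2 = L ^ aU * (40 * L * L ^ (aU + 2) * M / w + x) ^ 2 + 32 * M2 ^ 2 * L ^ (-A4) + 2 * N ^ c * x ^ 2) :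
    C * nn * (B / (2 * N * T)) * (nn * (18 * P) ^ 2 * L ^ 2 * (e1 * L ^ (aU + 1 - aQ) + e2 * L)) ≤
      L ^ (-A) / 2 * (B * (N / T) * T ^ 2) := by
  have hL1 : 1 ≤ L := by linarith
  have hL0 : 0 < L := by linarith
  have hT_ : 0 < T := by linarith
  have hN0 : 0 < N := by linarith
  have hpos : ∀ a : ℝ, 0 < L ^ a := fun a => Real.rpow_pos_of_pos hL0 a
  set Y : ℝ := 2 * N * T with hY
  have hY0 : 0 < Y := by positivity
  have hNY : N ≤ Y := by nlinarith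
  have hnn2 : nn ^ 2 ≤ L ^ (2 * nI) := by
    rw [← FINAM.sq_pow hL0]
    exact pow_le_pow_left₀ hnn0 hnn 2
  have hpre : C * nn ^ 2 * (B / Y) ≤ L ^ (2 * nI + 1) * (B / Y) := by
    apply mul_le_mul_of_nonneg_right _ (by positivity)
    calc C * nn ^ 2 ≤ L * L ^ (2 * nI) := mul_le_mul hCL hnn2 (by positivity) hL0.le
      _ = L ^ (2 * nI + 1) := by rw [Real.rpow_add hL0, Real.rpow_one]; ring
  have hPM : P * M = Y := by rw [hM, hY]; field_simp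
  have hPM2 : P * M2 = Y / 16 := by rw [hM2, hY]; field_simp; ring
  have hx2 : P ^ 2 * x ^ 2 ≤ L ^ (-(A + 2 * nI + aU + 20)) * Y ^ 2 := by
    have h1 : P ^ 2 * x ^ 2 ≤ P ^ 2 * N ^ c * x ^ 2 := by
      have : P ^ 2 * N ^ c * x ^ 2 = N ^ c * (P ^ 2 * x ^ 2) := by ring
      rw [this]
      exact le_mul_of_one_le_left (by positivity) hNc
    have h2 : N ^ 2 ≤ Y ^ 2 := pow_le_pow_left₀ hN0.le hNY 2
    calc _ ≤ _ := h1
      _ ≤ _ := hx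
      _ ≤ _ := mul_le_mul_of_nonneg_left h2 (hpos _).le
  have hx3 : P ^ 2 * N ^ c * x ^ 2 ≤ L ^ (-(A + 2 * nI + aU + 20)) * Y ^ 2 := by
    have h2 : N ^ 2 ≤ Y ^ 2 := pow_le_pow_left₀ hN0.le hNY 2
    exact hx.trans (mul_le_mul_of_nonneg_left h2 (hpos _).le)
  -- the exponents
  have hL2 : L ^ 2 = L ^ (2 : ℝ) := by
    rw [show (2 : ℝ) = ((2 : ℕ) : ℝ) by norm_num, Real.rpow_natCast]
  have hL3 : L ^ 3 = L ^ (3 : ℝ) := by
    rw [show (3 : ℝ) = ((3 : ℕ) : ℝ) by norm_num, Real.rpow_natCast]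
  have tE : (18 * P) ^ 2 * L ^ 2 * (e1 * L ^ (aU + 1 - aQ)) ≤ L ^ (-A - 2 * nI - 4) * Y ^ 2 := by
    rw [he1, hL2]
    have h1 : (18 * P) ^ 2 * L ^ (2 : ℝ) * ((9 * L ^ (aU + 2) * M) ^ 2 * L ^ (aU + 1 - aQ)) =
        26244 * (L ^ (2 : ℝ) * (L ^ (aU + 2)) ^ 2 * L ^ (aU + 1 - aQ)) * (P * M) ^ 2 := by ring
    rw [h1, hPM, FINAM.sq_pow hL0, FINAM.madd hL0, FINAM.madd hL0]
    exact mul_le_mul_of_nonneg_right (FINAM.kmul hL1 (by linarith) _ (by linarith)) (by positivity)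
  have tU : (18 * P) ^ 2 * L ^ 2 * (L ^ aU * (40 * L * L ^ (aU + 2) * M / w + x) ^ 2 * L) ≤
      2 * L ^ (-A - 2 * nI - 4) * Y ^ 2 := by
    have h0 : (40 * L * L ^ (aU + 2) * M / w + x) ^ 2 ≤ 2 * (40 * L * L ^ (aU + 2) * M / w) ^ 2 + 2 * x ^ 2 := by
      nlinarith [sq_nonneg (40 * L * L ^ (aU + 2) * M / w - x)]
    have h1 : (18 * P) ^ 2 * L ^ 2 * (L ^ aU * (40 * L * L ^ (aU + 2) * M / w + x) ^ 2 * L) ≤
        (18 * P) ^ 2 * L ^ 2 * (L ^ aU * (2 * (40 * L * L ^ (aU + 2) * M / w) ^ 2 + 2 * x ^ 2) * L) := by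
      have := hpos aU
      gcongr
    refine h1.trans ?_
    have h2 : (18 * P) ^ 2 * L ^ 2 * (L ^ aU * (2 * (40 * L * L ^ (aU + 2) * M / w) ^ 2 + 2 * x ^ 2) * L) =
        1036800 * (L ^ 3 * L ^ aU * (L ^ 2 * (L ^ (aU + 2)) ^ 2 * (1 / w) ^ 2)) * (P * M) ^ 2 +
        648 * (L ^ 3 * L ^ aU) * (P ^ 2 * x ^ 2) := by
      have : 40 * L * L ^ (aU + 2) * M / w = 40 * L * L ^ (aU + 2) * M * (1 / w) := by ring
      rw [this]
      ring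
    rw [h2, hPM]
    have h3 : 1036800 * (L ^ 3 * L ^ aU * (L ^ 2 * (L ^ (aU + 2)) ^ 2 * (1 / w) ^ 2)) ≤ L ^ (-A - 2 * nI - 4) := by
      rw [hw, FINAM.inv_pow hL0, FINAM.sq_pow hL0, FINAM.sq_pow hL0, hL2, hL3, FINAM.madd hL0, FINAM.madd hL0,
        FINAM.madd hL0, FINAM.madd hL0]
      exact FINAM.kmul hL1 (by linarith) _ (by linarith)
    have h4 : 648 * (L ^ 3 * L ^ aU) * (P ^ 2 * x ^ 2) ≤ L ^ (-A - 2 * nI - 4) * Y ^ 2 := by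
      calc 648 * (L ^ 3 * L ^ aU) * (P ^ 2 * x ^ 2)
          ≤ 648 * (L ^ 3 * L ^ aU) * (L ^ (-(A + 2 * nI + aU + 20)) * Y ^ 2) :=
            mul_le_mul_of_nonneg_left hx2 (by have := hpos aU; positivity)
        _ = 648 * (L ^ 3 * L ^ aU * L ^ (-(A + 2 * nI + aU + 20))) * Y ^ 2 := by ring
        _ ≤ L ^ (-A - 2 * nI - 4) * Y ^ 2 := by
            apply mul_le_mul_of_nonneg_right _ (by positivity)
            rw [hL3, FINAM.madd hL0, FINAM.madd hL0]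
            exact FINAM.kmul hL1 (by linarith) _ (by linarith)
    have h5 := mul_le_mul_of_nonneg_right h3 (show 0 ≤ Y ^ 2 by positivity)
    linarith
  have tW : (18 * P) ^ 2 * L ^ 2 * (32 * M2 ^ 2 * L ^ (-A4) * L) ≤ L ^ (-A - 2 * nI - 4) * Y ^ 2 := by
    have h1 : (18 * P) ^ 2 * L ^ 2 * (32 * M2 ^ 2 * L ^ (-A4) * L) =
        10368 * (L ^ 3 * L ^ (-A4)) * (P * M2) ^ 2 := by ring
    rw [h1, hPM2, hL3, FINAM.madd hL0]
    have h2 : 10368 * L ^ (3 + -A4) * (Y / 16) ^ 2 = 40.5 * L ^ (3 + -A4) * Y ^ 2 := by ring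
    rw [h2]
    exact mul_le_mul_of_nonneg_right (FINAM.kmul hL1 (by linarith) _ (by linarith)) (by positivity)
  have tX : (18 * P) ^ 2 * L ^ 2 * (2 * N ^ c * x ^ 2 * L) ≤ L ^ (-A - 2 * nI - 4) * Y ^ 2 := by
    have h1 : (18 * P) ^ 2 * L ^ 2 * (2 * N ^ c * x ^ 2 * L) = 648 * L ^ 3 * (P ^ 2 * N ^ c * x ^ 2) := by ring
    rw [h1]
    calc 648 * L ^ 3 * (P ^ 2 * N ^ c * x ^ 2) ≤ 648 * L ^ 3 * (L ^ (-(A + 2 * nI + aU + 20)) * Y ^ 2) :=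
          mul_le_mul_of_nonneg_left hx3 (by positivity)
      _ = 648 * (L ^ 3 * L ^ (-(A + 2 * nI + aU + 20))) * Y ^ 2 := by ring
      _ ≤ L ^ (-A - 2 * nI - 4) * Y ^ 2 := by
          apply mul_le_mul_of_nonneg_right _ (by positivity)
          rw [hL3, FINAM.madd hL0]
          exact FINAM.kmul hL1 (by linarith) _ (by linarith)
  have tot : (18 * P) ^ 2 * L ^ 2 * (e1 * L ^ (aU + 1 - aQ) + e2 * L) ≤ 5 * L ^ (-A - 2 * nI - 4) * Y ^ 2 := by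
    have h1 : (18 * P) ^ 2 * L ^ 2 * (e1 * L ^ (aU + 1 - aQ) + e2 * L) =
        (18 * P) ^ 2 * L ^ 2 * (e1 * L ^ (aU + 1 - aQ)) +
        (18 * P) ^ 2 * L ^ 2 * (L ^ aU * (40 * L * L ^ (aU + 2) * M / w + x) ^ 2 * L) +
        (18 * P) ^ 2 * L ^ 2 * (32 * M2 ^ 2 * L ^ (-A4) * L) +
        (18 * P) ^ 2 * L ^ 2 * (2 * N ^ c * x ^ 2 * L) := by rw [he2]; ring
    rw [h1]
    linarith
  have hBY : B * Y = 2 * (B * (N / T) * T ^ 2) := by rw [hY]; field_simp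
  have he2' : 0 ≤ e2 := by
    rw [he2]
    have := hpos aU
    have := hpos (-A4)
    positivity
  have he1' : 0 ≤ e1 := by rw [he1]; positivity
  calc C * nn * (B / Y) * (nn * (18 * P) ^ 2 * L ^ 2 * (e1 * L ^ (aU + 1 - aQ) + e2 * L))
      = C * nn ^ 2 * (B / Y) * ((18 * P) ^ 2 * L ^ 2 * (e1 * L ^ (aU + 1 - aQ) + e2 * L)) := by ring
    _ ≤ L ^ (2 * nI + 1) * (B / Y) * (5 * L ^ (-A - 2 * nI - 4) * Y ^ 2) :=
        mul_le_mul hpre tot (by have := hpos (aU + 1 - aQ); positivity) (by have := hpos (2 * nI + 1); positivity)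
    _ = 10 * (L ^ (2 * nI + 1) * L ^ (-A - 2 * nI - 4)) * (B * (N / T) * T ^ 2) := by
        have h1 : L ^ (2 * nI + 1) * (B / Y) * (5 * L ^ (-A - 2 * nI - 4) * Y ^ 2) =
          5 * (L ^ (2 * nI + 1) * L ^ (-A - 2 * nI - 4)) * (B * Y) := by field_simp
        rw [h1, hBY]
        ring
    _ ≤ L ^ (-A) / 2 * (B * (N / T) * T ^ 2) := by
        apply mul_le_mul_of_nonneg_right _ (by positivity)
        rw [FINAM.madd hL0]
        have : 20 * L ^ (2 * nI + 1 + (-A - 2 * nI - 4)) ≤ L ^ (-A) := FINAM.kmul hL1 (by linarith) _ (by linarith)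
        linarith

/-! ### The sum over one character -/

theorem psi_mul_I {i : Ix} (hc : ChiG (i.1 : Gi) i.2.1) (z : Gi) :
    psi i (⟨0, 1⟩ * z) = psi i ⟨0, 1⟩ * psi i z := by
  unfold X.psi X.hk
  rw [hc.mul, xi_mul]
  ring

theorem SJ_I {p : Par} {m j : ℕ} {z : Gi} : (⟨0, 1⟩ : Gi) * z ∈ SJ p m j ↔ z ∈ SJ p m j := by
  classical
  unfold SJ
  rw [mem_filter, mem_filter, mem_disc, mem_disc, HJSM.nm_I_mul, HJSM.I_mul_ne, HJSM.rgh_I]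

theorem vanish {p : Par} {U : Finset Ix} {m j : ℕ} {i : Ix} (hc : ChiG (i.1 : Gi) i.2.1)
    (hJ : ∀ z, HJ p U m j (⟨0, 1⟩ * z) = HJ p U m j z) (hi : psi i ⟨0, 1⟩ ≠ 1) :
    ∑ z ∈ SJ p m j, HJ p U m j z * psi i z = 0 := by
  classical
  have h1 : ∑ z ∈ SJ p m j, HJ p U m j z * psi i z =
      ∑ z ∈ SJ p m j, HJ p U m j (⟨0, 1⟩ * z) * psi i (⟨0, 1⟩ * z) := by
    symm
    refine Finset.sum_bij (fun z _ => (⟨0, 1⟩ : Gi) * z) (fun z hz => SJ_I.2 hz) ?_ ?_ (fun z _ => rfl)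
    · intro a _ b _ hab
      exact mul_left_cancel₀ HJSM.isUnit_I.ne_zero hab
    · intro b hb
      refine ⟨⟨0, -1⟩ * b, ?_, ?_⟩
      · rw [← SJ_I, ← mul_assoc]
        have : (⟨0, 1⟩ : Gi) * ⟨0, -1⟩ = 1 := by decide
        rw [this, one_mul]
        exact hb
      · show (⟨0, 1⟩ : Gi) * (⟨0, -1⟩ * b) = b
        rw [← mul_assoc]
        have : (⟨0, 1⟩ : Gi) * ⟨0, -1⟩ = 1 := by decide
        rw [this, one_mul]
  have h2 : ∑ z ∈ SJ p m j, HJ p U m j (⟨0, 1⟩ * z) * psi i (⟨0, 1⟩ * z) =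
      psi i ⟨0, 1⟩ * ∑ z ∈ SJ p m j, HJ p U m j z * psi i z := by
    rw [mul_sum]
    refine sum_congr rfl fun z _ => ?_
    rw [hJ, psi_mul_I hc]
    ring
  rw [h2] at h1
  have h3 : (1 - psi i ⟨0, 1⟩) * ∑ z ∈ SJ p m j, HJ p U m j z * psi i z = 0 := by
    linear_combination h1
  rcases mul_eq_zero.1 h3 with h | h
  · exact absurd (sub_eq_zero.1 h).symm hi
  · exact h

theorem triv {p : Par} {U : Finset Ix} {m j : ℕ} {i : Ix} {F : ℝ} (hM : 0 ≤ MM' p) (hF0 : 0 ≤ F)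
    (hc : ChiG (i.1 : Gi) i.2.1) (hF : ∀ z, ‖HJ p U m j z‖ ≤ F) :
    ‖∑ z ∈ SJ p m j, HJ p U m j z * psi i z‖ ≤ 9 * F * MM' p := by
  classical
  calc ‖∑ z ∈ SJ p m j, HJ p U m j z * psi i z‖ ≤ ∑ z ∈ SJ p m j, F := by
        refine norm_sum_le_of_le _ fun z _ => ?_
        rw [norm_mul]
        calc ‖HJ p U m j z‖ * ‖psi i z‖ ≤ F * 1 :=
              mul_le_mul (hF z) (X.PSIM.norm_psi_le hc z) (norm_nonneg _) hF0
          _ = F := mul_one F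
    _ = ((SJ p m j).card : ℝ) * F := by rw [sum_const, nsmul_eq_mul]
    _ ≤ (9 * MM' p) * F := by
        apply mul_le_mul_of_nonneg_right _ hF0
        have h1 : ((SJ p m j).card : ℝ) ≤ ((disc (MM' p)).card : ℝ) := by
          unfold SJ
          exact_mod_cast card_le_card (filter_subset _ _)
        exact h1.trans (card_disc_le hM)
    _ = 9 * F * MM' p := by ring

theorem split3 {α : Type} [DecidableEq α] (s E V W : Finset α) (f : α → ℝ) (hf : ∀ q, 0 ≤ f q)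
    (h : ∀ q ∈ s, f q = 0 ∨ q ∈ E ∨ q ∈ V ∨ q ∈ W) :
    ∑ q ∈ s, f q ≤ ∑ q ∈ E, f q + ∑ q ∈ V, f q + ∑ q ∈ W, f q := by
  have h1 : ∑ q ∈ s, f q = ∑ q ∈ s.filter (fun q => f q ≠ 0), f q := (sum_filter_ne_zero s).symm
  rw [h1]
  have h2 : s.filter (fun q => f q ≠ 0) ⊆ (E ∪ V) ∪ W := by
    intro q hq
    rw [mem_filter] at hq
    rcases h q hq.1 with h | h | h | h
    · exact absurd h hq.2
    · exact mem_union_left _ (mem_union_left _ h)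
    · exact mem_union_left _ (mem_union_right _ h)
    · exact mem_union_right _ h
  calc ∑ q ∈ s.filter (fun q => f q ≠ 0), f q ≤ ∑ q ∈ (E ∪ V) ∪ W, f q :=
        sum_le_sum_of_subset_of_nonneg h2 fun q _ _ => hf q
    _ ≤ ∑ q ∈ E ∪ V, f q + ∑ q ∈ W, f q := by
        rw [← sum_union_inter]
        have : 0 ≤ ∑ q ∈ (E ∪ V) ∩ W, f q := sum_nonneg fun q _ => hf q
        linarith
    _ ≤ (∑ q ∈ E, f q + ∑ q ∈ V, f q) + ∑ q ∈ W, f q := by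
        have : ∑ q ∈ E ∪ V, f q ≤ ∑ q ∈ E, f q + ∑ q ∈ V, f q := by
          rw [← sum_union_inter]
          have : 0 ≤ ∑ q ∈ E ∩ V, f q := sum_nonneg fun q _ => hf q
          linarith
        linarith

/-- for one `t` at most one character for each `u` -/
theorem card_V {t : ℕ} (ht : 1 ≤ t) (hBRG : SpecBRG) (U : Finset Ix)
    (V : Finset (MulChar (Cls.RR (md t)) ℂ × ℤ))
    (h : ∀ q ∈ V, ∃ u ∈ U, q.2 = u.2.2 ∧ ∀ z, fn t q.1 z ≠ 0 → u.2.1 z = fn t q.1 z) :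
    V.card ≤ U.card := by
  classical
  choose! u hu using h
  refine card_le_card_of_injOn u (fun q hq => (hu q hq).1) ?_
  intro q hq q' hq' heq
  by_contra hne
  obtain ⟨h1, h2, h3⟩ := hu q hq
  obtain ⟨g1, g2, g3⟩ := hu q' hq'
  rcases hBRG.2.2.1 t q q' ht hne with h | ⟨z, hz1, hz2, hz3⟩
  · apply h
    rw [h2, g2, heq]
  · apply hz3
    rw [← h3 z hz1, ← g3 z hz2, heq]

/-- the mean square over the atypical characters, one `t`, one cell -/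
theorem one_t {t : ℕ} (ht : 1 ≤ t) (hBRG : SpecBRG) (p : Par) (U : Finset Ix) (m j : ℕ)
    (s E : Finset (MulChar (Cls.RR (md t)) ℂ × ℤ)) (bE bU x b2 S : ℝ) (N A₃ A₁ : ℝ)
    (hc : ∀ q ∈ s, psi (ixq t q) ⟨0, 1⟩ = 1 →
      q ∈ E ∨ (∃ u ∈ U, q.2 = u.2.2 ∧ ∀ z, fn t q.1 z ≠ 0 → u.2.1 z = fn t q.1 z) ∨
        ((∀ u ∈ U, Dist (fn t q.1) u.2.1 q.2 u.2.2) ∧ Dist (fn t q.1) ix1.2.1 q.2 ix1.2.2 ∧
          ¬ Big N (Real.log N ^ A₃) A₁ (ixq t q)))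
    (hJ : ∀ z, HJ p U m j (⟨0, 1⟩ * z) = HJ p U m j z)
    (hE : ∀ q : MulChar (Cls.RR (md t)) ℂ × ℤ, ‖∑ z ∈ SJ p m j, HJ p U m j z * psi (ixq t q) z‖ ≤ bE)
    (hUb : ∀ q ∈ s, (∃ u ∈ U, q.2 = u.2.2 ∧ ∀ z, fn t q.1 z ≠ 0 → u.2.1 z = fn t q.1 z) →
      ‖∑ z ∈ SJ p m j, HJ p U m j z * psi (ixq t q) z‖ ≤ bU)
    (hWb : ∀ q ∈ s, psi (ixq t q) ⟨0, 1⟩ = 1 → (∀ u ∈ U, Dist (fn t q.1) u.2.1 q.2 u.2.2) →
      ‖∑ z ∈ SJ p m j, HJ p U m j z * psi (ixq t q) z‖ ≤ 4 * ‖G2 p m (ixq t q) j‖ + x)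
    (hV2 : ∀ W : Finset (MulChar (Cls.RR (md t)) ℂ × ℤ), W ⊆ s →
      (∀ q ∈ W, psi (ixq t q) ⟨0, 1⟩ = 1 ∧ Dist (fn t q.1) ix1.2.1 q.2 ix1.2.2 ∧
        ¬ Big N (Real.log N ^ A₃) A₁ (ixq t q)) → ∑ q ∈ W, ‖G2 p m (ixq t q) j‖ ^ 2 ≤ b2)
    (hS : (s.card : ℝ) ≤ S) :
    ∑ q ∈ s, ‖∑ z ∈ SJ p m j, HJ p U m j z * psi (ixq t q) z‖ ^ 2 ≤
      (E.card : ℝ) * bE ^ 2 + ((U.card : ℝ) * bU ^ 2 + 32 * b2 + 2 * S * x ^ 2) := by
  classical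
  set V := s.filter (fun q => ∃ u ∈ U, q.2 = u.2.2 ∧ ∀ z, fn t q.1 z ≠ 0 → u.2.1 z = fn t q.1 z) with hV
  set W := s.filter (fun q => psi (ixq t q) ⟨0, 1⟩ = 1 ∧ (∀ u ∈ U, Dist (fn t q.1) u.2.1 q.2 u.2.2) ∧
    Dist (fn t q.1) ix1.2.1 q.2 ix1.2.2 ∧ ¬ Big N (Real.log N ^ A₃) A₁ (ixq t q)) with hW
  have h1 := split3 s E V W (fun q => ‖∑ z ∈ SJ p m j, HJ p U m j z * psi (ixq t q) z‖ ^ 2)
    (fun q => by positivity) (by
      intro q hq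
      by_cases h : psi (ixq t q) ⟨0, 1⟩ = 1
      · right
        rcases hc q hq h with h1 | h1 | h1
        · exact Or.inl h1
        · exact Or.inr (Or.inl (mem_filter.2 ⟨hq, h1⟩))
        · exact Or.inr (Or.inr (mem_filter.2 ⟨hq, h, h1⟩))
      · left
        have hch : ChiG ((ixq t q).1 : Gi) (ixq t q).2.1 := hBRG.1 t q.1 ht
        rw [vanish hch hJ h]
        simp)
  refine h1.trans ?_
  have hEs : ∑ q ∈ E, ‖∑ z ∈ SJ p m j, HJ p U m j z * psi (ixq t q) z‖ ^ 2 ≤ (E.card : ℝ) * bE ^ 2 := by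
    rw [← nsmul_eq_mul]
    exact sum_le_card_nsmul _ _ _ fun q _ => pow_le_pow_left₀ (norm_nonneg _) (hE q) 2
  have hVs : ∑ q ∈ V, ‖∑ z ∈ SJ p m j, HJ p U m j z * psi (ixq t q) z‖ ^ 2 ≤ (U.card : ℝ) * bU ^ 2 := by
    have g1 : ∑ q ∈ V, ‖∑ z ∈ SJ p m j, HJ p U m j z * psi (ixq t q) z‖ ^ 2 ≤ (V.card : ℝ) * bU ^ 2 := by
      rw [← nsmul_eq_mul]
      refine sum_le_card_nsmul _ _ _ fun q hq => ?_
      rw [hV, mem_filter] at hq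
      exact pow_le_pow_left₀ (norm_nonneg _) (hUb q hq.1 hq.2) 2
    have g2 : (V.card : ℝ) ≤ U.card := by
      exact_mod_cast card_V ht hBRG U V fun q hq => (mem_filter.1 hq).2
    exact g1.trans (mul_le_mul_of_nonneg_right g2 (by positivity))
  have hWs : ∑ q ∈ W, ‖∑ z ∈ SJ p m j, HJ p U m j z * psi (ixq t q) z‖ ^ 2 ≤ 32 * b2 + 2 * S * x ^ 2 := by
    have g0 : W ⊆ s := filter_subset _ _
    have g1 := hV2 W g0 (fun q hq => by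
      rw [hW, mem_filter] at hq
      exact ⟨hq.2.1, hq.2.2.2.1, hq.2.2.2.2⟩)
    have g2 : (W.card : ℝ) ≤ S := le_trans (by exact_mod_cast card_le_card g0) hS
    calc ∑ q ∈ W, ‖∑ z ∈ SJ p m j, HJ p U m j z * psi (ixq t q) z‖ ^ 2
        ≤ ∑ q ∈ W, (32 * ‖G2 p m (ixq t q) j‖ ^ 2 + 2 * x ^ 2) := by
          refine sum_le_sum fun q hq => ?_
          rw [hW, mem_filter] at hq
          have k1 := hWb q hq.1 hq.2.1 hq.2.2.1
          have k2 := pow_le_pow_left₀ (norm_nonneg _) k1 2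
          nlinarith [sq_nonneg (4 * ‖G2 p m (ixq t q) j‖ - x)]
      _ = 32 * ∑ q ∈ W, ‖G2 p m (ixq t q) j‖ ^ 2 + (W.card : ℝ) * (2 * x ^ 2) := by
          rw [sum_add_distrib, ← mul_sum, sum_const, nsmul_eq_mul]
      _ ≤ 32 * b2 + S * (2 * x ^ 2) := by
          have := mul_le_mul_of_nonneg_right g2 (show 0 ≤ 2 * x ^ 2 by positivity)
          linarith
      _ = 32 * b2 + 2 * S * x ^ 2 := by ring
  linarith

end Pool.Agent.Lib.MP391708.X3U.FINBM
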