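import Pool.Agent.Lib.MP_391708_nt.X3.U.Spec

/-!
# Theorem X3, part U, module LNS (helper16): the left side of the variance inequality
-/

set_option autoImplicit false

namespace Pool.Agent.Lib.MP391708.X3U

open Finset Filter Topology Pool.Agent.Lib.MP391708.MR
open Pool.Agent.Lib.MP391708.X (ChiG hk Dist Fam rgh Ix psi ix1 UOK lc On)
open Pool.Agent.Lib.MP391708.X3 (Par par Box RR S2 I2 eta kap Eta Kap Var ls)
open scoped ComplexConjugate

namespace LNSM

/-- the two ranges of `b` -/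
lemma sum_Ioc_cast {B : ℝ} (hB : 0 ≤ B) (F : ℤ → ℝ) :
    ∑ b ∈ Ioc ⌊B⌋₊ ⌊2 * B⌋₊, F (b : ℤ) = ∑ b ∈ Ioc ⌊B⌋ ⌊2 * B⌋, F b := by
  have h1 : (⌊B⌋₊ : ℤ) = ⌊B⌋ := Int.natCast_floor_eq_floor hB
  have h2 : (⌊2 * B⌋₊ : ℤ) = ⌊2 * B⌋ := Int.natCast_floor_eq_floor (by linarith)
  rw [← h1, ← h2]
  refine sum_bij (fun b _ => (b : ℤ)) ?_ ?_ ?_ ?_
  · intro b hb
    rw [mem_Ioc] at hb ⊢
    exact ⟨by exact_mod_cast hb.1, by exact_mod_cast hb.2⟩
  · intro a _ b _ h
    exact_mod_cast h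
  · intro b hb
    rw [mem_Ioc] at hb
    refine ⟨b.toNat, ?_, ?_⟩
    · rw [mem_Ioc]
      omega
    · omega
  · intro b _
    rfl

/-- the primes are the disjoint union of the cells -/
lemma GP_fib {h P Q : ℝ} (hh : 1 ≤ h) (hP : 1 ≤ P) (F : Gi → ℂ) :
    ∑ i ∈ VV h P Q, ∑ π ∈ cell h P Q i, F π = ∑ π ∈ GP P Q, F π := by
  unfold cell
  refine sum_fiberwise_of_maps_to (g := fun π => ⌊h * Real.log (nm π)⌋₊) ?_ _
  intro π hπ
  rw [mem_GP] at hπ
  unfold VV
  rw [mem_Icc]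
  have h0 : 0 < P := by linarith
  exact ⟨Nat.floor_le_floor (mul_le_mul_of_nonneg_left
      (Real.log_le_log h0 hπ.2.2.2.2.1.le) (by linarith)),
    Nat.floor_le_floor (mul_le_mul_of_nonneg_left
      (Real.log_le_log (h0.trans hπ.2.2.2.2.1) hπ.2.2.2.2.2) (by linarith))⟩

end LNSM

open LNSM in
theorem specLNS (hHJS : SpecHJS) : SpecLNS := by
  classical
  intro p U m hc B hp hm hhc hB
  obtain ⟨h1, h2, -, -⟩ := hHJS p U m hp hm
  have hP : 2 ≤ p.P := hp.P
  have hT : 0 < p.T := by linarith [hp.T]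
  have hN : 0 < p.N := by linarith [hp.N]
  have hsub : ∀ j, SJ p m j ⊆ disc (p.N * p.T) := by
    intro j
    unfold SJ
    refine (filter_subset _ _).trans (disc_subset ?_)
    unfold MM'
    rw [div_le_iff₀ (by linarith)]
    nlinarith [mul_pos hN hT]
  unfold Var
  rw [sum_comm]
  refine sum_congr rfl fun z1 _ => ?_
  rw [← sum_Ioc_cast hB]
  refine sum_congr rfl fun b _ => ?_
  congr 2
  unfold ls
  rw [← GP_fib (h := hc) (Q := 2 * p.P) hhc (by linarith)]
  refine sum_congr rfl fun i _ => ?_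
  rw [sum_comm]
  refine sum_congr rfl fun π _ => ?_
  have hstep : ∀ j ∈ JJ p m,
      ∑ z ∈ (SJ p m j).filter (fun z => (z1 * (π * z)).im = (b : ℤ) ∧ 0 < (z1 * (π * z)).re),
        HJ p U m j z = ∑ z ∈ (disc (p.N * p.T)).filter (On (z1 * π) b), HJ p U m j z := by
    intro j _
    refine sum_subset ?_ ?_
    · intro z hz
      rw [mem_filter] at hz ⊢
      refine ⟨hsub j hz.1, ?_⟩
      unfold On
      rw [mul_assoc]
      exact hz.2
    · intro z hz hz'
      by_contra hne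
      refine hz' ?_
      rw [mem_filter] at hz ⊢
      refine ⟨h1 j z hne, ?_⟩
      have := hz.2
      unfold On at this
      rw [mul_assoc] at this
      exact this
  rw [sum_congr rfl hstep, sum_comm]
  refine sum_congr rfl fun z _ => ?_
  exact (h2 z).symm

end Pool.Agent.Lib.MP391708.X3U
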