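import Pool.Agent.Lib.MP_391708_nt.X3.Spec
import Pool.Agent.Lib.MP_391708_nt.X3.Big
import Pool.Agent.Lib.MP_391708_nt.XP.U.Spec

/-!
# THEOREM X3 (MP_391708), part U: from the variance inequality `XV3.SpecVAR` and `X3.SpecVB` to `X3.SpecVAR`

This is `XP/U/Spec.lean` with one cell variable (`π₂`) in place of two (`π₄, π₂`).  The set `U` of Hecke characters: the
primitive forms, of conductor `≤ ℓ^aQ`, of the characters `(χ mod t, k)`, `t ≤ T₁`, `|k| ≤ Km`, which are large (`X3.Big`: the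
prime sum over some full cell of fineness `ℓ^A₃` and norm between `N^0.1` and `N^1.2` is large), and the trivial one.

Modules: files `X3/U/XXX.lean`, `import Pool.Agent.Lib.MP_391708_nt.X3.U.Spec`, namespace `Pool.Agent.Lib.MP391708.X3U`, own
lemmas in the namespace `XXXM`, `theorem specXXX (hYYY : SpecYYY) .. : SpecXXX` (hypotheses in the order of the brackets).
START FROM THE FILE `XP/U/XXX.lean` (or `X/U/XXX.lean`).  `XU.SpecBRG`, `XU.SpecCON`, `XU.SpecNCD`, `XPU.SpecRGS`, `XPU.SpecATY` are used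
unchanged.  The statements of `X/SpecHM` are proved without hypotheses in `X/HM.lean` (`hm_hmt`, `hm_rg0`, `hm_rg1`, `hm_par`, ..) and may be
cited.  `Box δ cP cT cB N T P B` is: `ℓ^cP ≤ P ≤ ℓ^(2cP)`, `P ℓ^cT ≤ T ≤ N^δ`, `T P ℓ^cB ≤ B`, `B² ≤ 2N`; `M2 = NT/(8P)`.
-/

set_option autoImplicit false

namespace Pool.Agent.Lib.MP391708.X3U

open Finset Filter Topology Pool.Agent.Lib.MP391708.MR
open Pool.Agent.Lib.MP391708.X (ChiG hk Dist Fam rgh Ix psi ix1 UOK lc On)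
open Pool.Agent.Lib.MP391708.X3 (Par par Box RR S2 I2 eta kap Eta Kap Var cl Big)
open Pool.Agent.Lib.MP391708.XV (md chs ph hat atyp)
open Pool.Agent.Lib.MP391708.XU (fn ixq GG Eqv SpecBRG SpecCON SpecNCD)
open Pool.Agent.Lib.MP391708.XPU (SpecRGS SpecATY)
open scoped ComplexConjugate

/-! ## Definitions -/

/-- the sum over a coarse cell of `π₂` (first quadrant) -/
noncomputable def G2 (p : Par) (m : ℕ) (i : Ix) (a : ℕ) : ℂ := ∑ π ∈ GG p.h p.M2 m a, psi i π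

/-- the indices of the coarse cells -/
noncomputable def JJ (p : Par) (m : ℕ) : Finset ℕ := (I2 p).image (fun v => v / m)

/-- the bound for the norm of `z'` -/
noncomputable def MM' (p : Par) : ℝ := 2 * p.N * p.T / p.P

open scoped Classical in
/-- the rough elements of the coarse radial cell `j` -/
noncomputable def SJ (p : Par) (m j : ℕ) : Finset Gi :=
  (disc (MM' p)).filter (fun z => rgh p.w z ∧ ⌊p.h * Real.log (nm z)⌋₊ / m = j)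

/-- the part of `Eta - Kap` of the coarse cell `j` -/
noncomputable def HJ (p : Par) (U : Finset Ix) (m j : ℕ) (z : Gi) : ℂ :=
  ∑ v ∈ (I2 p).filter (fun v => v / m = j), (eta p v z - kap p U v z)

/-- the size conditions used below -/
structure Siz (p : Par) : Prop where
  N : 100 ≤ p.N
  h : 1 ≤ p.h
  w : 2 ≤ p.w
  P : 2 ≤ p.P
  wP : p.w < p.P
  T : 64 * p.P ≤ p.T
  wN : p.w < p.N
  /-- `T² ≤ N/100` -/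
  TN : 100 * p.T ^ 2 ≤ p.N

/-! ## Characters -/

/-- LVX (150 lines, from HM: `hm_hmt`, BRG).  Few characters have a large sum over primes of norm about `M`, `M ≥ N^(1/11)`.
Proof.  As `XP/U/LVX.lean`: HMT with `A = 44` (`x = 2M`, `|k| ≤ N^2 ≤ M^22 ≤ x^44`), `c` = a 24th of the `c` of HMT.  Suppose
`#W > 300 ℓ^(2 A₁)`; take `W' ⊆ W` with `⌊300 ℓ^(2 A₁)⌋ + 1 ≤ x^c` elements, moduli of norm `i.1² ≤ N^(2c) ≤ x^(..)`, `y = M`, `y' = 2M`, `a` = the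
indicator of `G`: `#W' · M² ℓ^(-2 A₁) ≤ (π M + x^(1-c)) #G ≤ 6 M · 9 · 2 M = 108 M²`, contradiction. -/
def SpecLVX : Prop := ∃ c : ℝ, 0 < c ∧ ∀ A₁ : ℝ, 0 ≤ A₁ → ∀ᶠ N : ℝ in atTop, ∀ (M : ℝ) (W : Finset Ix) (G : Finset Gi),
  N ^ (1 / 11 : ℝ) ≤ M → M ≤ N ^ (2 : ℝ) → G ⊆ GP M (2 * M) →
  (∀ i ∈ W, 1 ≤ i.1 ∧ (i.1 : ℝ) ≤ N ^ c ∧ ChiG (i.1 : Gi) i.2.1 ∧ |(i.2.2 : ℝ)| ≤ N ^ 2) →
  (∀ i ∈ W, ∀ j ∈ W, i ≠ j → Dist i.2.1 j.2.1 i.2.2 j.2.2) →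
  (∀ i ∈ W, M * Real.log N ^ (-A₁) < ‖∑ π ∈ G, psi i π‖) →
    (W.card : ℝ) ≤ 300 * Real.log N ^ (2 * A₁)

/-- VB2 (150 lines, from X3.SpecVB, BRG).  VB for the characters modulo `t` and the coarse cells of `π₂`.
Proof.  `W ↦` the image under `ixq t` (injective: BRG (3) and `Dist` irreflexive, or directly), pairwise `Dist` by BRG (3), `ChiG` by BRG (1).
`G2 p m i a` is the sum over the `π ∈ GP M₂ 2M₂` with `m a ≤ ⌊h log nm π⌋ < m (a + 1)`, that is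
`e^(m a/h) ≤ nm π < e^(m (a+1)/h)`, i.e. `GP X X'` with `X = max M₂ (⌈e^(m a/h)⌉ - 1)`, `X' = min (2 M₂) (⌈e^(m (a+1)/h)⌉ - 1)` (norms are integers), or
the sum is empty.  `M = M₂ = NT/(8P)` is between `N^0.9` and `N^1.1` (`δ ≤ 1/100`; `T ≥ P`), `9 M₂² ≤` nothing to lose: take VB with `A₄`. -/
def SpecVB2 : Prop := ∃ c : ℝ, 0 < c ∧ ∀ A₄ : ℝ, 0 < A₄ → ∃ A₃ A₁ : ℝ, 1 ≤ A₃ ∧ 1 ≤ A₁ ∧
  ∀ δ cP cT cB cw ch : ℝ, 0 < δ → δ ≤ 1 / 100 → 1 ≤ cP → 1 ≤ cT → 1 ≤ cB → 1 ≤ ch → ∀ᶠ N : ℝ in atTop, ∀ T P B : ℝ,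
  Box δ cP cT cB N T P B → ∀ (t m a : ℕ) (W : Finset (MulChar (Cls.RR (md t)) ℂ × ℤ)), 1 ≤ t → (t : ℝ) ≤ N ^ c → 1 ≤ m →
  (∀ q ∈ W, |(q.2 : ℝ)| ≤ N ^ 2 ∧ psi (ixq t q) ⟨0, 1⟩ = 1 ∧ Dist (fn t q.1) ix1.2.1 q.2 ix1.2.2 ∧
    ¬ Big N (Real.log N ^ A₃) A₁ (ixq t q)) → (W.card : ℝ) ≤ N ^ c →
    ∑ q ∈ W, ‖G2 (par N T P ch cw) m (ixq t q) a‖ ^ 2 ≤ (par N T P ch cw).M2 ^ 2 * Real.log N ^ (-A₄)

/-! ## The model -/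

/-- SUP (200 lines, from HM: `hm_rg0`).  The pointwise bound.
Proof.  `∑_v ‖eta v z‖ ≤ 1`: `z ~ π`, `π` in the open first quadrant, determines `π` and `v`.  For `z ∈ lc h v`, rough: only this `v` (`lc` determines
`v`), `‖kap v z‖ ≤ ∑_U |S2(v)|/RR(v) ≤ #U · 4 #cell(v)/RR(v)` (`|ψ| ≤ 1`: BRG (4) is proved in `X/U/BRG.lean`, or `X` PSI).  `#cell(v) ≤ #lc h v ≤ C e^(v/h)/h` (RG0 with
`w = 1`, or CTU: `π (e^(1/h) - 1) e^(v/h) + C x^(1-c)`, `h` a power of `ℓ`) and `RR(v) ≥ c e^(v/h)/(h log w)` (RG0 with `x = N^(1+δ)` or `2NT`, `w = ℓ^cw`, `VP w ≥ c/log w`: see how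
`XP/U/SUP.lean` does it), `v ≥ ⌊h log M₂⌋`, `e^(v/h) ≥ M₂/3`.  So the ratio is `≤ C log w ≤ ℓ`, total `≤ 4 ℓ^aU C log w + 1 ≤ ℓ^(aU + 2)`. -/
def SpecSUP : Prop := ∀ ch cw aQ aU : ℝ, 1 ≤ ch → 2 * aQ ≤ cw → 1 ≤ cw → 1 ≤ aQ → 1 ≤ aU → ∀ δ cP cT cB : ℝ, 0 < δ → δ ≤ 1 / 100 →
  1 ≤ cP → cw + 1 ≤ cP → 1 ≤ cT → 1 ≤ cB → ∀ᶠ N : ℝ in atTop, ∀ T P B : ℝ, Box δ cP cT cB N T P B →
  ∀ (F : ℝ) (U : Finset Ix), F ≤ N ^ 2 → UOK (Real.log N ^ aQ) F (Real.log N ^ aU) U → ∀ z : Gi,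
    ∑ v ∈ I2 (par N T P ch cw), (‖eta (par N T P ch cw) v z‖ + ‖kap (par N T P ch cw) U v z‖) ≤ Real.log N ^ (aU + 2)

/-- L2B (300 lines, strong; from HM: `hm_grm`, `hm_hmt`, `hm_rg0`).  The mean square of the model.
Proof.  For every `z` at most one `v` has `eta v z ≠ 0` and at most one has `kap v z ≠ 0`, so
`(∑_v ‖eta v z - kap v z‖)² ≤ 2 ∑_v ‖eta v z‖² + 2 ∑_v ‖kap v z‖²`.  `∑_z ∑_v ‖eta v z‖² ≤ 4 #GP M₂ 2M₂ ≤ 72 M₂ = 9 NT/P` (four associates; `card_GP_le`).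
`∑_(z ∈ disc) ‖kap v z‖² ≤ ∑_(z ∈ lc v, rough) ‖∑_i conj(cc_i) ψ_i(z)‖² ≤ (RR(v) + #U x^(1-c)) ∑_i |cc_i|² ≤ 2 RR(v) ∑_i |cc_i|² = 2 ∑_i |S2(i, v)|²/RR(v)`: GRM with `x = 4NT`, `A = 2`,
`A' = cw`, `y = ⌈e^(v/h)⌉ - 1`, `y' = ⌈e^((v+1)/h)⌉ - 1` (`lc h v` is `ann y y'`), the moduli have norm `i.1² ≤ ℓ^(2aQ) ≤ w`; `#U x^(1-c) ≤ RR(v)` since `RR(v) ≥ c M₂/(h log w)` (RG0, see SUP) and
`M₂ = NT/(8P)`, `P ≤ ℓ^(2cP)`.  HMT for the same `y, y'`, `a` = the indicator of the cell: `∑_U |S2(i,v)|² ≤ 16 (π (y'-y) + x^(1-c)) #cell(v) ≤ C (M₂/h)²`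
(`#cell(v) ≤ #lc v ≤ C M₂/h`), so `2 ∑_i |S2|²/RR(v) ≤ C (M₂/h) log w`; the number of `v` is `≤ h + 2`.  Total `≤ 18 NT/P + C M₂ log w ≤ ℓ NT/P` (`M₂ = NT/(8P)`,
`log w = cw log ℓ`). -/
def SpecL2B : Prop := ∀ ch cw aQ aU : ℝ, 1 ≤ ch → 2 * aQ ≤ cw → 1 ≤ cw → 1 ≤ aQ → 1 ≤ aU → ∀ δ cP cT cB : ℝ, 0 < δ → δ ≤ 1 / 100 →
  1 ≤ cP → cw + 1 ≤ cP → 1 ≤ cT → 1 ≤ cB → ∀ᶠ N : ℝ in atTop, ∀ T P B : ℝ, Box δ cP cT cB N T P B →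
  ∀ (F : ℝ) (U : Finset Ix), F ≤ N ^ 2 → UOK (Real.log N ^ aQ) F (Real.log N ^ aU) U →
    ∑ z ∈ disc (MM' (par N T P ch cw)), (∑ v ∈ I2 (par N T P ch cw),
      ‖eta (par N T P ch cw) v z - kap (par N T P ch cw) U v z‖) ^ 2 ≤ Real.log N * (N * T / P)

/-- HJS (200 lines).  The cells.
Proof.  As in `XP/U/HJS.lean`, simpler.  `v / m` determines the group: every `v ∈ I2` is in exactly one `j ∈ JJ`.  Support: `kap v z ≠ 0` gives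
`z ∈ lc h v`, rough, `⌊h log nm z⌋ = v`, so `⌊..⌋ / m = v / m = j`.  `eta v z ≠ 0`: `z ~ π₂` in the cell `v`: `⌊h log nm z⌋ = v`; a prime dividing `z` is an
associate of `π₂`, of norm `> M₂ > w` (`M₂ = NT/(8P) ≥ 8N`).  Norms `< e^((v+1)/h)`, `v ≤ h log (2 M₂)`: `≤ e · 2 M₂ = e N T/(4P) ≤ MM'`.
(4): `ψ_i(i z) = ψ_i(i) ψ_i(z)`, norm and roughness do not change, `eta` depends on the class of associates (`z = 0`: both `0`). -/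
def SpecHJS : Prop := ∀ (p : Par) (U : Finset Ix) (m : ℕ), Siz p → 1 ≤ m →
  (∀ j z, HJ p U m j z ≠ 0 → z ∈ SJ p m j) ∧
  (∀ z, ∑ j ∈ JJ p m, HJ p U m j z = Eta p z - Kap p U z) ∧
  (∀ z, ∑ j ∈ JJ p m, ‖HJ p U m j z‖ ≤ ∑ v ∈ I2 p, ‖eta p v z - kap p U v z‖) ∧
  ((∀ i ∈ U, psi i ⟨0, 1⟩ = 1 ∧ ChiG (i.1 : Gi) i.2.1) → ∀ j z, HJ p U m j (⟨0, 1⟩ * z) = HJ p U m j z)

/-- ETH (150 lines).  The sum of `eta` against a character.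
Proof.  As in `XP/U/ETH.lean`, simpler: the sum over the `z ∈ SJ` (which contains the support, see HJS) is `∑_(π₂) ∑_(u unit) ψ_i(u π₂) = 4 ∑ ψ_i(π₂)` (four
different associates). -/
def SpecETH : Prop := ∀ (p : Par) (m j : ℕ) (i : Ix), Siz p → 1 ≤ m → 1 ≤ i.1 → ChiG (i.1 : Gi) i.2.1 → psi i ⟨0, 1⟩ = 1 →
  ∑ z ∈ SJ p m j, (∑ v ∈ (I2 p).filter (fun v => v / m = j), eta p v z) * psi i z = 4 * G2 p m i j

/-- HTS (200 lines, from RGS, HJS, ETH, BRG).  The sum of `HJ` against a character different from all of `U`.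
Proof.  As in `XP/U/HTS.lean`; `c` = half the `c` of RGS (and `≤ 1/10`); the cells: `e^((v+1)/h) ≤ e · 2 M₂ ≤ N T ≤ N^(1+δ)`, `δ ≤ c`.
ETH for the `eta` part.  The `kap` part: `∑_z kap(z) ψ_q(z) = ∑_(i∈U) cc_i ∑_(z ∈ lc v, rough) conj ψ_i ψ_q`, each inner sum
`≤ N^(1-c)` (RGS), and `|cc_i| ≤ |S2| / RR ≤ 4 #cell/RR ≤ ℓ^(ch+3)` (RG0, see SUP); the number of `(v, i)` is a power of `ℓ`. -/
def SpecHTS : Prop := ∀ cw : ℝ, 1 ≤ cw → ∃ c : ℝ, 0 < c ∧ c ≤ 1 ∧ ∀ ch aQ aU : ℝ, 1 ≤ ch → 2 * aQ ≤ cw → 1 ≤ aQ →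
  ∀ δ cP cT cB : ℝ, 0 < δ → δ ≤ c → 1 ≤ cP → cw + 1 ≤ cP → 1 ≤ cT → 1 ≤ cB →
  ∀ᶠ N : ℝ in atTop, ∀ T P B : ℝ, Box δ cP cT cB N T P B → ∀ (F : ℝ) (U : Finset Ix), F ≤ N ^ 2 →
  UOK (Real.log N ^ aQ) F (Real.log N ^ aU) U → ∀ (i : Ix) (m j : ℕ), 1 ≤ m →
  1 ≤ i.1 → (i.1 : ℝ) ≤ N ^ c → ChiG (i.1 : Gi) i.2.1 → |(i.2.2 : ℝ)| ≤ N ^ 2 → psi i ⟨0, 1⟩ = 1 →
  (∀ u ∈ U, Dist i.2.1 u.2.1 i.2.2 u.2.2) →
    ‖∑ z ∈ SJ (par N T P ch cw) m j, HJ (par N T P ch cw) U m j z * psi i z‖ ≤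
      4 * ‖G2 (par N T P ch cw) m i j‖ + N ^ (1 - c)

/-- HTA (250 lines, from RGS, NCD, HJS, ETH, SUP).  The sum of `HJ` against a character `i = (t, χ, k)` which is `u ∈ U` on the elements
coprime to `t`.
Proof.  As in `XP/U/HTA.lean`; `c` = half the `c` of RGS, and `c ≤ 1/10`, so that `t² ≤ N^(2c) < N ≤ M2`.
`eta` part: `4 G2(i) = 4 G2(u)` (the `π₂` have norm `> t²`, so they are coprime to `t`, where `ψ_i = ψ_u`) `= ∑_v S2(u, v)` (the group).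
`kap` part: the `z` are rough.  For `z` coprime to `t` one has `ψ_i(z) = ψ_u(z)`, for the others
`ψ_i(z) = 0`, so it is `∑_v ∑_(z ∈ lc v, rough) kap(z) ψ_u(z)` minus the sum over the `z` not coprime to `t`, which is in absolute value
`≤ ∑_(z ∈ SJ, not coprime) ∑_v ‖kap(z)‖ ≤ ℓ^(aU+2) · 40 (1 + log t) MM'/w` (SUP, NCD, `|ψ_u| ≤ 1`).  And
`∑_(z ∈ lc v, rough) kap ψ_u = cc_u RR + ∑_(u' ≠ u) cc_u' ∑ conj ψ_u' ψ_u = S2(u) + O(#U ℓ^(ch+3) N^(1-c))` (`|ψ_u(z)| = 1` for rough `z`: the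
primes dividing the modulus have norm `≤ ℓ^(2 aQ) ≤ w`; RGS; `RR > 0` by RG0).  The main parts cancel. -/
def SpecHTA : Prop := ∀ cw : ℝ, 1 ≤ cw → ∃ c : ℝ, 0 < c ∧ c ≤ 1 ∧ ∀ ch aQ aU : ℝ, 1 ≤ ch → 2 * aQ ≤ cw → 1 ≤ aQ → 1 ≤ aU →
  ∀ δ cP cT cB : ℝ, 0 < δ → δ ≤ c → 1 ≤ cP → cw + 1 ≤ cP → 1 ≤ cT → 1 ≤ cB →
  ∀ᶠ N : ℝ in atTop, ∀ T P B : ℝ, Box δ cP cT cB N T P B → ∀ (F : ℝ) (U : Finset Ix), F ≤ N ^ 2 →
  UOK (Real.log N ^ aQ) F (Real.log N ^ aU) U → ∀ (i : Ix) (m j : ℕ), 1 ≤ m →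
  1 ≤ i.1 → (i.1 : ℝ) ≤ N ^ c → ChiG (i.1 : Gi) i.2.1 →
  (∃ u ∈ U, i.2.2 = u.2.2 ∧ ∀ z, i.2.1 z ≠ 0 → u.2.1 z = i.2.1 z) →
    ‖∑ z ∈ SJ (par N T P ch cw) m j, HJ (par N T P ch cw) U m j z * psi i z‖ ≤
      40 * (1 + Real.log i.1) * Real.log N ^ (aU + 2) * MM' (par N T P ch cw) / (par N T P ch cw).w + N ^ (1 - c)

/-- LNS (150 lines, from HJS).  The left side of the variance inequality is `Var`.
Proof.  As in `XP/U/LNS.lean` (`X/U/LNS.lean`): `GP P 2P` is the disjoint union of the `cell hc P 2P i`, `i ∈ VV`; `(Eta - Kap)(z) =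
∑_j HJ j z`, supported on `SJ j ⊆ disc (NT)`; `On (ζ π) b z` is `(ζ π z).im = b ∧ 0 < (ζ π z).re`.  `Ioc ⌊B⌋₊ ⌊2B⌋₊` and `Ioc ⌊B⌋ ⌊2B⌋` correspond (`B ≥ 0`). -/
def SpecLNS : Prop := ∀ (p : Par) (U : Finset Ix) (m : ℕ) (hc B : ℝ), Siz p → 1 ≤ m → 1 ≤ hc → 0 ≤ B →
  Var p B (fun z => Eta p z - Kap p U z) =
    ∑ z1 ∈ (ann p.K (2 * p.K)).filter prim, ∑ b ∈ Ioc ⌊B⌋ ⌊2 * B⌋, ‖∑ i ∈ VV hc p.P (2 * p.P), ∑ j ∈ JJ p m,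
      ∑ π ∈ cell hc p.P (2 * p.P) i, ∑ z ∈ (SJ p m j).filter (fun z => (z1 * (π * z)).im = b ∧ 0 < (z1 * (π * z)).re),
        HJ p U m j z‖ ^ 2

/-- the character is large, or it is the trivial one -/
def Lrg (N A₃ A₁ : ℝ) (i : Ix) : Prop := Eqv i ix1 ∨ Big N (Real.log N ^ A₃) A₁ i

/-- USET (300 lines, from BRG, CON, LVX).  The set `U`.
Proof.  As in `XP/U/USET.lean`; `c` = the least of the `c` of LVX and `1/25` (then `T₁² ≤ N^(2c) < N^0.09 ≤` the norms in the cells of `Big`, so the primes of the cells are coprime to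
the moduli; `cl h v`, `v ≥ h log N/10`: `nm π ≥ e^(v/h) ≥ N^0.1`), `1 + log T₁ ≤ ℓ`.
Let `C` be the finite set of the indices `ixq t q`, `1 ≤ t ≤ T₁`, `q ∈ chs t × IK Km`, with `ψ(i) = 1` and `Lrg`.  Let `W ⊆ C` be a maximal
subset whose elements are pairwise `Dist`.  Every `q ∈ C` is `Eqv` to some `w ∈ W` (if `q ∈ W`: itself).
For each `v` the `w ∈ W` with the sum over `cl h v` large are at most `300 ℓ^(2 A₁)` (LVX with `M = e^(v/h)/1.1`, `cl h v ⊆ GP M 2M` as `h` is large), one `w` is `Eqv ix1` at most,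
and the number of `v` is `≤ 1.2 ℓ^(A₃+1) + 1`: so `#W ≤ ℓ^(2 A₁ + A₃ + 2)`.
CON gives `(f_w, χ*_w)` for `w ∈ W`.  `U` = the `(f_w, χ*_w, k_w)` with `f_w ≤ ℓ^aQ`.  UOK: `Dist` from the `Dist` of the `w`; `ψ(i) = 1`;
`ix1 ∈ U` (see `XP/U/USET.lean`).
Conclusion (a): `q` large and `Eqv w`, `f_w ≤ ℓ^aQ`: the last clause of CON for `t`, `χ_q` gives `χ*_w z = χ_q z` where `χ_q z ≠ 0`.
(b): the `q` large and `Eqv w` with `f_w > ℓ^aQ`: `f_w ∣ t`; for fixed `t` and `w` at most one `q`.  So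
`∑_t (1/t) #{such q} ≤ ∑_w ∑_(f_w ∣ t ≤ T₁) 1/t ≤ #W (1 + log T₁) ℓ^(-aQ) ≤ ℓ^(2 A₁ + A₃ + 3 - aQ)`.
(c): `q` not large (with `ψ(i) = 1`) is `Dist` from all `u ∈ U`: if it were `Eqv` to the primitive form `u` of a large `w`, then its sums over the cells `cl h v` would be those of `w` (the primes of the cells are
coprime to all moduli), so it would be large; `ix1 ∈ U` gives the `Dist` from `ix1`. -/
def SpecUSET : Prop := ∃ c : ℝ, 0 < c ∧ ∀ A₃ A₁ aQ : ℝ, 1 ≤ A₃ → 1 ≤ A₁ → 1 ≤ aQ → ∀ᶠ N : ℝ in atTop,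
  ∀ (T₁ Km : ℕ), (T₁ : ℝ) ≤ N ^ c → 1 ≤ T₁ → (Km : ℝ) ≤ N →
  ∃ U : Finset Ix, UOK (Real.log N ^ aQ) Km (Real.log N ^ (2 * A₁ + A₃ + 3)) U ∧
    ∃ E : (t : ℕ) → Finset (MulChar (Cls.RR (md t)) ℂ × ℤ),
      (∑ t ∈ Icc 1 T₁, ((E t).card : ℝ) / t ≤ Real.log N ^ (2 * A₁ + A₃ + 4 - aQ)) ∧
      ∀ t : ℕ, 1 ≤ t → t ≤ T₁ → ∀ q : MulChar (Cls.RR (md t)) ℂ × ℤ, q.1 ∈ chs t → q.2 ∈ IK Km →
        psi (ixq t q) ⟨0, 1⟩ = 1 →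
        q ∈ E t ∨ (∃ u ∈ U, q.2 = u.2.2 ∧ ∀ z, fn t q.1 z ≠ 0 → u.2.1 z = fn t q.1 z) ∨
          ((∀ u ∈ U, Dist (fn t q.1) u.2.1 q.2 u.2.2) ∧ Dist (fn t q.1) ix1.2.1 q.2 ix1.2.2 ∧
            ¬ Big N (Real.log N ^ A₃) A₁ (ixq t q))

end Pool.Agent.Lib.MP391708.X3U
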